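import Pool.Agent.Lib.MP_0d46c2_al.Defs

set_option autoImplicit false
set_option linter.unusedSectionVars false

/-!
# Bounds: weights of valid patterns are bounded; degrees are bounded by path weights
-/

namespace CoxBound

open CoxeterSystem

variable {B : Type*} [Fintype B] [DecidableEq B] {M : CoxeterMatrix B}
variable {W : Type*} [Group W] {cs : CoxeterSystem M W}

private lemma bpw_append (p q : List (B × Bool)) : pw cs (p ++ q) = pw cs p * pw cs q := by
  induction p with
  | nil => simp [pw]
  | cons a p ih =>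
    obtain ⟨i, b⟩ := a
    cases b
    · simp only [List.cons_append, pw, ih, mul_assoc, Bool.false_eq_true, if_false]
    · simp only [List.cons_append, pw, ih, if_true]

private lemma bvalid_append (p q : List (B × Bool)) (x : W) :
    Valid cs (p ++ q) x ↔ Valid cs q x ∧ Valid cs p (pw cs q * x) := by
  induction p with
  | nil => simp [Valid]
  | cons a p ih =>
    obtain ⟨i, b⟩ := a
    simp only [List.cons_append, Valid, ih, bpw_append, mul_assoc]
    tauto

private lemma bpwt_append (L : W → ℕ) (p q : List (B × Bool)) :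
    pwt cs L (p ++ q) = pwt cs L p + pwt cs L q := by
  induction p with
  | nil => simp [pwt]
  | cons a p ih =>
    obtain ⟨i, b⟩ := a
    simp only [List.cons_append, pwt, ih, add_assoc]

private theorem pwt_crossing (L : W → ℕ) (wt : (B → ℝ) → ℕ)
    (hw0 : ∀ i, wt (sroot i) = L (cs.simple i))
    (hwt : ∀ (i : B) (γ : B → ℝ), IsRoot cs γ → wt (geo cs (cs.simple i) γ) = wt γ)
    (p : List (B × Bool)) (hp : cs.IsReduced (p.map Prod.fst)) (y : W) (hv : Valid cs p y) :
    ∃ K : Finset (B → ℝ), ↑K ⊆ common cs (cs.wordProd (p.map Prod.fst)) y⁻¹ ∧ Crossing M K ∧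
      pwt cs L p = ∑ γ ∈ K, wt γ := by
  classical
  induction p using List.reverseRecOn generalizing y with
  | nil => exact ⟨∅, by simp, by intro γ hγ; simp at hγ, by simp [pwt]⟩
  | append_singleton p a ih =>
    obtain ⟨i, b⟩ := a
    rw [List.map_append, List.map_singleton] at hp ⊢
    have hp' : cs.IsReduced (p.map Prod.fst) := by
      have := hp.take (p.map Prod.fst).length
      rwa [List.take_left'  rfl] at this
    set x := cs.wordProd (p.map Prod.fst ++ [i]) with hx
    have hxi : x * cs.simple i = cs.wordProd (p.map Prod.fst) := by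
      rw [hx, wordProd_append, wordProd_singleton, cs.simple_mul_simple_cancel_right]
    have hlen : cs.length (x * cs.simple i) < cs.length x := by
      rw [hxi, hp'.eq, hx, hp.eq]; simp
    have hxneg := geo_sroot_nonpos cs hlen
    have hinv : (cs.simple i * y)⁻¹ = y⁻¹ * cs.simple i := by
      rw [mul_inv_rev, cs.inv_simple]
    rw [bvalid_append] at hv
    rw [bpwt_append]
    cases b with
    | false =>
      have hv2 : Valid cs p (cs.simple i * y) := by
        have := hv.2
        simpa [pw] using this
      obtain ⟨K1', h1a, h1b, h1c⟩ := ih hp' (cs.simple i * y) hv2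
      rw [← hxi, hinv] at h1a
      obtain ⟨K1, k1a, k1b, k1c⟩ := step_move x y⁻¹ i hxneg wt (hwt i) K1' h1a h1b
      refine ⟨K1, k1a, k1b, ?_⟩
      rw [k1c, ← h1c]
      simp [pwt]
    | true =>
      have hv2 : Valid cs p y := by
        have := hv.2
        simpa [pw] using this
      have hlt : cs.length (cs.simple i * y) < cs.length y := by
        have := hv.1
        simpa [Valid, pw] using this
      obtain ⟨K2', h2a, h2b, h2c⟩ := ih hp' y hv2
      rw [← hxi] at h2a
      have hyneg : geo cs y⁻¹ (sroot i) ≤ 0 := by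
        apply geo_sroot_nonpos
        rw [← cs.length_inv (y⁻¹ * cs.simple i), ← cs.length_inv y⁻¹, mul_inv_rev, inv_inv,
          cs.inv_simple]
        exact hlt
      obtain ⟨K2, k2a, k2b, k2c⟩ := step_fold x y⁻¹ i hxneg hyneg wt (hwt i) K2' h2a h2b
      refine ⟨K2, k2a, k2b, ?_⟩
      rw [k2c, hw0, h2c]
      simp [pwt, add_comm]

/-- The weights of valid patterns on reduced words are bounded. -/
theorem pwt_bounded (cs : CoxeterSystem M W) {L : W → ℕ} (hL : IsWeight cs L) : ∃ C : ℕ,
    ∀ (p : List (B × Bool)) (x : W), cs.IsReduced (p.map Prod.fst) → Valid cs p x →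
      pwt cs L p ≤ C := by
  classical
  obtain ⟨C, hC⟩ := crossing_card cs
  let wt : (B → ℝ) → ℕ := fun γ =>
    if h : IsRoot cs γ then L (cs.simple h.choose_spec.choose) else 0
  have hwt : ∀ (w : W) (i : B), wt (geo cs w (sroot i)) = L (cs.simple i) := by
    intro w i
    have h : IsRoot cs (geo cs w (sroot i)) := ⟨w, i, rfl⟩
    have e : wt (geo cs w (sroot i)) = L (cs.simple h.choose_spec.choose) := dif_pos h
    rw [e]
    exact (weight_eq hL.add h.choose_spec.choose_spec).symm
  have hwt0 : ∀ i, wt (sroot i) = L (cs.simple i) := by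
    intro i
    have := hwt 1 i
    simpa using this
  have hwtS : ∀ (i : B) (γ : B → ℝ), IsRoot cs γ → wt (geo cs (cs.simple i) γ) = wt γ := by
    rintro i γ ⟨w, j, rfl⟩
    rw [← geo_mul, hwt, hwt]
  refine ⟨C * ∑ i : B, L (cs.simple i), fun p x hp hv => ?_⟩
  obtain ⟨K, hK, hcr, hsum⟩ := pwt_crossing L wt hwt0 hwtS p hp x hv
  rw [hsum]
  have h1 : ∀ γ ∈ K, wt γ ≤ ∑ i : B, L (cs.simple i) := by
    intro γ hγ
    obtain ⟨w, i, rfl⟩ := (hK hγ).1
    rw [hwt]
    exact Finset.single_le_sum (f := fun i => L (cs.simple i)) (fun _ _ => Nat.zero_le _)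
      (Finset.mem_univ i)
  calc ∑ γ ∈ K, wt γ ≤ ∑ _γ ∈ K, ∑ i : B, L (cs.simple i) := Finset.sum_le_sum h1
    _ = K.card * ∑ i : B, L (cs.simple i) := by rw [Finset.sum_const, smul_eq_mul]
    _ ≤ C * ∑ i : B, L (cs.simple i) :=
      Nat.mul_le_mul_right _ (hC K (fun γ hγ => (hK hγ).1) hcr)

/-- Degrees are bounded by the weights of paths. -/
theorem bdd_of_paths {L : W → ℕ} {ω : List B} {y z : W} {N : ℤ}
    (h : ∀ n : ℕ, LPath cs L ω y z n → (n : ℤ) ≤ N) : Bdd (lops cs L ω (dlt y) z) N := by
  classical
  induction ω generalizing z N with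
  | nil =>
    rw [lops_nil]
    simp only [dlt]
    split_ifs with hz
    · subst hz
      have := h 0 (LPath.nil z)
      exact Bdd.one.mono (by exact_mod_cast this)
    · exact Bdd.zero _
  | cons i ω ih =>
    rw [lops_cons]
    have hmove : Bdd (lops cs L ω (dlt y) (cs.simple i * z)) N := by
      apply ih
      intro n hn
      apply h
      have := LPath.move (i := i) hn
      rwa [cs.simple_mul_simple_cancel_left] at this
    simp only [lop]
    split_ifs with hlt
    · exact hmove
    · refine hmove.add ?_
      have hne := cs.length_simple_mul_ne z i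
      have h2 : Bdd (lops cs L ω (dlt y) z) (N - (L (cs.simple i) : ℤ)) := by
        apply ih
        intro n hn
        have := h _ (LPath.fold (i := i) hn (by omega))
        push_cast at this
        omega
      have h3 := h2.xi_mul (L (cs.simple i))
      rwa [add_sub_cancel] at h3

end CoxBound
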