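import Pool.Agent.Lib.MP_0d46c2_al.Hecke

set_option autoImplicit false
set_option linter.unusedSimpArgs false
set_option linter.unusedSectionVars false

/-!
# Crossing families have bounded cardinality (congruences modulo 3)
-/

namespace CoxBound

open Real CoxeterSystem

/-! ### Minkowski's lemma in a ring -/

section Minkowski

variable {R : Type*} [Ring R]

lemma exists_one_add_pow (Y : R) (n : ℕ) : ∃ Z : R, (1 + Y) ^ n = 1 + (n : ℤ) • Y + Y * Y * Z := by
  induction n with
  | zero => exact ⟨0, by simp⟩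
  | succ n ih =>
    obtain ⟨Z, hZ⟩ := ih
    refine ⟨(n : ℤ) • 1 + Z + Z * Y, ?_⟩
    rw [pow_succ, hZ]
    push_cast
    simp only [add_mul, mul_add, one_mul, mul_one, smul_mul_assoc, mul_smul_comm, add_smul,
      one_smul, mul_assoc]
    abel

lemma exists_one_add_three_pow (X : R) (n : ℕ) : ∃ Z : R, (1 + (3 : ℤ) • X) ^ n = 1 + (3 : ℤ) • Z := by
  obtain ⟨Z, hZ⟩ := exists_one_add_pow ((3 : ℤ) • X) n
  refine ⟨(n : ℤ) • X + (3 : ℤ) • (X * X * Z), ?_⟩
  rw [hZ]
  simp only [smul_mul_assoc, mul_smul_comm, smul_add, smul_smul, add_assoc]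
  congr 2
  · rw [mul_comm]

variable (h3 : ∀ x : R, (3 : ℤ) • x = 0 → x = 0)
variable (hsep : ∀ x : R, (∀ j : ℕ, ∃ y, x = ((3 : ℤ) ^ j) • y) → x = 0)

include h3 in
lemma cancel_three_pow (j : ℕ) (x : R) (h : ((3 : ℤ) ^ j) • x = 0) : x = 0 := by
  induction j with
  | zero => simpa using h
  | succ j ih =>
    apply ih
    rw [pow_succ', mul_smul] at h
    exact h3 _ h

include h3 hsep in
lemma minkowski_prime {p : ℕ} (hp : p.Prime) (X : R) (h : (1 + (3 : ℤ) • X) ^ p = 1) :
    (3 : ℤ) • X = 0 := by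
  have key : ∀ j : ℕ, ∃ Z : R, (3 : ℤ) • X = ((3 : ℤ) ^ (j + 1)) • Z := by
    intro j
    induction j with
    | zero => exact ⟨X, by simp⟩
    | succ j ih =>
      obtain ⟨Z, hZ⟩ := ih
      rw [hZ] at h ⊢
      by_cases hp3 : p = 3
      · subst hp3
        -- (1 + Y)^3 = 1
        have e1 : ((3 : ℤ) ^ (j + 2)) • (Z + (3 : ℤ) ^ (j + 1) • (Z * Z)
            + (3 : ℤ) ^ (2 * j + 1) • (Z * Z * Z)) = 0 := by
          have e2 : (1 + ((3 : ℤ) ^ (j + 1)) • Z) ^ 3 - 1 =
              ((3 : ℤ) ^ (j + 2)) • (Z + (3 : ℤ) ^ (j + 1) • (Z * Z)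
            + (3 : ℤ) ^ (2 * j + 1) • (Z * Z * Z)) := by
            have e3 : (1 + ((3 : ℤ) ^ (j + 1)) • Z) ^ 3 = 1 + (3 : ℤ) • (((3 : ℤ) ^ (j + 1)) • Z)
              + (3 : ℤ) • ((((3 : ℤ) ^ (j + 1)) • Z) * (((3 : ℤ) ^ (j + 1)) • Z))
              + (((3 : ℤ) ^ (j + 1)) • Z) * (((3 : ℤ) ^ (j + 1)) • Z)
                * (((3 : ℤ) ^ (j + 1)) • Z) := by
              generalize ((3 : ℤ) ^ (j + 1)) • Z = Y
              noncomm_ring
            rw [e3]
            simp only [smul_add, smul_mul_assoc, mul_smul_comm, smul_smul]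
            have f1 : (3 : ℤ) * 3 ^ (j + 1) = 3 ^ (j + 2) := by ring
            have f2 : (3 : ℤ) * (3 ^ (j + 1) * 3 ^ (j + 1)) = 3 ^ (j + 2) * 3 ^ (j + 1) := by ring
            have f3 : (3 : ℤ) ^ (j + 1) * 3 ^ (j + 1) * 3 ^ (j + 1) =
              3 ^ (j + 2) * 3 ^ (2 * j + 1) := by ring
            have f3' : (3 : ℤ) ^ (j + 1) * (3 ^ (j + 1) * 3 ^ (j + 1)) =
              3 ^ (j + 2) * 3 ^ (2 * j + 1) := by ring
            simp only [f1, f2, f3, f3']
            abel
          rw [← e2, h, sub_self]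
        have e4 := cancel_three_pow h3 _ _ e1
        have e5 : Z = (3 : ℤ) • (-((3 : ℤ) ^ j • (Z * Z)) - (3 : ℤ) ^ (2 * j) • (Z * Z * Z)) := by
          have : Z = -((3 : ℤ) ^ (j + 1) • (Z * Z)) - (3 : ℤ) ^ (2 * j + 1) • (Z * Z * Z) := by
            have h6 : Z = (Z + (3 : ℤ) ^ (j + 1) • (Z * Z) + (3 : ℤ) ^ (2 * j + 1) • (Z * Z * Z))
              - ((3 : ℤ) ^ (j + 1) • (Z * Z)) - (3 : ℤ) ^ (2 * j + 1) • (Z * Z * Z) := by abel
            rw [e4] at h6
            rw [zero_sub] at h6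
            exact h6
          conv_lhs => rw [this]
          rw [smul_sub, smul_neg, smul_smul, smul_smul]
          congr 2
          · congr 1; ring
          · ring
        refine ⟨(-((3 : ℤ) ^ j • (Z * Z)) - (3 : ℤ) ^ (2 * j) • (Z * Z * Z)), ?_⟩
        conv_lhs => rw [e5]
        rw [smul_smul]
        congr 1
      · -- p ≠ 3
        obtain ⟨U, hU⟩ := exists_one_add_pow (((3 : ℤ) ^ (j + 1)) • Z) p
        rw [hU] at h
        have e1 : ((3 : ℤ) ^ (j + 1)) • ((p : ℤ) • Z + ((3 : ℤ) ^ (j + 1)) • (Z * Z * U)) = 0 := by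
          have : (p : ℤ) • ((3 : ℤ) ^ (j + 1)) • Z + ((3 : ℤ) ^ (j + 1)) • Z *
              ((3 : ℤ) ^ (j + 1)) • Z * U = 0 := by
            have h7 : 1 + ((p : ℤ) • ((3 : ℤ) ^ (j + 1)) • Z + ((3 : ℤ) ^ (j + 1)) • Z *
              ((3 : ℤ) ^ (j + 1)) • Z * U) = 1 + 0 := by
              rw [add_zero, ← add_assoc]; exact h
            exact add_left_cancel h7
          rw [← this]
          simp only [smul_add, smul_mul_assoc, mul_smul_comm, smul_smul]
          congr 2
          · ring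
        have e2 := cancel_three_pow h3 _ _ e1
        have e3 : (p : ℤ) • Z = -(((3 : ℤ) ^ (j + 1)) • (Z * Z * U)) := eq_neg_of_add_eq_zero_left e2
        have hcop : IsCoprime (p : ℤ) (3 : ℤ) := by
          rw [Int.isCoprime_iff_gcd_eq_one]
          have := (Nat.coprime_primes hp Nat.prime_three).2 hp3
          simpa [Int.gcd] using this
        obtain ⟨a, b, hab⟩ := hcop
        refine ⟨a • (-(((3 : ℤ) ^ j) • (Z * Z * U))) + b • Z, ?_⟩
        have e4 : Z = (3 : ℤ) • (a • (-(((3 : ℤ) ^ j) • (Z * Z * U))) + b • Z) := by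
          calc Z = (a * (p : ℤ) + b * 3) • Z := by rw [hab, one_smul]
            _ = a • ((p : ℤ) • Z) + (b * 3) • Z := by rw [add_smul, mul_smul]
            _ = _ := by
              rw [e3, smul_add, smul_neg, smul_neg, smul_neg, smul_smul, smul_smul, smul_smul,
                smul_smul]
              congr 2
              · congr 1; ring
              · ring
        conv_lhs => rw [e4]
        rw [smul_smul]
        congr 1
  apply hsep
  intro j
  obtain ⟨Z, hZ⟩ := key j
  exact ⟨(3 : ℤ) • Z, by rw [hZ, smul_smul]; congr 1⟩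

include h3 hsep in
/-- An element of finite order congruent to `1` modulo `3` is `1`. -/
theorem minkowski (k : ℕ) (hk : 0 < k) : ∀ X : R, (1 + (3 : ℤ) • X) ^ k = 1 →
    1 + (3 : ℤ) • X = 1 := by
  induction k using Nat.strong_induction_on with
  | _ k IH =>
  intro X hX
  by_cases hk1 : k = 1
  · subst hk1; simpa using hX
  · set p := k.minFac with hp
    have hpp : p.Prime := Nat.minFac_prime hk1
    obtain ⟨k', hk'⟩ : p ∣ k := Nat.minFac_dvd k
    obtain ⟨Z, hZ⟩ := exists_one_add_three_pow X k'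
    have h1 : (1 + (3 : ℤ) • Z) ^ p = 1 := by
      rw [← hZ, ← pow_mul, mul_comm, ← hk']; exact hX
    have h2 := minkowski_prime h3 hsep hpp Z h1
    rw [h2, add_zero] at hZ
    have hk'0 : 0 < k' := by
      rcases Nat.eq_zero_or_pos k' with h | h
      · rw [h, mul_zero] at hk'; omega
      · exact h
    have hk'lt : k' < k := by
      conv_rhs => rw [hk']
      have := hpp.two_le
      nlinarith
    exact IH k' hk'lt hk'0 X hZ

end Minkowski

/-! ### The lattice -/

variable {B : Type*} [Fintype B] [DecidableEq B] (M : CoxeterMatrix B)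

/-- The ring generated by the numbers `2 cos (π / m)`. -/
noncomputable def ringA : Subalgebra ℤ ℝ :=
  Algebra.adjoin ℤ (Set.range fun p : B × B => 2 * Real.cos (Real.pi / (M p.1 p.2 : ℝ)))

lemma ringA_fg : (Subalgebra.toSubmodule (ringA M)).FG := by
  apply fg_adjoin_of_finite (Set.finite_range _)
  rintro _ ⟨⟨i, j⟩, rfl⟩
  have h := Real.isIntegral_two_mul_cos_rat_mul_pi (1 / (M i j : ℚ))
  have e : (((1 / (M i j : ℚ) : ℚ)) : ℝ) * Real.pi = Real.pi / (M i j : ℝ) := by
    push_cast; ring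
  rw [e] at h
  exact h

lemma two_cos_mem (i j : B) : 2 * Real.cos (Real.pi / (M i j : ℝ)) ∈ ringA M :=
  Algebra.subset_adjoin ⟨(i, j), rfl⟩

/-- The lattice of vectors with coordinates in `ringA`. -/
noncomputable def lat : Submodule ℤ (B → ℝ) :=
  Submodule.pi Set.univ (fun _ => Subalgebra.toSubmodule (ringA M))

lemma mem_lat {v : B → ℝ} : v ∈ lat M ↔ ∀ i, v i ∈ ringA M := by
  simp [lat, Submodule.mem_pi]

lemma lat_fg : (lat M).FG := Submodule.fg_pi fun _ => ringA_fg M

lemma sroot_mem (i : B) : sroot i ∈ lat M := by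
  rw [mem_lat]
  intro j
  by_cases h : j = i
  · subst h; simpa using (ringA M).one_mem
  · rw [sroot, Pi.single_eq_of_ne h]; exact (ringA M).zero_mem

lemma smul_mem_lat {a : ℝ} (ha : a ∈ ringA M) {v : B → ℝ} (hv : v ∈ lat M) : a • v ∈ lat M := by
  rw [mem_lat] at hv ⊢
  intro i
  exact (ringA M).mul_mem ha (hv i)

lemma two_bf_mem {u v : B → ℝ} (hu : u ∈ lat M) (hv : v ∈ lat M) : 2 * bf M u v ∈ ringA M := by
  rw [mem_lat] at hu hv
  have h : 2 * bf M u v = ∑ i, ∑ j, u i * (-(2 * Real.cos (Real.pi / (M i j : ℝ)))) * v j := by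
    simp only [bf, Matrix.toBilin'_apply, cmat, Matrix.of_apply, Finset.mul_sum]
    refine Finset.sum_congr rfl fun i _ => Finset.sum_congr rfl fun j _ => ?_
    ring
  rw [h]
  refine (ringA M).sum_mem fun i _ => (ringA M).sum_mem fun j _ => ?_
  exact (ringA M).mul_mem ((ringA M).mul_mem (hu i) ((ringA M).neg_mem (two_cos_mem M i j))) (hv j)

lemma rf_mem {a v : B → ℝ} (ha : a ∈ lat M) (hv : v ∈ lat M) : rf M a v ∈ lat M := by
  rw [rf_apply]
  exact (lat M).sub_mem hv (smul_mem_lat M (two_bf_mem M ha hv) ha)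

variable {M} {W : Type*} [Group W] {cs : CoxeterSystem M W}

lemma geo_mem_lat (w : W) {v : B → ℝ} (hv : v ∈ lat M) : geo cs w v ∈ lat M := by
  induction w using cs.simple_induction_left with
  | one => simpa using hv
  | mul_simple_left w i ih =>
    rw [geo_mul, geo_simple]
    exact rf_mem M (sroot_mem M i) ih

lemma IsRoot.mem_lat {γ : B → ℝ} (h : IsRoot cs γ) : γ ∈ lat M := by
  obtain ⟨w, i, rfl⟩ := h
  exact geo_mem_lat w (sroot_mem M i)

lemma lat_sep (v : lat M) (h : ∀ j : ℕ, ∃ y : lat M, v = ((3 : ℤ) ^ j) • y) : v = 0 := by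
  have : Module.Finite ℤ (lat M) := Module.Finite.of_fg (lat_fg M)
  have : Module.Free ℤ (lat M) := inferInstance
  set b := Module.Free.chooseBasis ℤ (lat M)
  apply b.repr.injective
  rw [map_zero]
  ext i
  simp only [Finsupp.coe_zero, Pi.zero_apply]
  by_contra hne
  obtain ⟨n, hn⟩ : ∃ n : ℕ, (b.repr v i).natAbs < 3 ^ n :=
    pow_unbounded_of_one_lt _ (by norm_num)
  obtain ⟨y, hy⟩ := h n
  have h1 : b.repr v i = 3 ^ n * b.repr y i := by
    rw [hy, map_smul]; simp
  have h2 : ((3 : ℤ) ^ n) ∣ b.repr v i := ⟨_, h1⟩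
  have h3 := Int.natAbs_dvd_natAbs.2 h2
  have h4 := Nat.le_of_dvd (Int.natAbs_pos.2 hne) h3
  rw [Int.natAbs_pow] at h4
  simp at h4
  omega

/-- Two crossing roots are not congruent modulo `3`. -/
theorem not_congr {γ γ' : B → ℝ} (hγ : IsRoot cs γ) (hγ' : IsRoot cs γ')
    (hB : |bf M γ γ'| < 1) (l : B → ℝ) (hl : l ∈ lat M) (h : γ' = γ - (3 : ℝ) • l) : False := by
  classical
  obtain ⟨k, hk, hpow⟩ := finite_order hγ hγ' hB
  set u := rf M γ * rf M γ' with hu
  have hγm := hγ.mem_lat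
  have hγm' := hγ'.mem_lat
  -- u v - v ∈ 3 Λ
  have hcong : ∀ v ∈ lat M, ∃ μ ∈ lat M, u v - v = (3 : ℝ) • μ := by
    intro v hv
    refine ⟨rf M γ ((2 * bf M γ v) • l + (2 * bf M l v) • γ'),
      rf_mem M hγm ((lat M).add_mem (smul_mem_lat M (two_bf_mem M hγm hv) hl)
        (smul_mem_lat M (two_bf_mem M hl hv) hγm')), ?_⟩
    have h1 : rf M γ' v = rf M γ v + (3 : ℝ) • ((2 * bf M γ v) • l + (2 * bf M l v) • γ') := by
      rw [rf_apply, rf_apply]
      have h2 : bf M γ' v = bf M γ v - 3 * bf M l v := by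
        rw [h, map_sub, map_smul]; simp
      have h3 : γ = γ' + (3 : ℝ) • l := by rw [h]; module
      rw [h2]
      have key : ∀ b c : ℝ, v - (2 * (b - 3 * c)) • γ' =
          v - (2 * b) • γ + (3 : ℝ) • ((2 * b) • l + (2 * c) • γ') := by
        intro b c
        rw [h3]; module
      exact key _ _
    rw [hu, Module.End.mul_apply, h1, map_add, rf_rf M hγ.norm, map_smul]
    module
  -- the divided difference
  let f : Module.End ℝ (B → ℝ) := (3 : ℝ)⁻¹ • (u - 1)
  have hf : ∀ v ∈ lat M, (f.restrictScalars ℤ) v ∈ lat M := by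
    intro v hv
    obtain ⟨μ, hμ, he⟩ := hcong v hv
    have : (f.restrictScalars ℤ) v = μ := by
      change (3 : ℝ)⁻¹ • (u v - v) = μ
      rw [he, smul_smul]; norm_num
    rw [this]; exact hμ
  let X : Module.End ℤ (lat M) := (f.restrictScalars ℤ).restrict hf
  have hX : ∀ v : lat M, (((1 + (3 : ℤ) • X) v : lat M) : B → ℝ) = u v := by
    intro v
    have h1 : (((1 + (3 : ℤ) • X) v : lat M) : B → ℝ) = (v : B → ℝ) + (3 : ℤ) • ((X v : lat M) : B → ℝ) := by
      simp
    have h2 : ((X v : lat M) : B → ℝ) = (3 : ℝ)⁻¹ • (u v - v) := rfl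
    rw [h1, h2]
    have h3 : (3 : ℤ) • ((3 : ℝ)⁻¹ • (u (v : B → ℝ) - v)) = u v - v := by
      rw [← Int.cast_smul_eq_zsmul ℝ, smul_smul]; norm_num
    rw [h3]; abel
  have hXpow : (1 + (3 : ℤ) • X) ^ k = 1 := by
    have hn : ∀ (n : ℕ) (v : lat M), ((((1 + (3 : ℤ) • X) ^ n) v : lat M) : B → ℝ) = (u ^ n) v := by
      intro n
      induction n with
      | zero => intro v; simp
      | succ n ih =>
        intro v
        rw [pow_succ', Module.End.mul_apply, hX, ih]
        have : u ^ (n + 1) = u * u ^ n := pow_succ' u n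
        rw [this]
        rfl
    refine LinearMap.ext fun v => Subtype.ext ?_
    rw [hn, hpow]; simp
  have hone := minkowski (R := Module.End ℤ (lat M))
    (fun x hx => LinearMap.ext fun v => by
      have h1 := congrArg (fun g : Module.End ℤ (lat M) => g v) hx
      have h2 : (3 : ℤ) • x v = 0 := h1
      have h4 : (x v : lat M) = 0 := by
        have h5 : (3 : ℤ) • ((x v : lat M) : B → ℝ) = 0 := by
          have := congrArg (fun z : lat M => (z : B → ℝ)) h2
          simpa using this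
        apply Subtype.ext
        rw [← Int.cast_smul_eq_zsmul ℝ] at h5
        have := (smul_eq_zero.1 h5).resolve_left (by norm_num)
        simpa using this
      simpa using h4)
    (fun x hx => LinearMap.ext fun v => by
      have : x v = 0 := by
        apply lat_sep
        intro j
        obtain ⟨y, hy⟩ := hx j
        exact ⟨y v, by rw [hy]; rfl⟩
      simpa using this) k hk X hXpow
  have hfix : u γ = γ := by
    have h1 := hX ⟨γ, hγm⟩
    rw [hone] at h1
    simpa using h1.symm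
  -- u γ = γ forces rf γ' γ = - γ
  have h5 : rf M γ' γ = -γ := by
    have h6 := congrArg (rf M γ) hfix
    rw [hu, Module.End.mul_apply, rf_rf M hγ.norm, rf_self M hγ.norm] at h6
    exact h6
  rw [rf_apply] at h5
  have h7 : γ = (bf M γ' γ) • γ' := by
    have : (2 : ℝ) • γ = (2 : ℝ) • ((bf M γ' γ) • γ') := by
      have h8 : (2 : ℝ) • γ - (2 * bf M γ' γ) • γ' = 0 := by
        have h9 : (2 : ℝ) • γ - (2 * bf M γ' γ) • γ' = (γ - (2 * bf M γ' γ) • γ') + γ := by module
        rw [h9, h5]; simp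
      rw [smul_smul]
      exact sub_eq_zero.1 h8
    exact smul_right_injective _ (by norm_num : (2 : ℝ) ≠ 0) this
  have h8 : bf M γ γ = bf M γ' γ * bf M γ' γ := by
    conv_lhs => rw [h7]
    simp only [map_smul, LinearMap.smul_apply, smul_eq_mul, hγ'.norm]
    ring
  rw [hγ.norm, bf_symm M γ' γ] at h8
  rw [abs_lt] at hB
  nlinarith

/-- Crossing families of roots have bounded cardinality. -/
theorem crossing_card (cs : CoxeterSystem M W) : ∃ C : ℕ, ∀ K : Finset (B → ℝ),
    (∀ γ ∈ K, IsRoot cs γ) → Crossing M K → K.card ≤ C := by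
  classical
  -- 3 Λ
  let L3 : Submodule ℤ (B → ℝ) := (lat M).map ((3 : ℤ) • LinearMap.id)
  let q : (B → ℝ) →ₗ[ℤ] ((B → ℝ) ⧸ L3) := L3.mkQ
  let I : Submodule ℤ ((B → ℝ) ⧸ L3) := (lat M).map q
  have hIfg : I.FG := (lat_fg M).map q
  have : Module.Finite ℤ I := Module.Finite.of_fg hIfg
  have htor : Module.IsTorsion ℤ I := by
    rintro ⟨x, hx⟩
    obtain ⟨v, hv, rfl⟩ := Submodule.mem_map.1 hx
    refine ⟨⟨3, by simp⟩, ?_⟩
    apply Subtype.ext
    change (3 : ℤ) • q v = 0
    rw [← map_smul]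
    exact (Submodule.Quotient.mk_eq_zero L3).2 ⟨v, hv, rfl⟩
  have : Finite I := Module.finite_of_fg_torsion I htor
  have hIfin : (I : Set ((B → ℝ) ⧸ L3)).Finite := Set.toFinite _
  refine ⟨hIfin.toFinset.card, ?_⟩
  intro K hK hc
  apply Finset.card_le_card_of_injOn (fun γ => q γ)
  · intro γ hγ
    rw [Finset.mem_coe, Set.Finite.mem_toFinset]
    exact Submodule.mem_map_of_mem (hK γ hγ).mem_lat
  · intro γ hγ γ' hγ' he
    by_contra hne
    have h1 : γ - γ' ∈ L3 := (Submodule.Quotient.eq L3).1 he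
    obtain ⟨l, hl, hl'⟩ := h1
    refine not_congr (hK γ hγ) (hK γ' hγ') (hc γ hγ γ' hγ' hne) l hl ?_
    have h2 : (3 : ℝ) • l = γ - γ' := by
      rw [← hl']
      change (3 : ℝ) • l = (3 : ℤ) • l
      rw [← Int.cast_smul_eq_zsmul ℝ]; norm_num
    rw [h2]; abel

end CoxBound
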