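import Pool.Agent.Lib.MP_0d46c2_al.Resid

set_option autoImplicit false
set_option linter.unusedSectionVars false

/-!
# Cone types of irreducible elements
-/

namespace CoxBound

open CoxeterSystem

variable {B : Type*} [Fintype B] [DecidableEq B] {M : CoxeterMatrix B}
variable {W : Type*} [Group W] {cs : CoxeterSystem M W}

variable (cs) in
/-- `g` has no left descent in `I`. -/
def MinL (I : Set B) (g : W) : Prop := ∀ i ∈ I, cs.length g < cs.length (cs.simple i * g)

lemma MinL.of_mul {I : Set B} {a b : W} (h : MinL cs I (a * b))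
    (hab : cs.length (a * b) = cs.length a + cs.length b) : MinL cs I a := by
  intro i hi
  have h1 := h i hi
  have h2 := cs.length_mul_le (cs.simple i * a) b
  rw [mul_assoc] at h2
  have h3 := cs.length_simple_mul_ne a i
  omega

/-- The shortest valid element of a rank two residue. -/
lemma exists_shortest {p : List (B × Bool)} {v u : W} {K : Set B} (hu : u ∈ par cs K)
    (hval : Valid cs p (v * u)) : ∃ k ∈ par cs K, Valid cs p (v * k) ∧
      ∀ x ∈ par cs K, Valid cs p (v * x) → cs.length k ≤ cs.length x := by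
  classical
  have hex : ∃ n, ∃ k ∈ par cs K, Valid cs p (v * k) ∧ cs.length k = n := ⟨_, u, hu, hval, rfl⟩
  obtain ⟨k, hk, hk1, hk2⟩ := Nat.find_spec hex
  refine ⟨k, hk, hk1, fun x hx hx1 => ?_⟩
  rw [hk2]
  exact Nat.find_min' hex ⟨x, hx, hx1, rfl⟩

/-- In a rank two residue the shortest valid element is `1`, a letter, or the longest element. -/
lemma shortest_cases {L : W → ℕ} (hL : IsWeight cs L) {p : List (B × Bool)} {P v u : W}
    {r t : B} (h : Opt cs L p P) (hK : DescR cs {r, t} P) (hv : MinR cs {r, t} v)
    (hu : u ∈ par cs {r, t}) (he : P = v * u) {k : W} (hk : k ∈ par cs {r, t})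
    (hval : Valid cs p (v * k))
    (hmin : ∀ x ∈ par cs {r, t}, Valid cs p (v * x) → cs.length k ≤ cs.length x) :
    k = 1 ∨ (∃ j ∈ ({r, t} : Set B), k = cs.simple j) ∨ k = u := by
  have hu' := longest_of hK hv hu he
  have hJk := (residue hL h hK hv hu he hk).1 hval
  by_cases hr : r ∈ Jint cs p v {r, t} <;> by_cases ht : t ∈ Jint cs p v {r, t}
  · right; right
    have h1 : DescR cs {r, t} k⁻¹ := by
      intro j hj
      have h2 : cs.length (cs.simple j * k) < cs.length k := by
        rcases hj with hj | hj
        · rw [hj]; exact hJk r hr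
        · rw [Set.mem_singleton_iff] at hj; rw [hj]; exact hJk t ht
      rw [← cs.length_inv (k⁻¹ * cs.simple j), ← cs.length_inv k⁻¹, mul_inv_rev, inv_inv,
        cs.inv_simple]
      exact h2
    have h3 := h1.length_mul hu
    rw [cs.length_inv] at h3
    exact hu'.eq hk (by omega)
  · right; left
    refine ⟨r, by simp, ?_⟩
    have h1 : Valid cs p (v * cs.simple r) := by
      refine (residue hL h hK hv hu he (simple_mem (by simp))).2 fun j hj => ?_
      rcases hj.1 with hj' | hj'
      · rw [hj', cs.simple_mul_simple_self, cs.length_one, cs.length_simple]; omega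
      · rw [Set.mem_singleton_iff] at hj'
        rw [hj'] at hj
        exact absurd hj ht
    have h2 := hmin _ (simple_mem (by simp)) h1
    have h3 := hJk r hr
    rw [cs.length_simple] at h2
    have h4 : cs.length (cs.simple r * k) = 0 := by omega
    have h5 := cs.length_eq_zero_iff.1 h4
    have h6 := eq_inv_of_mul_eq_one_right h5
    rw [h6, cs.inv_simple]
  · right; left
    refine ⟨t, by simp, ?_⟩
    have h1 : Valid cs p (v * cs.simple t) := by
      refine (residue hL h hK hv hu he (simple_mem (by simp))).2 fun j hj => ?_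
      rcases hj.1 with hj' | hj'
      · rw [hj'] at hj
        exact absurd hj hr
      · rw [Set.mem_singleton_iff] at hj'
        rw [hj', cs.simple_mul_simple_self, cs.length_one, cs.length_simple]; omega
    have h2 := hmin _ (simple_mem (by simp)) h1
    have h3 := hJk t ht
    rw [cs.length_simple] at h2
    have h4 : cs.length (cs.simple t * k) = 0 := by omega
    have h5 := cs.length_eq_zero_iff.1 h4
    have h6 := eq_inv_of_mul_eq_one_right h5
    rw [h6, cs.inv_simple]
  · left
    have h1 : Valid cs p (v * 1) := by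
      refine (residue hL h hK hv hu he (one_mem _)).2 fun j hj => ?_
      rcases hj.1 with hj' | hj'
      · rw [hj'] at hj
        exact absurd hj hr
      · rw [Set.mem_singleton_iff] at hj'
        rw [hj'] at hj
        exact absurd hj ht
    have h2 := hmin _ (one_mem _) h1
    rw [cs.length_one] at h2
    exact cs.length_eq_zero_iff.1 (by omega)

/-- The cone type of an irreducible element. -/
theorem cone_type {L : W → ℕ} (hL : IsWeight cs L) {p : List (B × Bool)} {A : W}
    (hA : Opt cs L p A) (hirr : ∀ s, D cs A s → ¬ Valid cs p (A * cs.simple s)) :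
    ∀ (n : ℕ) (g : W), cs.length g = n → MinL cs {s | D cs A s} g →
      cs.length (A * g) = cs.length A + cs.length g := by
  intro n
  induction n using Nat.strong_induction_on with
  | _ n IH =>
  intro g hg hgI
  by_cases hg1 : g = 1
  · rw [hg1]; simp
  obtain ⟨t, ht⟩ := cs.exists_rightDescent_of_ne_one hg1
  have ht' := cs.isRightDescent_iff.1 ht
  obtain ⟨g₁, hg₁⟩ : ∃ g₁, g₁ = g * cs.simple t := ⟨_, rfl⟩
  have hgg : g = g₁ * cs.simple t := by rw [hg₁, cs.simple_mul_simple_cancel_right]
  have hlg : cs.length g = cs.length g₁ + 1 := by rw [hg₁]; omega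
  have hg₁I : MinL cs {s | D cs A s} g₁ := by
    apply MinL.of_mul (b := cs.simple t)
    · rw [← hgg]; exact hgI
    · rw [← hgg, cs.length_simple]; exact hlg
  have ih1 := IH (cs.length g₁) (by omega) g₁ rfl hg₁I
  by_contra hcon
  -- `t` is a descent of `P = A g₁`
  obtain ⟨P, hP⟩ : ∃ P, P = A * g₁ := ⟨_, rfl⟩
  have hPt : D cs P t := by
    unfold D
    have h1 := cs.length_mul_simple P t
    have h2 : A * g = P * cs.simple t := by rw [hP, hgg, mul_assoc]
    rw [h2, hlg] at hcon
    rw [← hP] at ih1
    omega
  have hAP : Pre cs A P := by rw [hP]; exact Pre.of_mul ih1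
  have hOP := hA.pre hL hAP
  by_cases hg₁1 : g₁ = 1
  · -- `g = t`
    rw [hg₁1, mul_one] at hP
    rw [hP] at hPt
    have h1 := hgI t hPt
    rw [hgg, hg₁1, one_mul, cs.simple_mul_simple_self, cs.length_one] at h1
    omega
  obtain ⟨r, hr⟩ := cs.exists_rightDescent_of_ne_one hg₁1
  have hr' := cs.isRightDescent_iff.1 hr
  have hPr : D cs P r := by
    unfold D
    have h1 := cs.length_mul_le A (g₁ * cs.simple r)
    rw [← mul_assoc, ← hP] at h1
    rw [← hP] at ih1
    omega
  have hK : DescR cs {r, t} P := by
    rintro j (hj | hj)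
    · rw [hj]; exact hPr
    · rw [Set.mem_singleton_iff] at hj; rw [hj]; exact hPt
  obtain ⟨v, u, hv, hu, hvu⟩ := exists_minR (cs := cs) {r, t} P
  have hu' := longest_of hK hv hu hvu
  obtain ⟨g', k, hg', hk, hgk⟩ := exists_minR (cs := cs) {r, t} g₁
  have hlg₁ : cs.length g₁ = cs.length g' + cs.length k := by rw [hgk]; exact hg'.length_mul hk
  obtain ⟨kQ, hkQ, hvalQ, hminQ⟩ := exists_shortest (p := p) (v := v) hu
    (by rw [← hvu]; exact hOP.1)
  obtain ⟨Q, hQ⟩ : ∃ Q, Q = v * kQ := ⟨_, rfl⟩
  rw [← hQ] at hvalQ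
  -- Q is a prefix of P
  have hmem1 : u⁻¹ * kQ ∈ par cs {r, t} := (par cs _).mul_mem ((par cs _).inv_mem hu) hkQ
  have hQP' : Q = P * (u⁻¹ * kQ) := by rw [hQ, hvu]; group
  have hQP : Pre cs Q P := by
    unfold Pre
    have h1 := hK.length_mul hmem1
    rw [← hQP'] at h1
    have h2 : Q⁻¹ * P = (u⁻¹ * kQ)⁻¹ := by rw [hQP']; group
    rw [h2, cs.length_inv]
    exact h1
  have hAQ := newman hL hA hirr _ P rfl hAP Q hvalQ hQP
  -- A g' is valid
  have hAg' : cs.length (A * g') = cs.length A + cs.length g' := by
    have h1 := cs.length_mul_le (A * g') k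
    have h2 := cs.length_mul_le A g'
    rw [mul_assoc, ← hgk] at h1
    omega
  have hOg' : Opt cs L p (A * g') := hA.pre hL (Pre.of_mul hAg')
  have hAg'v : A * g' = v * (u * k⁻¹) := by
    have h1 : A * g' * k = P := by rw [mul_assoc, ← hgk, hP]
    rw [← mul_assoc, ← hvu, ← h1]; group
  have hmem2 : u * k⁻¹ ∈ par cs {r, t} := (par cs _).mul_mem hu ((par cs _).inv_mem hk)
  have hlen1 := hminQ _ hmem2 (by rw [← hAg'v]; exact hOg'.1)
  have hlQ : cs.length Q = cs.length v + cs.length kQ := by rw [hQ]; exact hv.length_mul hkQ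
  have hlAg' : cs.length (A * g') = cs.length v + cs.length (u * k⁻¹) := by
    rw [hAg'v]; exact hv.length_mul hmem2
  -- kQ = u k⁻¹
  have hkQe : kQ = u * k⁻¹ := by
    have h1 : A⁻¹ * Q = g' * (k * (u⁻¹ * kQ)) := by
      rw [hQP', hP, hgk]; group
    have h2 : cs.length (A⁻¹ * Q) = cs.length g' + cs.length (k * (u⁻¹ * kQ)) := by
      rw [h1]; exact hg'.length_mul ((par cs _).mul_mem hk hmem1)
    unfold Pre at hAQ
    have h3 : cs.length (k * (u⁻¹ * kQ)) = 0 := by omega
    have h4 := cs.length_eq_zero_iff.1 h3
    have h5 : kQ = u * k⁻¹ * (k * (u⁻¹ * kQ)) := by group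
    rw [h4, mul_one] at h5
    exact h5
  have hk1 : k ≠ 1 := by
    rintro rfl
    rw [mul_one] at hgk
    have := hg' r (by simp)
    rw [← hgk] at this
    omega
  have hku : k = kQ⁻¹ * u := by rw [hkQe]; group
  rcases shortest_cases hL hOP hK hv hu hvu hkQ (by rw [← hQ]; exact hvalQ) hminQ with
    h1 | ⟨j, hj, h1⟩ | h1
  · -- k = u
    rw [h1, inv_one, one_mul] at hku
    have h2 : cs.length (g₁ * cs.simple t) = cs.length g' + cs.length (u * cs.simple t) := by
      rw [hgk, hku, mul_assoc]
      exact hg'.length_mul ((par cs _).mul_mem hu (simple_mem (by simp)))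
    have h3 := hu'.2 (cs.simple t) (simple_mem (by simp))
    rw [← hgg] at h2
    rw [cs.length_simple] at h3
    rw [hku] at hlg₁
    omega
  · -- k = s_j u
    rw [h1, cs.inv_simple] at hku
    have hlk : cs.length k + 1 = cs.length u := by
      have h2 := hu'.left (simple_mem (cs := cs) hj)
      rw [cs.length_simple] at h2
      rw [hku]; exact h2
    have hlg'j : cs.length (g' * cs.simple j) = cs.length g' + 1 := by
      rw [hg'.length_mul (simple_mem hj), cs.length_simple]
    have hk0 : cs.length k ≠ 0 := fun h => hk1 (cs.length_eq_zero_iff.1 h)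
    have hlAg'j : cs.length (A * g' * cs.simple j) < cs.length (A * g') := by
      have h2 : A * g' * cs.simple j = v := by
        rw [hAg'v, ← hkQe, h1, cs.simple_mul_simple_cancel_right]
      rw [h2, hlAg', ← hkQe, h1, cs.length_simple]
      omega
    have hnot : ¬ MinL cs {s | D cs A s} (g' * cs.simple j) := by
      intro hm
      have h2 := IH (cs.length (g' * cs.simple j)) (by omega) _ rfl hm
      rw [← mul_assoc] at h2
      omega
    unfold MinL at hnot
    push Not at hnot
    obtain ⟨i, hi, hi2⟩ := hnot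
    have hg'I : MinL cs {s | D cs A s} g' := by
      apply MinL.of_mul (b := k)
      · rw [← hgk]; exact hg₁I
      · rw [← hgk]; exact hlg₁
    have h3 := hg'I i hi
    have h4 := hg' j hj
    have h5 := cs.length_simple_mul_ne (g' * cs.simple j) i
    have h6 := cs.length_simple_mul g' i
    have h7 : cs.simple i * g' = g' * cs.simple j := by
      refine exch h3 h4 ?_
      rw [mul_assoc]
      omega
    -- g = g' u = s_i g₁
    have h8 : cs.simple i * g₁ = g' * u := by
      rw [hgk, hku, ← mul_assoc, h7, mul_assoc, ← mul_assoc (cs.simple j),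
        cs.simple_mul_simple_self, one_mul]
    have hmem3 : cs.simple j * u * cs.simple t ∈ par cs {r, t} :=
      (par cs _).mul_mem ((par cs _).mul_mem (simple_mem hj) hu) (simple_mem (by simp))
    have h9 : g = g' * (cs.simple j * u * cs.simple t) := by
      rw [hgg, hgk, hku]; group
    have h10 : cs.length g = cs.length g' + cs.length (cs.simple j * u * cs.simple t) := by
      conv_lhs => rw [h9]
      exact hg'.length_mul hmem3
    have h11 := hu'.eq hmem3 (by omega)
    have h12 : cs.simple i * g = g₁ := by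
      rw [h9, h11, ← h8, cs.simple_mul_simple_cancel_left]
    have h13 := hgI i hi
    rw [h12] at h13
    omega
  · -- k = 1
    rw [h1, inv_mul_cancel] at hku
    exact hk1 hku

/-- Transfer of reducedness along an optimal pattern. -/
theorem Opt.cone_transfer {L : W → ℕ} (hL : IsWeight cs L) {p : List (B × Bool)} {x : W}
    (h : Opt cs L p x) : ∀ (n : ℕ) (g : W), cs.length g = n →
      cs.length (x * g) = cs.length x + cs.length g →
      cs.length (pw cs p * x * g) = cs.length (pw cs p * x) + cs.length g := by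
  intro n
  induction n with
  | zero =>
    intro g hg _
    rw [cs.length_eq_zero_iff.1 hg]; simp
  | succ n ih =>
    intro g hg hxg
    have hg1 : g ≠ 1 := by rintro rfl; simp at hg
    obtain ⟨t, ht⟩ := cs.exists_rightDescent_of_ne_one hg1
    have ht' := cs.isRightDescent_iff.1 ht
    obtain ⟨g₁, hg₁⟩ : ∃ g₁, g₁ = g * cs.simple t := ⟨_, rfl⟩
    have hgg : g = g₁ * cs.simple t := by rw [hg₁, cs.simple_mul_simple_cancel_right]
    rw [← hg₁] at ht'
    have h1 : cs.length (x * g₁) = cs.length x + cs.length g₁ := by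
      have h2 := cs.length_mul_le x g₁
      have h3 := cs.length_mul_simple (x * g₁) t
      rw [mul_assoc, ← hgg] at h3
      omega
    have h2 := ih g₁ (by omega) h1
    have hO := h.pre hL (Pre.of_mul h1)
    have h3 : ¬ D cs (x * g₁) t := by
      unfold D
      rw [mul_assoc, ← hgg]
      omega
    have h4 : ¬ D cs (pw cs p * (x * g₁)) t := fun h => h3 ((hO.status hL t (List.suffix_refl p)).1 h)
    rw [not_D] at h4
    have h5 := cs.length_mul_simple (pw cs p * (x * g₁)) t
    have h6 : pw cs p * x * g = pw cs p * (x * g₁) * cs.simple t := by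
      rw [hgg]; simp only [mul_assoc]
    rw [h6]
    rw [mul_assoc] at h2
    omega

end CoxBound
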