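import Pool.Agent.Lib.MP_0d46c2_al.Defs

set_option autoImplicit false
set_option linter.unusedSectionVars false

/-!
# Coxeter facts: exchange, parabolic cosets, descents
-/

namespace CoxBound

open CoxeterSystem

variable {B : Type*} [Fintype B] [DecidableEq B] {M : CoxeterMatrix B}
variable {W : Type*} [Group W] {cs : CoxeterSystem M W}

lemma isRoot_geo (w : W) (i : B) : IsRoot cs (geo cs w (sroot i)) := ⟨w, i, rfl⟩

lemma length_lt_mul_iff {w : W} {i : B} :
    cs.length w < cs.length (w * cs.simple i) ↔ 0 ≤ geo cs w (sroot i) := by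
  constructor
  · exact geo_sroot_nonneg' cs
  · intro h
    rcases lt_or_gt_of_ne (cs.length_mul_simple_ne w i) with h1 | h1
    · exact ((isRoot_geo w i).not_both h (geo_sroot_nonpos cs h1)).elim
    · exact h1

lemma mul_length_lt_iff {w : W} {i : B} :
    cs.length (w * cs.simple i) < cs.length w ↔ geo cs w (sroot i) ≤ 0 := by
  constructor
  · exact geo_sroot_nonpos cs
  · intro h
    rcases lt_or_gt_of_ne (cs.length_mul_simple_ne w i) with h1 | h1
    · exact h1
    · exact ((isRoot_geo w i).not_both (geo_sroot_nonneg' cs h1) h).elim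

/-- An element mapping `α_j` to `α_i` conjugates the simple reflections. -/
lemma simple_mul_of_geo {i j : B} {w : W} (h : geo cs w (sroot j) = sroot i) :
    cs.simple i * w = w * cs.simple j := by
  have h6 : w * cs.simple j * w⁻¹ = cs.simple i := by
    apply geo_injective (cs := cs)
    refine LinearMap.ext fun v => ?_
    rw [geo_refl, h, geo_simple]
  rw [← h6]; group

theorem exch {i j : B} {w : W} (h1 : cs.length w < cs.length (cs.simple i * w))
    (h2 : cs.length w < cs.length (w * cs.simple j))
    (h3 : cs.length (cs.simple i * w * cs.simple j) < cs.length (cs.simple i * w)) :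
    cs.simple i * w = w * cs.simple j := by
  have _ := h1
  have a2 := geo_sroot_nonneg' cs h2
  have a3 := geo_sroot_nonpos cs h3
  by_cases hne : geo cs w (sroot j) = sroot i
  · exact simple_mul_of_geo hne
  · exfalso
    have hr : IsRoot cs (geo cs w (sroot j)) := ⟨w, j, rfl⟩
    have a4 := hr.simple_nonneg a2 hne
    rw [geo_mul] at a3
    exact (hr.map (cs.simple i)).not_both a4 a3

/-- Coordinates outside `K` are not changed by the parabolic subgroup. -/
lemma geo_par_apply {K : Set B} {k : W} (hk : k ∈ par cs K) :
    ∀ (u : B → ℝ) (j : B), j ∉ K → geo cs k u j = u j := by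
  unfold par at hk
  induction hk using Subgroup.closure_induction with
  | mem x hx =>
    obtain ⟨r, hr, rfl⟩ := hx
    intro u j hj
    have hjr : j ≠ r := fun h => hj (h ▸ hr)
    rw [geo_simple_apply]
    simp [Pi.single_eq_of_ne hjr]
  | one => intro u j _; simp
  | mul x y _ _ ihx ihy =>
    intro u j hj
    rw [geo_mul, ihx _ _ hj, ihy _ _ hj]
  | inv x _ ih =>
    intro u j hj
    have := ih (geo cs x⁻¹ u) j hj
    rw [geo_apply_inv] at this
    exact this.symm

lemma geo_eq_sum (v : W) (γ : B → ℝ) : geo cs v γ = ∑ j, γ j • geo cs v (sroot j) := by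
  have h : γ = ∑ j, γ j • sroot j := by
    funext i
    simp [Finset.sum_apply, Pi.single_apply]
  conv_lhs => rw [h]
  rw [map_sum]
  exact Finset.sum_congr rfl fun j _ => by rw [map_smul]

lemma MinR.geo_nonneg {K : Set B} {v : W} (hv : MinR cs K v) {γ : B → ℝ} (h0 : 0 ≤ γ)
    (hs : ∀ j, j ∉ K → γ j = 0) : 0 ≤ geo cs v γ := by
  rw [geo_eq_sum]
  refine Finset.sum_nonneg fun j _ => ?_
  by_cases hj : j ∈ K
  · exact smul_nonneg (h0 j) (geo_sroot_nonneg' cs (hv j hj))
  · rw [hs j hj, zero_smul]

lemma DescR.geo_nonpos {K : Set B} {v : W} (hv : DescR cs K v) {γ : B → ℝ} (h0 : 0 ≤ γ)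
    (hs : ∀ j, j ∉ K → γ j = 0) : geo cs v γ ≤ 0 := by
  rw [geo_eq_sum]
  refine Finset.sum_nonpos fun j _ => ?_
  by_cases hj : j ∈ K
  · exact smul_nonpos_of_nonneg_of_nonpos (h0 j) (geo_sroot_nonpos cs (hv j hj))
  · rw [hs j hj, zero_smul]

lemma par_root_supp {K : Set B} {k : W} (hk : k ∈ par cs K) {r : B} (hr : r ∈ K) (j : B)
    (hj : j ∉ K) : geo cs k (sroot r) j = 0 := by
  rw [geo_par_apply hk _ _ hj]
  have : j ≠ r := fun h => hj (h ▸ hr)
  simp [Pi.single_eq_of_ne this]

theorem MinR.length_mul {K : Set B} {v k : W} (hv : MinR cs K v) (hk : k ∈ par cs K) :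
    cs.length (v * k) = cs.length v + cs.length k := by
  have key : ∀ (k : W), k ∈ par cs K → ∀ r ∈ K,
      cs.length (v * k) = cs.length v + cs.length k →
      cs.length (v * (k * cs.simple r)) = cs.length v + cs.length (k * cs.simple r) := by
    intro k hk r hr ih
    have hs := par_root_supp hk hr
    have hroot : IsRoot cs (geo cs k (sroot r)) := ⟨k, r, rfl⟩
    rw [← mul_assoc]
    rcases hroot.nonneg_or_nonpos with h | h
    · have h1 : cs.length k < cs.length (k * cs.simple r) := length_lt_mul_iff.2 h
      have h2 : cs.length (v * k) < cs.length (v * k * cs.simple r) := by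
        rw [length_lt_mul_iff, geo_mul]
        exact hv.geo_nonneg h hs
      rcases cs.length_mul_simple k r with h3 | h3 <;>
        rcases cs.length_mul_simple (v * k) r with h4 | h4 <;> omega
    · have h1 : cs.length (k * cs.simple r) < cs.length k := mul_length_lt_iff.2 h
      have h2 : cs.length (v * k * cs.simple r) < cs.length (v * k) := by
        rw [mul_length_lt_iff, geo_mul]
        have := hv.geo_nonneg (γ := -geo cs k (sroot r)) (neg_nonneg.2 h)
          (fun j hj => by simp [hs j hj])
        rw [map_neg] at this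
        exact neg_nonneg.1 this
      rcases cs.length_mul_simple k r with h3 | h3 <;>
        rcases cs.length_mul_simple (v * k) r with h4 | h4 <;> omega
  induction hk using Subgroup.closure_induction_right with
  | one => simp
  | mul_right x hx y hy ih =>
    obtain ⟨r, hr, rfl⟩ := hy
    exact key x hx r hr ih
  | mul_inv_cancel x hx y hy ih =>
    obtain ⟨r, hr, rfl⟩ := hy
    rw [cs.inv_simple]
    exact key x hx r hr ih

theorem exists_minR (K : Set B) (x : W) :
    ∃ v k : W, MinR cs K v ∧ k ∈ par cs K ∧ x = v * k := by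
  classical
  let P : ℕ → Prop := fun n => ∃ k ∈ par cs K, cs.length (x * k) = n
  have hP : ∃ n, P n := ⟨_, 1, one_mem _, rfl⟩
  obtain ⟨k, hk, hkn⟩ := Nat.find_spec hP
  refine ⟨x * k, k⁻¹, ?_, inv_mem hk, by group⟩
  intro r hr
  have h1 : Nat.find hP ≤ cs.length (x * (k * cs.simple r)) :=
    Nat.find_min' hP ⟨_, mul_mem hk (Subgroup.subset_closure ⟨r, hr, rfl⟩), rfl⟩
  have h2 := cs.length_mul_simple_ne (x * k) r
  rw [← mul_assoc] at h1
  omega

theorem MinR.simple_mul {K : Set B} {v : W} (hv : MinR cs K v) (i : B) :
    MinR cs K (cs.simple i * v) ∨ ∃ r ∈ K, cs.simple i * v = v * cs.simple r := by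
  by_cases h : MinR cs K (cs.simple i * v)
  · exact Or.inl h
  · right
    unfold MinR at h
    push Not at h
    obtain ⟨r, hr, h1⟩ := h
    refine ⟨r, hr, ?_⟩
    have h2 := cs.length_mul_simple_ne (cs.simple i * v) r
    have h3 : cs.length (cs.simple i * v * cs.simple r) < cs.length (cs.simple i * v) := by omega
    have h4 := hv r hr
    rcases cs.length_simple_mul v i with h5 | h5
    · exact exch (by omega) h4 h3
    · exfalso
      have h6 := cs.length_simple_mul (v * cs.simple r) i
      rw [← mul_assoc] at h6
      omega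

theorem DescR.length_mul {K : Set B} {x k : W} (hx : DescR cs K x) (hk : k ∈ par cs K) :
    cs.length (x * k) + cs.length k = cs.length x := by
  have key : ∀ (k : W), k ∈ par cs K → ∀ r ∈ K,
      cs.length (x * k) + cs.length k = cs.length x →
      cs.length (x * (k * cs.simple r)) + cs.length (k * cs.simple r) = cs.length x := by
    intro k hk r hr ih
    have hs := par_root_supp hk hr
    have hroot : IsRoot cs (geo cs k (sroot r)) := ⟨k, r, rfl⟩
    rw [← mul_assoc]
    rcases hroot.nonneg_or_nonpos with h | h
    · have h1 : cs.length k < cs.length (k * cs.simple r) := length_lt_mul_iff.2 h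
      have h2 : cs.length (x * k * cs.simple r) < cs.length (x * k) := by
        rw [mul_length_lt_iff, geo_mul]
        exact hx.geo_nonpos h hs
      rcases cs.length_mul_simple k r with h3 | h3 <;>
        rcases cs.length_mul_simple (x * k) r with h4 | h4 <;> omega
    · have h1 : cs.length (k * cs.simple r) < cs.length k := mul_length_lt_iff.2 h
      have h2 : cs.length (x * k) < cs.length (x * k * cs.simple r) := by
        rw [length_lt_mul_iff, geo_mul]
        have := hx.geo_nonpos (γ := -geo cs k (sroot r)) (neg_nonneg.2 h)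
          (fun j hj => by simp [hs j hj])
        rw [map_neg] at this
        exact neg_nonpos.1 this
      rcases cs.length_mul_simple k r with h3 | h3 <;>
        rcases cs.length_mul_simple (x * k) r with h4 | h4 <;> omega
  induction hk using Subgroup.closure_induction_right with
  | one => simp
  | mul_right y hy z hz ih =>
    obtain ⟨r, hr, rfl⟩ := hz
    exact key y hy r hr ih
  | mul_inv_cancel y hy z hz ih =>
    obtain ⟨r, hr, rfl⟩ := hz
    rw [cs.inv_simple]
    exact key y hy r hr ih

theorem simple_mem_par {K : Set B} {j : B} (h : cs.simple j ∈ par cs K) : j ∈ K := by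
  by_contra hj
  have := geo_par_apply h (sroot j) j hj
  rw [geo_simple_sroot] at this
  simp at this
  norm_num at this

theorem leftDesc_mem {K : Set B} {u : W} (hu : u ∈ par cs K) {r : B}
    (h : cs.length (cs.simple r * u) < cs.length u) : r ∈ K := by
  by_contra hr
  have h1 : cs.length (u⁻¹ * cs.simple r) < cs.length u⁻¹ := by
    have e : u⁻¹ * cs.simple r = (cs.simple r * u)⁻¹ := by rw [mul_inv_rev, cs.inv_simple]
    rw [e, cs.length_inv, cs.length_inv]
    exact h
  have h2 := geo_sroot_nonpos cs h1 r
  rw [geo_par_apply (inv_mem hu) _ _ hr] at h2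
  simp at h2
  norm_num at h2

theorem par_finite {K : Set B} {x : W} (hx : DescR cs K x) : (par cs K : Set W).Finite := by
  have h1 : {l : List B | l.length ≤ cs.length x}.Finite :=
    List.finite_length_le B (cs.length x)
  refine (h1.image cs.wordProd).subset ?_
  intro k hk
  obtain ⟨ω, hω, rfl⟩ := cs.exists_isReduced k
  refine ⟨ω, ?_, rfl⟩
  have h2 := hx.length_mul hk
  have h3 : cs.length (cs.wordProd ω) = ω.length := hω
  show ω.length ≤ cs.length x
  omega

end CoxBound
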