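import Pool.Agent.Lib.MP_0d46c2_al.Trans

set_option autoImplicit false
set_option linter.unusedSectionVars false

/-!
# Definitions for the exact bound: parabolic cosets, fold patterns, folded paths
-/

namespace CoxBound

open CoxeterSystem

variable {B : Type*} [Fintype B] [DecidableEq B] {M : CoxeterMatrix B}
variable {W : Type*} [Group W] (cs : CoxeterSystem M W)

/-- Standard parabolic subgroup. -/
def par (K : Set B) : Subgroup W := Subgroup.closure (cs.simple '' K)

/-- `v` has no right descent in `K`. -/
def MinR (K : Set B) (v : W) : Prop := ∀ r ∈ K, cs.length v < cs.length (v * cs.simple r)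

/-- All elements of `K` are right descents of `x`. -/
def DescR (K : Set B) (x : W) : Prop := ∀ r ∈ K, cs.length (x * cs.simple r) < cs.length x

/-- The element by which a pattern multiplies. -/
def pw : List (B × Bool) → W
  | [] => 1
  | (i, b) :: p => if b then pw p else cs.simple i * pw p

/-- The pattern `p` can be applied to `x`. -/
def Valid : List (B × Bool) → W → Prop
  | [], _ => True
  | (i, b) :: p, x => Valid p x ∧
      (b = true → cs.length (cs.simple i * (pw cs p * x)) < cs.length (pw cs p * x))

/-- Total weight of the folds of a pattern. -/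
def pwt (L : W → ℕ) : List (B × Bool) → ℕ
  | [] => 0
  | (i, b) :: p => (if b then L (cs.simple i) else 0) + pwt L p

/-- `p` is valid at `x` and has the largest weight among all valid patterns with its letters. -/
def Opt (L : W → ℕ) (p : List (B × Bool)) (x : W) : Prop :=
  Valid cs p x ∧ ∀ (p' : List (B × Bool)) (x' : W), p'.map Prod.fst = p.map Prod.fst →
    Valid cs p' x' → pwt cs L p' ≤ pwt cs L p

/-- Positive weight functions. -/
structure IsWeight (L : W → ℕ) : Prop where
  add : ∀ w w' : W, cs.length (w * w') = cs.length w + cs.length w' → L (w * w') = L w + L w'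
  pos : ∀ i : B, 0 < L (cs.simple i)

/-- Left paths: the last letter of `ω` is applied first, on the left. -/
inductive LPath (L : W → ℕ) : List B → W → W → ℕ → Prop
  | nil (x : W) : LPath L [] x x 0
  | move {i : B} {ω : List B} {x y : W} {n : ℕ} : LPath L ω x y n →
      LPath L (i :: ω) x (cs.simple i * y) n
  | fold {i : B} {ω : List B} {x y : W} {n : ℕ} : LPath L ω x y n →
      cs.length (cs.simple i * y) < cs.length y → LPath L (i :: ω) x y (L (cs.simple i) + n)

/-- Right paths: the first letter of `ω` is applied first, on the right. -/
inductive RPath (L : W → ℕ) : List B → W → W → ℕ → Prop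
  | nil (x : W) : RPath L [] x x 0
  | move {i : B} {ω : List B} {x y : W} {n : ℕ} : RPath L ω (x * cs.simple i) y n →
      RPath L (i :: ω) x y n
  | fold {i : B} {ω : List B} {x y : W} {n : ℕ} : RPath L ω x y n →
      cs.length (x * cs.simple i) < cs.length x → RPath L (i :: ω) x y (L (cs.simple i) + n)

/-- `T_x T_y` has a path to `T_z` of weight `n`. -/
def G (L : W → ℕ) (x y z : W) (n : ℕ) : Prop :=
  ∃ ω : List B, cs.IsReduced ω ∧ cs.wordProd ω = x ∧ LPath cs L ω y z n

end CoxBound
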