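import Pool.Agent.Lib.MP_0d46c2_al.GPath
import Pool.Agent.Lib.MP_0d46c2_al.CoxA

set_option autoImplicit false
set_option linter.unusedSectionVars false

/-!
# Doubling
-/

namespace CoxBound

open CoxeterSystem

variable {B : Type*} [Fintype B] [DecidableEq B] {M : CoxeterMatrix B}
variable {W : Type*} [Group W] {cs : CoxeterSystem M W}

theorem doubling {L : W → ℕ} (hL : IsWeight cs L) {N : ℕ}
    (hN : ∀ (x y z : W) (n : ℕ), G cs L x y z n → n ≤ N)
    {K : Set B} {w b u u1 z : W} {n c : ℕ} (hw : MinR cs K w) (hb : MinR cs K b)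
    (hu : u ∈ par cs K) (hu1 : u1 ∈ par cs K)
    (h1 : G cs L z (b * u⁻¹) w n) (h2 : G cs L u u⁻¹ u1 c) :
    ∃ (v : W) (n1 : ℕ), G cs L v (w * u1⁻¹) w n1 ∧ 2 * n + c ≤ N + n1 := by
  obtain ⟨ωz, hωz, hz⟩ := cs.exists_isReduced z
  obtain ⟨ω1, hω1, hu1e⟩ := cs.exists_isReduced u1
  obtain ⟨ωb, hωb, hbe⟩ := cs.exists_isReduced b
  obtain ⟨ωw, hωw, hwe⟩ := cs.exists_isReduced w
  have hzi : z⁻¹ = cs.wordProd ωz.reverse := by rw [cs.wordProd_reverse, hz]
  have hwi : w⁻¹ = cs.wordProd ωw.reverse := by rw [cs.wordProd_reverse, hwe]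
  have hLz : LPath cs L ωz (b * u⁻¹) w n := by
    rw [hz] at h1; exact (G_iff_L hL hωz).1 h1
  have hLzi : LPath cs L ωz.reverse w (b * u⁻¹) n := by
    have h3 := h1.inv_left hL
    rw [hzi] at h3; exact (G_iff_L hL hωz.reverse).1 h3
  have hR1 : RPath cs L ω1 u⁻¹ u⁻¹ c := by
    have h3 := h2.inv_left hL
    rw [hu1e] at h3; exact (G_iff_R hL hω1).1 h3
  have hlb : cs.length (b * u⁻¹) = cs.length b + cs.length u⁻¹ :=
    hb.length_mul ((par cs K).inv_mem hu)
  have hRb : RPath cs L ω1 (b * u⁻¹) (b * u⁻¹) c := by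
    have h3 := LPath.up (cs := cs) L ωb u⁻¹
    rw [← hbe] at h3
    obtain ⟨y', m', n', h4, h5, h6⟩ := swap' hL hR1 h3
    obtain ⟨h7, h8⟩ := h4.unique (by rw [← hbe, hlb, hbe, hωb.eq])
    rw [← hbe] at h7
    have h9 : n' = c := by omega
    rw [h7, h9] at h5
    exact h5
  have hlw : cs.length (w * u1) = cs.length w + cs.length u1 := hw.length_mul hu1
  have hA : LPath cs L ωz.reverse (w * u1) (b * u⁻¹) (n + c) := by
    obtain ⟨y', m', n', h4, h5, h6⟩ := swap hL hLzi hRb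
    obtain ⟨h7, h8⟩ := h4.unique (by rw [← hu1e, hlw, hu1e, hω1.eq])
    rw [← hu1e] at h7
    have h9 : m' = n + c := by omega
    rw [h7, h9] at h5
    exact h5
  have hB := hA.append hLz
  have hC : RPath cs L ωw.reverse w 1 0 := by
    have h3 := RPath.up (cs := cs) L ωw.reverse w
    rwa [← hwi, mul_inv_cancel] at h3
  obtain ⟨v, m', n1, h4, h5, h6⟩ := swap hL hB hC
  obtain ⟨y2, a, a', h7, h8, h9⟩ := h5.split
  have h10 := h8.reverse
  obtain ⟨h11, h12⟩ := h10.unique (by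
    rw [mul_one, cs.length_one, hωz.reverse.eq, add_zero])
  rw [mul_one, ← hzi] at h11
  have h13 : a ≤ N := by
    rw [h11] at h7
    exact hN z⁻¹ v z⁻¹ a (by rw [hzi] at h7 ⊢; exact (G_iff_L hL hωz.reverse).2 h7)
  have h14 : G cs L (w * u1) w⁻¹ v n1 := by
    rw [hwi]; exact (G_iff_R hL hωw.reverse).2 h4
  have h15 := h14.inv_right hL
  rw [inv_inv] at h15
  have h16 : G cs L (w * u1) u1⁻¹ w 0 := (G.of_reduced hlw).inv_right hL
  have h17 := G.comp_right hL (hw.length_mul ((par cs K).inv_mem hu1)) h15 h16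
  exact ⟨v, n1 + 0, h17, by omega⟩

end CoxBound
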