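import Pool.Agent.Lib.MP_0d46c2_al.Cone
import Pool.Agent.Lib.MP_0d46c2_al.Doubling
import Pool.Agent.Lib.MP_0d46c2_al.Bounds

set_option autoImplicit false
set_option linter.unusedSectionVars false

/-!
# The exact bound
-/

namespace CoxBound

open CoxeterSystem

variable {B : Type*} [Fintype B] [DecidableEq B] {M : CoxeterMatrix B}
variable {W : Type*} [Group W] {cs : CoxeterSystem M W}

lemma IsWeight.one {L : W → ℕ} (hL : IsWeight cs L) : L 1 = 0 := by
  have h := hL.add 1 1 (by simp)
  rw [mul_one] at h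
  omega

lemma IsWeight.wordProd {L : W → ℕ} (hL : IsWeight cs L) {ω : List B} (hω : cs.IsReduced ω) :
    L (cs.wordProd ω) = (ω.map fun i => L (cs.simple i)).sum := by
  induction ω with
  | nil => simp [hL.one]
  | cons i ω ih =>
    have hω' : cs.IsReduced ω := by simpa using hω.drop 1
    have h1 : cs.length (cs.simple i * cs.wordProd ω) =
        cs.length (cs.simple i) + cs.length (cs.wordProd ω) := by
      rw [← cs.wordProd_cons, hω.eq, hω'.eq, cs.length_simple, List.length_cons, add_comm]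
    rw [cs.wordProd_cons, hL.add _ _ h1, ih hω', List.map_cons, List.sum_cons]

lemma IsWeight.conj {L : W → ℕ} (hL : IsWeight cs L) {v : W} {i j : B}
    (h3 : cs.simple j * v = v * cs.simple i) : L (cs.simple j) = L (cs.simple i) := by
  rcases cs.length_mul_simple v i with h4 | h4
  · have e1 := hL.add v (cs.simple i) (by rw [h4, cs.length_simple])
    have e2 := hL.add (cs.simple j) v (by rw [h3, h4, cs.length_simple, add_comm])
    rw [h3, e1] at e2
    omega
  · have e1 := hL.add (v * cs.simple i) (cs.simple i) (by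
      rw [cs.simple_mul_simple_cancel_right, cs.length_simple]; omega)
    have e2 := hL.add (cs.simple j) (cs.simple j * v) (by
      rw [cs.simple_mul_simple_cancel_left, cs.length_simple, h3]; omega)
    rw [cs.simple_mul_simple_cancel_right] at e1
    rw [cs.simple_mul_simple_cancel_left, h3] at e2
    omega

lemma wordProd_mem {I : Set B} {ω : List B} (h : ∀ r ∈ ω, r ∈ I) :
    cs.wordProd ω ∈ par cs I := by
  induction ω with
  | nil => rw [cs.wordProd_nil]; exact one_mem _
  | cons i ω ih =>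
    rw [cs.wordProd_cons]
    exact (par cs I).mul_mem (simple_mem (h i (by simp)))
      (ih fun r hr => h r (List.mem_cons_of_mem _ hr))

/-- The path obtained from an optimal pattern in a residue. -/
theorem internal {L : W → ℕ} (hL : IsWeight cs L) {p : List (B × Bool)} {x x' u : W} {I : Set B}
    (h : Opt cs L p x) (hI : DescR cs I x) (hv : MinR cs I x') (hu : u ∈ par cs I)
    (he : x = x' * u) : ∀ q : List (B × Bool), q <:+ p →
    ∃ (q' : List (B × Bool)) (ω : List B), q'.map Prod.fst = q.map Prod.fst ∧ Valid cs q' x' ∧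
      cs.IsReduced ω ∧ (∀ r ∈ ω, r ∈ I) ∧ pw cs q' * x' = pw cs q * x' * cs.wordProd ω ∧
      pwt cs L q' + L (cs.wordProd ω) = pwt cs L q ∧ ∀ r ∈ Jint cs q x' I, r ∈ ω := by
  intro q
  induction q with
  | nil =>
    intro _
    refine ⟨[], [], rfl, trivial, ?_, by simp, by simp [pw_nil], ?_, ?_⟩
    · simp [CoxeterSystem.IsReduced]
    · simp [pwt, hL.one]
    · rintro r ⟨-, i, q, hq, -⟩
      simp at hq
  | cons a q ih =>
    intro hq
    obtain ⟨i, b⟩ := a
    have hq' : q <:+ p := (List.suffix_cons _ _).trans hq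
    obtain ⟨q', ω, h1, h2, h3, h4, h5, h6, h7⟩ := ih hq'
    have hm := h.minR hL hI hv hu he hq'
    have hk := wordProd_mem (cs := cs) h4
    cases b with
    | false =>
      refine ⟨(i, false) :: q', ω, by simp [h1], by rwa [valid_move], h3, h4, ?_, ?_, ?_⟩
      · rw [pw_move, pw_move, mul_assoc, h5]; simp only [mul_assoc]
      · rw [pwt_move, pwt_move]; exact h6
      · rintro r ⟨hr, j, q₂, hq₂, hj⟩
        rw [List.suffix_cons_iff] at hq₂
        rcases hq₂ with hq₂ | hq₂
        · simp at hq₂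
        · exact h7 r ⟨hr, j, q₂, hq₂, hj⟩
    | true =>
      have hf := (valid_iff.1 h.1) i q hq
      rw [he, ← mul_assoc (pw cs q), ← mul_assoc (cs.simple i), hm.length_mul hu] at hf
      rcases hm.simple_mul i with hm' | ⟨r, hr, hr'⟩
      · rw [hm'.length_mul hu] at hf
        refine ⟨(i, true) :: q', ω, by simp [h1], ?_, h3, h4, ?_, ?_, ?_⟩
        · rw [valid_fold]
          refine ⟨h2, ?_⟩
          rw [h5, ← mul_assoc, hm'.length_mul hk, hm.length_mul hk]
          omega
        · rw [pw_fold, pw_fold, h5]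
        · rw [pwt_fold, pwt_fold]; omega
        · rintro r ⟨hr, j, q₂, hq₂, hj⟩
          rw [List.suffix_cons_iff] at hq₂
          rcases hq₂ with hq₂ | hq₂
          · exfalso
            simp only [List.cons.injEq, Prod.mk.injEq, and_true] at hq₂
            obtain ⟨rfl, rfl⟩ := hq₂
            have h8 := hm' r hr
            rw [hj, cs.simple_mul_simple_cancel_right] at h8
            have h9 := hm r hr
            omega
          · exact h7 r ⟨hr, j, q₂, hq₂, hj⟩
      · have hLr : L (cs.simple i) = L (cs.simple r) := hL.conj hr'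
        have hmem := (par cs I).mul_mem (simple_mem (cs := cs) hr) hk
        have hJ : ∀ r₂ ∈ Jint cs ((i, true) :: q) x' I, r₂ = r ∨ r₂ ∈ ω := by
          rintro r₂ ⟨hr₂, j, q₂, hq₂, hj⟩
          rw [List.suffix_cons_iff] at hq₂
          rcases hq₂ with hq₂ | hq₂
          · left
            simp only [List.cons.injEq, Prod.mk.injEq, and_true] at hq₂
            obtain ⟨rfl, rfl⟩ := hq₂
            rw [hr'] at hj
            exact (simple_inj cs (mul_left_cancel hj)).symm
          · exact Or.inr (h7 r₂ ⟨hr₂, j, q₂, hq₂, hj⟩)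
        rcases cs.length_simple_mul (cs.wordProd ω) r with hl | hl
        · refine ⟨(i, false) :: q', r :: ω, by simp [h1], by rwa [valid_move], ?_, ?_, ?_, ?_, ?_⟩
          · unfold CoxeterSystem.IsReduced
            rw [cs.wordProd_cons, hl, h3.eq, List.length_cons]
          · intro j hj
            rw [List.mem_cons] at hj
            rcases hj with rfl | hj
            · exact hr
            · exact h4 j hj
          · rw [pw_move, pw_fold, mul_assoc, h5, ← mul_assoc, hr', cs.wordProd_cons, mul_assoc]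
          · rw [pwt_move, pwt_fold, cs.wordProd_cons,
              hL.add _ _ (by rw [hl, cs.length_simple]; omega)]
            omega
          · intro r₂ hr₂
            rcases hJ r₂ hr₂ with h8 | h8
            · rw [h8]; exact List.mem_cons_self
            · exact List.mem_cons_of_mem _ h8
        · refine ⟨(i, true) :: q', ω, by simp [h1], ?_, h3, h4, ?_, ?_, ?_⟩
          · rw [valid_fold]
            refine ⟨h2, ?_⟩
            rw [h5, ← mul_assoc, hr', mul_assoc, hm.length_mul hmem, hm.length_mul hk]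
            omega
          · rw [pw_fold, pw_fold, h5]
          · rw [pwt_fold, pwt_fold]; omega
          · intro r₂ hr₂
            rcases hJ r₂ hr₂ with h8 | h8
            · rw [h8]
              have h9 : cs.wordProd ω ∈ par cs {j | j ∈ ω} := wordProd_mem fun j hj => hj
              exact leftDesc_mem h9 (by omega)
            · exact h8

/-- The Demazure product. -/
theorem dem {L : W → ℕ} (hL : IsWeight cs L) {I : Set B} : ∀ (ρ ω : List B),
    cs.IsReduced ω → (∀ r ∈ ω, r ∈ I) → (∀ r ∈ ρ, r ∈ I) →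
    ∃ (ω' : List B) (c : ℕ), cs.IsReduced ω' ∧ (∀ r ∈ ω', r ∈ I) ∧ (∀ r ∈ ω, r ∈ ω') ∧
      ω.length ≤ ω'.length ∧ RPath cs L ρ (cs.wordProd ω) (cs.wordProd ω') c ∧
      c + L (cs.wordProd ω') = L (cs.wordProd ω) + (ρ.map fun i => L (cs.simple i)).sum ∧
      (ω'.length = ω.length → ∀ r ∈ ρ, D cs (cs.wordProd ω) r) := by
  intro ρ
  induction ρ with
  | nil =>
    intro ω h1 h2 _
    exact ⟨ω, 0, h1, h2, fun r hr => hr, le_rfl, RPath.nil _, by simp, by simp⟩
  | cons r ρ ih =>
    intro ω h1 h2 h3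
    have h3' : ∀ j ∈ ρ, j ∈ I := fun j hj => h3 j (List.mem_cons_of_mem _ hj)
    by_cases hd : D cs (cs.wordProd ω) r
    · obtain ⟨ω', c, k1, k2, k3, k4, k5, k6, k7⟩ := ih ω h1 h2 h3'
      refine ⟨ω', L (cs.simple r) + c, k1, k2, k3, k4, RPath.fold k5 hd, ?_, ?_⟩
      · rw [List.map_cons, List.sum_cons]; omega
      · intro hlen j hj
        rw [List.mem_cons] at hj
        rcases hj with rfl | hj
        · exact hd
        · exact k7 hlen j hj
    · rw [not_D] at hd
      have hl := cs.length_mul_simple (cs.wordProd ω) r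
      have hprod : cs.wordProd (ω ++ [r]) = cs.wordProd ω * cs.simple r := by
        rw [cs.wordProd_append, cs.wordProd_singleton]
      have hred : cs.IsReduced (ω ++ [r]) := by
        unfold CoxeterSystem.IsReduced
        rw [hprod, List.length_append, List.length_singleton]
        have := h1.eq
        omega
      obtain ⟨ω', c, k1, k2, k3, k4, k5, k6, k7⟩ := ih (ω ++ [r]) hred (by
        intro j hj
        rw [List.mem_append, List.mem_singleton] at hj
        rcases hj with hj | rfl
        · exact h2 j hj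
        · exact h3 j (by simp)) h3'
      rw [List.length_append, List.length_singleton] at k4
      refine ⟨ω', c, k1, k2, fun j hj => k3 j (List.mem_append_left _ hj), by omega, ?_, ?_, ?_⟩
      · rw [hprod] at k5
        exact RPath.move k5
      · rw [hprod, hL.add _ _ (by rw [cs.length_simple]; omega)] at k6
        rw [List.map_cons, List.sum_cons]
        omega
      · intro hlen
        exfalso; omega

variable (cs) in
/-- Good words. -/
def Good (L : W → ℕ) (N : ℕ) (w' : W) (I : Set B) (ω : List B) : Prop :=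
  cs.IsReduced ω ∧ (∀ r ∈ ω, r ∈ I) ∧ (∀ r ∈ I, r ∈ ω) ∧
    ∃ (z b : W) (n : ℕ), MinR cs I b ∧ G cs L z (b * (cs.wordProd ω)⁻¹) w' n ∧
      N ≤ n + L (cs.wordProd ω)

theorem Good.next {L : W → ℕ} (hL : IsWeight cs L) {N : ℕ}
    (hN : ∀ (x y z : W) (n : ℕ), G cs L x y z n → n ≤ N) {w' : W} {I : Set B}
    (hw : MinR cs I w') {ω : List B} (h : Good cs L N w' I ω) :
    ∃ ω' : List B, Good cs L N w' I ω' ∧ ω.length ≤ ω'.length ∧
      (ω'.length = ω.length → ∀ r ∈ I, D cs (cs.wordProd ω) r) := by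
  obtain ⟨h1, h2, h3, z, b, n, h4, h5, h6⟩ := h
  obtain ⟨ω', c, k1, k2, k3, k4, k5, k6, k7⟩ := dem hL (I := I) ω.reverse ω h1 h2
    (fun r hr => h2 r (List.mem_reverse.1 hr))
  have hsum : (ω.reverse.map fun i => L (cs.simple i)).sum = L (cs.wordProd ω) := by
    rw [hL.wordProd h1, List.map_reverse, List.sum_reverse]
  rw [hsum] at k6
  have hG : G cs L (cs.wordProd ω) (cs.wordProd ω)⁻¹ (cs.wordProd ω') c := by
    rw [← cs.wordProd_reverse]
    exact (G_iff_R hL h1.reverse).2 k5
  obtain ⟨v, n1, m1, m2⟩ := doubling hL hN hw h4 (wordProd_mem h2) (wordProd_mem k2) h5 hG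
  refine ⟨ω', ⟨k1, k2, fun r hr => k3 r (h3 r hr), v, w', n1, hw, m1, by omega⟩, k4, ?_⟩
  intro hlen r hr
  exact k7 hlen r (List.mem_reverse.2 (h3 r hr))

theorem Good.longest {L : W → ℕ} (hL : IsWeight cs L) {N : ℕ}
    (hN : ∀ (x y z : W) (n : ℕ), G cs L x y z n → n ≤ N) {w' u : W} {I : Set B}
    (hw : MinR cs I w') (hu : Longest cs I u) : ∀ (m : ℕ) (ω : List B), Good cs L N w' I ω →
      cs.length u ≤ ω.length + m →
      ∃ ω' : List B, Good cs L N w' I ω' ∧ cs.wordProd ω' = u := by
  intro m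
  induction m with
  | zero =>
    intro ω h hm
    refine ⟨ω, h, hu.eq (wordProd_mem h.2.1) ?_⟩
    rw [h.1.eq]; omega
  | succ m ih =>
    intro ω h hm
    obtain ⟨ω', h1, h2, h3⟩ := h.next hL hN hw
    by_cases hlen : ω'.length = ω.length
    · have hd : DescR cs I (cs.wordProd ω) := fun r hr => h3 hlen r hr
      have h4 := hd.length_mul hu.1
      exact ⟨ω, h, hu.eq (wordProd_mem h.2.1) (by omega)⟩
    · exact ih ω' h1 (by omega)

/-- The exact bound for pattern weights. -/
theorem exact_bound {L : W → ℕ} (hL : IsWeight cs L) {N : ℕ} {p : List (B × Bool)}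
    (hp : cs.IsReduced (p.map Prod.fst)) {x₀ : W} (hx₀ : Valid cs p x₀) (hpN : pwt cs L p = N)
    (hmax : ∀ (p' : List (B × Bool)) (x' : W), cs.IsReduced (p'.map Prod.fst) →
      Valid cs p' x' → pwt cs L p' ≤ N) :
    ∃ (I : Set B) (u : W), (par cs I : Set W).Finite ∧ u ∈ par cs I ∧ N ≤ L u := by
  classical
  -- a shortest valid element
  have hex : ∃ n, ∃ x, Valid cs p x ∧ cs.length x = n := ⟨_, x₀, hx₀, rfl⟩
  obtain ⟨x, hx, hxl⟩ := Nat.find_spec hex
  have hmin : ∀ y, Valid cs p y → cs.length x ≤ cs.length y := by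
    intro y hy
    rw [hxl]
    exact Nat.find_min' hex ⟨y, hy, rfl⟩
  have hO : Opt cs L p x := by
    refine ⟨hx, fun p' x' h1 h2 => ?_⟩
    rw [hpN]
    exact hmax p' x' (by rw [h1]; exact hp) h2
  have hirr : ∀ s, D cs x s → ¬ Valid cs p (x * cs.simple s) := by
    intro s hs hv
    have := hmin _ hv
    unfold D at hs
    omega
  obtain ⟨I, hIdef⟩ : ∃ I : Set B, I = {s | D cs x s} := ⟨_, rfl⟩
  have hI : DescR cs I x := by rw [hIdef]; exact fun r hr => hr
  obtain ⟨x', u, hx', hu, he⟩ := exists_minR (cs := cs) I x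
  have hu' := longest_of hI hx' hu he
  -- all letters are internal
  have hJ : ∀ r ∈ I, r ∈ Jint cs p x' I := by
    intro r hr
    by_contra hrJ
    obtain ⟨j, hj, hrj⟩ := hu'.conj hr
    have hDj : D cs x j := hI j hj
    apply hirr j hDj
    rw [he, mul_assoc, ← hrj]
    refine (residue hL hO hI hx' hu he ((par cs I).mul_mem (simple_mem hr) hu)).2 ?_
    intro r₂ hr₂
    have hne : r₂ ≠ r := fun h => hrJ (h ▸ hr₂)
    have h1 : cs.length (cs.simple r₂ * cs.simple r) = 2 := by
      rcases cs.length_simple_mul (cs.simple r) r₂ with h2 | h2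
      · rw [h2, cs.length_simple]
      · exfalso
        rw [cs.length_simple] at h2
        have h3 := cs.length_eq_zero_iff.1 (show cs.length (cs.simple r₂ * cs.simple r) = 0 by omega)
        have h4 := eq_inv_of_mul_eq_one_left h3
        rw [cs.inv_simple] at h4
        exact hne (simple_inj cs h4)
    have h2 := hu'.left ((par cs I).mul_mem (simple_mem (cs := cs) hr₂.1) (simple_mem hr))
    have h3 := hu'.left (simple_mem (cs := cs) hr)
    rw [cs.length_simple] at h3
    rw [mul_assoc] at h2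
    omega
  -- path calculus
  have hN : ∀ (a b c : W) (n : ℕ), G cs L a b c n → n ≤ N := by
    rintro a b c n ⟨ω, h1, h2, h3⟩
    obtain ⟨p', h4, h5, -, h7⟩ := lpath_iff.1 h3
    rw [← h7]
    exact hmax p' b (by rw [h4]; exact h1) h5
  obtain ⟨w', hw'def⟩ : ∃ w', w' = pw cs p * x' := ⟨_, rfl⟩
  have hw' : MinR cs I w' := by rw [hw'def]; exact hO.minR hL hI hx' hu he (List.suffix_refl p)
  obtain ⟨q', ω, h1, h2, h3, h4, h5, h6, h7⟩ := internal hL hO hI hx' hu he p (List.suffix_refl p)
  have hk := wordProd_mem (cs := cs) h4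
  have hG1 : G cs L (cs.wordProd (p.map Prod.fst)) x' (w' * cs.wordProd ω) (pwt cs L q') := by
    refine ⟨p.map Prod.fst, hp, rfl, lpath_iff.2 ⟨q', h1, h2, ?_, rfl⟩⟩
    rw [h5, hw'def]
  have hG2 : G cs L (w' * cs.wordProd ω) (cs.wordProd ω)⁻¹ w' 0 :=
    (G.of_reduced (hw'.length_mul hk)).inv_right hL
  have hG3 := G.comp_right hL (hx'.length_mul ((par cs I).inv_mem hk)) hG1 hG2
  have hgood : Good cs L N w' I ω :=
    ⟨h3, h4, fun r hr => h7 r (hJ r hr), _, x', _, hx', hG3, by omega⟩
  obtain ⟨ω', ⟨k1, k2, k3, z, b, n, k4, k5, k6⟩, k7⟩ := hgood.longest hL hN hw' hu'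
    (cs.length u) ω (by omega)
  rw [k7] at k5 k6
  obtain ⟨v, m, m', l1, l2, l3⟩ := G.split_right hL
    (k4.length_mul ((par cs I).inv_mem hu)) k5
  have l4 := l2.inv_right hL
  rw [inv_inv] at l4
  obtain ⟨l5, l6⟩ := l4.unique (hw'.length_mul hu)
  have l7 := l1.inv_right hL
  have hb : MinL cs {s | D cs x s} b⁻¹ := by
    intro i hi
    have h8 : cs.simple i * b⁻¹ = (b * cs.simple i)⁻¹ := by rw [mul_inv_rev, cs.inv_simple]
    rw [h8, cs.length_inv, cs.length_inv]
    exact k4 i (by rw [hIdef]; exact hi)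
  have hc1 := cone_type hL hO hirr _ b⁻¹ rfl hb
  have hc2 := hO.cone_transfer hL _ b⁻¹ rfl hc1
  have hvx : v = pw cs p * x := by rw [l5, hw'def, he, mul_assoc]
  rw [← hvx] at hc2
  obtain ⟨-, l8⟩ := l7.unique hc2
  exact ⟨I, u, par_finite hI, hu, by omega⟩

/-- The exact bound for the structure constants. -/
theorem exact_main (cs : CoxeterSystem M W) {L : W → ℕ} (hL : IsWeight cs L)
    {f : W → W → W → LaurentPolynomial ℤ} (hf : IsStructConst cs L f) :
    ∃ (I : Set B) (u : W), (par cs I : Set W).Finite ∧ u ∈ par cs I ∧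
      ∀ x y z : W, LaurentPolynomial.degree (f x y z) ≤ (((L u : ℕ) : ℤ) : WithBot ℤ) := by
  classical
  obtain ⟨C, hC⟩ := pwt_bounded cs hL
  let S : ℕ → Prop := fun n => ∃ (p : List (B × Bool)) (x : W),
    cs.IsReduced (p.map Prod.fst) ∧ Valid cs p x ∧ pwt cs L p = n
  have hS0 : S 0 := ⟨[], 1, by simp [CoxeterSystem.IsReduced], trivial, rfl⟩
  have hSC : ∀ n, S n → n ≤ C := by
    rintro n ⟨p, x, h1, h2, h3⟩
    rw [← h3]; exact hC p x h1 h2
  obtain ⟨p, x, h1, h2, h3⟩ : S (Nat.findGreatest S C) :=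
    Nat.findGreatest_spec (P := S) (Nat.zero_le C) hS0
  have hmax : ∀ (p' : List (B × Bool)) (x' : W), cs.IsReduced (p'.map Prod.fst) →
      Valid cs p' x' → pwt cs L p' ≤ Nat.findGreatest S C := by
    intro p' x' h4 h5
    have hS : S (pwt cs L p') := ⟨p', x', h4, h5, rfl⟩
    exact Nat.le_findGreatest (hSC _ hS) hS
  obtain ⟨I, u, k1, k2, k3⟩ := exact_bound hL h1 h2 h3 hmax
  refine ⟨I, u, k1, k2, fun x y z => ?_⟩
  obtain ⟨ω, hω, rfl⟩ := cs.exists_isReduced x
  rw [hf.eq_lops ω hω y]
  have hb : Bdd (lops cs L ω (dlt y) z) ((L u : ℕ) : ℤ) := by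
    apply bdd_of_paths
    intro n hn
    obtain ⟨p', h4, h5, -, h7⟩ := lpath_iff.1 hn
    have h8 := hmax p' y (by rw [h4]; exact hω) h5
    rw [h7] at h8
    exact_mod_cast h8.trans k3
  exact hb.degree_le

end CoxBound
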