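import Pool.Agent.Lib.MP_0d46c2_al.Rot

set_option autoImplicit false
set_option linter.unusedSimpArgs false
set_option linter.unusedSectionVars false

/-!
# Crossing families and the folding step
-/

namespace CoxBound

open Real CoxeterSystem

variable {B : Type*} [Fintype B] [DecidableEq B] {M : CoxeterMatrix B}
variable {W : Type*} [Group W] {cs : CoxeterSystem M W}

variable (cs) in
/-- Positive roots inverted by both `x` and `c`. -/
def common (x c : W) : Set (B → ℝ) :=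
  {γ | IsRoot cs γ ∧ 0 ≤ γ ∧ geo cs x γ ≤ 0 ∧ geo cs c γ ≤ 0}

variable (M) in
/-- Pairwise crossing families. -/
def Crossing (K : Finset (B → ℝ)) : Prop :=
  ∀ γ ∈ K, ∀ γ' ∈ K, γ ≠ γ' → |bf M γ γ'| < 1

/-- Moving step: `(x s, c s)` to `(x, c)` where `x α_s ≤ 0`. -/
theorem step_move (x c : W) (s : B) (hx : geo cs x (sroot s) ≤ 0)
    (wt : (B → ℝ) → ℕ) (hwt : ∀ γ, IsRoot cs γ → wt (geo cs (cs.simple s) γ) = wt γ)
    (K' : Finset (B → ℝ)) (hK' : ↑K' ⊆ common cs (x * cs.simple s) (c * cs.simple s))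
    (hc' : Crossing M K') :
    ∃ K : Finset (B → ℝ), ↑K ⊆ common cs x c ∧ Crossing M K ∧
      ∑ γ ∈ K, wt γ = ∑ γ ∈ K', wt γ := by
  classical
  have hinj : Function.Injective (geo cs (cs.simple s)) := by
    intro a b h
    have := congrArg (geo cs (cs.simple s)) h
    rwa [geo_simple_simple, geo_simple_simple] at this
  refine ⟨K'.image (geo cs (cs.simple s)), ?_, ?_, ?_⟩
  · intro δ hδ
    rw [Finset.mem_coe, Finset.mem_image] at hδ
    obtain ⟨γ, hγ, rfl⟩ := hδ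
    obtain ⟨hr, h0, h1, h2⟩ := hK' hγ
    rw [geo_mul] at h1 h2
    refine ⟨hr.map _, hr.simple_nonneg h0 ?_, h1, h2⟩
    rintro rfl
    rw [geo_simple_sroot, map_neg] at h1
    exact ((isRoot_sroot (cs := cs) s).map x).not_both (neg_nonpos.1 h1) hx
  · intro δ hδ δ' hδ' hne
    rw [Finset.mem_image] at hδ hδ'
    obtain ⟨γ, hγ, rfl⟩ := hδ
    obtain ⟨γ', hγ', rfl⟩ := hδ'
    rw [bf_geo]
    exact hc' γ hγ γ' hγ' (fun h => hne (by rw [h]))
  · rw [Finset.sum_image (fun a _ b _ h => hinj h)]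
    exact Finset.sum_congr rfl fun γ hγ => hwt γ (hK' hγ).1

/-- Folding step: `(x s, c)` to `(x, c)` where `x α_s ≤ 0` and `c α_s ≤ 0`. -/
theorem step_fold (x c : W) (s : B) (hx : geo cs x (sroot s) ≤ 0) (hc : geo cs c (sroot s) ≤ 0)
    (wt : (B → ℝ) → ℕ) (hwt : ∀ γ, IsRoot cs γ → wt (geo cs (cs.simple s) γ) = wt γ)
    (K' : Finset (B → ℝ)) (hK' : ↑K' ⊆ common cs (x * cs.simple s) c)
    (hc' : Crossing M K') :
    ∃ K : Finset (B → ℝ), ↑K ⊆ common cs x c ∧ Crossing M K ∧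
      ∑ γ ∈ K, wt γ = wt (sroot s) + ∑ γ ∈ K', wt γ := by
  classical
  set S := geo cs (cs.simple s) with hS
  have SS : ∀ v, S (S v) = v := geo_simple_simple cs s
  have Sb : ∀ u v, bf M (S u) (S v) = bf M u v := bf_geo cs _
  have hes := isRoot_sroot (cs := cs) s
  have hSe : S (sroot s) = -sroot s := geo_simple_sroot cs s
  -- basic facts about elements of K'
  have hroot : ∀ γ ∈ K', IsRoot cs γ := fun γ hγ => (hK' hγ).1
  have hpos : ∀ γ ∈ K', 0 ≤ γ := fun γ hγ => (hK' hγ).2.1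
  have hxS : ∀ γ ∈ K', geo cs x (S γ) ≤ 0 := fun γ hγ => by
    have := (hK' hγ).2.2.1; rwa [geo_mul] at this
  have hcγ : ∀ γ ∈ K', geo cs c γ ≤ 0 := fun γ hγ => (hK' hγ).2.2.2
  have hne : ∀ γ ∈ K', γ ≠ sroot s := by
    rintro γ hγ rfl
    have := hxS _ hγ
    rw [hSe, map_neg] at this
    exact (hes.map x).not_both (neg_nonpos.1 this) hx
  have hSpos : ∀ γ ∈ K', 0 ≤ S γ := fun γ hγ => (hroot γ hγ).simple_nonneg (hpos γ hγ) (hne γ hγ)
  have hSroot : ∀ γ ∈ K', IsRoot cs (S γ) := fun γ hγ => (hroot γ hγ).map _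
  -- b(γ) = B(α_s, γ)
  have hSγ : ∀ γ, S γ = γ - (2 * bf M (sroot s) γ) • sroot s := geo_simple_apply cs s
  have hbS : ∀ γ, bf M (sroot s) (S γ) = -bf M (sroot s) γ := by
    intro γ
    have := Sb (sroot s) γ
    rw [hSe, map_neg, LinearMap.neg_apply] at this
    linarith
  have hcross : ∀ γ ∈ K', |bf M (sroot s) γ| < 1 := by
    intro γ hγ
    rw [abs_lt]
    constructor
    · by_contra h
      push Not at h
      exact nested hes (hroot γ hγ) (sroot_nonneg s) (hpos γ hγ) h c hc (hcγ γ hγ)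
    · by_contra h
      push Not at h
      refine nested hes (hSroot γ hγ) (sroot_nonneg s) (hSpos γ hγ) ?_ x hx (hxS γ hγ)
      rw [hbS]; linarith
  -- staying is allowed when b ≥ 0
  have hstay : ∀ γ ∈ K', 0 ≤ bf M (sroot s) γ → geo cs x γ ≤ 0 := by
    intro γ hγ hb
    have h1 : γ = S γ + (2 * bf M (sroot s) γ) • sroot s := by rw [hSγ]; module
    rw [h1, map_add, map_smul]
    have h2 : (2 * bf M (sroot s) γ) • geo cs x (sroot s) ≤ 0 := by
      have := smul_nonneg (a := 2 * bf M (sroot s) γ) (by linarith) (neg_nonneg.2 hx)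
      rw [smul_neg] at this
      exact neg_nonneg.1 this
    exact add_nonpos (hxS γ hγ) h2
  -- flipping is allowed when b ≤ 0
  have hflip : ∀ γ ∈ K', bf M (sroot s) γ ≤ 0 → geo cs c (S γ) ≤ 0 := by
    intro γ hγ hb
    rw [hSγ, sub_eq_add_neg, ← neg_smul, map_add, map_smul]
    have h2 : (-(2 * bf M (sroot s) γ)) • geo cs c (sroot s) ≤ 0 := by
      have := smul_nonneg (a := -(2 * bf M (sroot s) γ)) (by linarith) (neg_nonneg.2 hc)
      rw [smul_neg] at this
      exact neg_nonneg.1 this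
    exact add_nonpos (hcγ γ hγ) h2
  -- domination
  let Dom : (B → ℝ) → (B → ℝ) → Prop := fun β β' => ∀ w : W, geo cs w β ≤ 0 → geo cs w β' ≤ 0
  -- edge types
  let Edge : (B → ℝ) → (B → ℝ) → Prop := fun γ δ => 1 ≤ bf M γ (S δ)
  -- `Edge γ δ` with γ of type + and δ of type -; type I: Dom γ (S δ)
  have edge_or : ∀ γ ∈ K', ∀ δ ∈ K', Edge γ δ → Dom γ (S δ) ∨ Dom (S δ) γ := by
    intro γ hγ δ hδ he
    by_contra hcon
    push Not at hcon
    obtain ⟨h1, h2⟩ := hcon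
    simp only [Dom] at h1 h2
    push Not at h1 h2
    obtain ⟨w1, a1, a2⟩ := h1
    obtain ⟨w2, b1, b2⟩ := h2
    have a2' := ((hSroot δ hδ).map w1).nonneg_of_not_nonpos a2
    have b2' := ((hroot γ hγ).map w2).nonneg_of_not_nonpos b2
    exact crossed (hroot γ hγ) (hSroot δ hδ) he w1 w2 a1 a2' b1 b2'
  -- crossing roots do not dominate each other
  have not_dom : ∀ γ ∈ K', ∀ δ ∈ K', γ ≠ δ → ¬ Dom γ δ := by
    intro γ hγ δ hδ hn hd
    have hB := hc' δ hδ γ hγ hn.symm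
    obtain ⟨w, h1, h2⟩ := exists_sep (hroot δ hδ) (hroot γ hγ) (hpos δ hδ) hB
    exact ((hroot δ hδ).map w).not_both h2 (hd w h1)
  have not_domS : ∀ γ ∈ K', ∀ δ ∈ K', γ ≠ δ → ¬ Dom (S γ) (S δ) := by
    intro γ hγ δ hδ hn hd
    have hB := hc' δ hδ γ hγ hn.symm
    rw [← Sb] at hB
    obtain ⟨w, h1, h2⟩ := exists_sep (hSroot δ hδ) (hSroot γ hγ) (hSpos δ hδ) hB
    exact ((hSroot δ hδ).map w).not_both h2 (hd w h1)
  -- the staying set
  let Stay : (B → ℝ) → Prop := fun γ =>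
    (0 ≤ bf M (sroot s) γ ∧ ∀ δ ∈ K', bf M (sroot s) δ < 0 → Edge γ δ → Dom γ (S δ)) ∨
    (bf M (sroot s) γ < 0 ∧ ∃ δ ∈ K', 0 ≤ bf M (sroot s) δ ∧ Edge δ γ ∧ Dom δ (S γ))
  let φ : (B → ℝ) → (B → ℝ) := fun γ => if Stay γ then γ else S γ
  have hφ1 : ∀ γ, Stay γ → φ γ = γ := fun γ h => if_pos h
  have hφ2 : ∀ γ, ¬ Stay γ → φ γ = S γ := fun γ h => if_neg h
  have hφmem : ∀ γ ∈ K', φ γ ∈ common cs x c := by
    intro γ hγ
    by_cases hst : Stay γ
    · rw [hφ1 γ hst]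
      refine ⟨hroot γ hγ, hpos γ hγ, ?_, hcγ γ hγ⟩
      rcases hst with ⟨hb, -⟩ | ⟨hb, δ, hδ, hδb, hE, hD⟩
      · exact hstay γ hγ hb
      · -- type I edge: x (S S γ) ≤ 0
        have h1 : geo cs (x * cs.simple s) δ ≤ 0 := by rw [geo_mul]; exact hxS δ hδ
        have h2 := hD _ h1
        rw [geo_mul] at h2
        rwa [SS] at h2
    · rw [hφ2 γ hst]
      refine ⟨hSroot γ hγ, hSpos γ hγ, hxS γ hγ, ?_⟩
      by_cases hb : bf M (sroot s) γ < 0
      · exact hflip γ hγ hb.le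
      · push Not at hb
        have h3 : ¬ ∀ δ ∈ K', bf M (sroot s) δ < 0 → Edge γ δ → Dom γ (S δ) :=
          fun h => hst (Or.inl ⟨hb, h⟩)
        push Not at h3
        obtain ⟨δ, hδ, hδb, hE, hnD⟩ := h3
        have hII : Dom (S δ) γ := (edge_or γ hγ δ hδ hE).resolve_left hnD
        have h1 : geo cs (c * cs.simple s) (S δ) ≤ 0 := by
          rw [geo_mul]
          change geo cs c (S (S δ)) ≤ 0
          rw [SS]; exact hcγ δ hδ
        have h2 := hII _ h1
        rwa [geo_mul] at h2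
  -- mixed products
  have hmix : ∀ γ ∈ K', ∀ δ ∈ K', γ ≠ δ → Stay γ → ¬ Stay δ → |bf M γ (S δ)| < 1 := by
    intro γ hγ δ hδ hn hst hnst
    have m1 := hφmem γ hγ
    have m2 := hφmem δ hδ
    rw [hφ1 γ hst] at m1
    rw [hφ2 δ hnst] at m2
    rw [abs_lt]
    constructor
    · by_contra h
      push Not at h
      exact nested m1.1 m2.1 m1.2.1 m2.2.1 h x m1.2.2.1 m2.2.2.1
    · by_contra hE
      push Not at hE
      -- hE : Edge γ δ
      have hval : bf M γ (S δ) = bf M γ δ - 2 * bf M (sroot s) γ * bf M (sroot s) δ := by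
        rw [hSγ, map_sub, map_smul, smul_eq_mul, bf_symm M γ (sroot s)]; ring
      have hlt := (abs_lt.1 (hc' γ hγ δ hδ hn)).2
      have hprod : bf M (sroot s) γ * bf M (sroot s) δ < 0 := by
        by_contra h
        push Not at h
        linarith
      have hE' : 1 ≤ bf M δ (S γ) := by
        have e : bf M δ (S γ) = bf M γ (S δ) := by
          rw [← Sb δ (S γ), SS, bf_symm]
        rw [e]; exact hE
      rcases hst with ⟨hb, hI⟩ | ⟨hb, ε, hε, hεb, hEε, hDε⟩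
      · -- γ is +, so δ is -
        have hδb : bf M (sroot s) δ < 0 := by
          by_contra h; push Not at h
          have := mul_nonneg hb h; linarith
        have hD := hI δ hδ hδb hE
        exact hnst (Or.inr ⟨hδb, γ, hγ, hb, hE, hD⟩)
      · -- γ is -, so δ is +
        have hδb : 0 ≤ bf M (sroot s) δ := by
          by_contra h; push Not at h
          have := mul_pos_of_neg_of_neg hb h; linarith
        have h3 : ¬ ∀ η ∈ K', bf M (sroot s) η < 0 → Edge δ η → Dom δ (S η) :=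
          fun h => hnst (Or.inl ⟨hδb, h⟩)
        push Not at h3
        obtain ⟨η, hη, hηb, hEη, hnDη⟩ := h3
        have hIIη : Dom (S η) δ := (edge_or δ hδ η hη hEη).resolve_left hnDη
        by_cases hI : Dom δ (S γ)
        · by_cases hgη : γ = η
          · subst hgη; exact hnDη hI
          · exact not_domS η hη γ hγ (Ne.symm hgη) (fun w hw => hI w (hIIη w hw))
        · have hII : Dom (S γ) δ := (edge_or δ hδ γ hγ hE').resolve_left hI
          by_cases hεδ : ε = δ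
          · subst hεδ; exact hI hDε
          · exact not_dom ε hε δ hδ hεδ (fun w hw => hII w (hDε w hw))
  have hφcross : ∀ γ ∈ K', ∀ δ ∈ K', γ ≠ δ → |bf M (φ γ) (φ δ)| < 1 := by
    intro γ hγ δ hδ hn
    by_cases h1 : Stay γ <;> by_cases h2 : Stay δ
    · rw [hφ1 γ h1, hφ1 δ h2]; exact hc' γ hγ δ hδ hn
    · rw [hφ1 γ h1, hφ2 δ h2]; exact hmix γ hγ δ hδ hn h1 h2
    · rw [hφ2 γ h1, hφ1 δ h2, bf_symm]; exact hmix δ hδ γ hγ hn.symm h2 h1
    · rw [hφ2 γ h1, hφ2 δ h2, Sb]; exact hc' γ hγ δ hδ hn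
  have hφinj : ∀ γ ∈ K', ∀ δ ∈ K', φ γ = φ δ → γ = δ := by
    intro γ hγ δ hδ h
    by_contra hn
    have := hφcross γ hγ δ hδ hn
    rw [h, (hφmem δ hδ).1.norm] at this
    simp at this
  have hφs : ∀ γ ∈ K', |bf M (sroot s) (φ γ)| < 1 := by
    intro γ hγ
    by_cases h1 : Stay γ
    · rw [hφ1 γ h1]; exact hcross γ hγ
    · rw [hφ2 γ h1, hbS, abs_neg]; exact hcross γ hγ
  have hnot : sroot s ∉ K'.image φ := by
    intro h
    rw [Finset.mem_image] at h
    obtain ⟨γ, hγ, h⟩ := h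
    have := hφs γ hγ
    rw [h, bf_sroot_self] at this
    simp at this
  refine ⟨insert (sroot s) (K'.image φ), ?_, ?_, ?_⟩
  · intro δ hδ
    rw [Finset.mem_coe, Finset.mem_insert, Finset.mem_image] at hδ
    rcases hδ with rfl | ⟨γ, hγ, rfl⟩
    · exact ⟨hes, sroot_nonneg s, hx, hc⟩
    · exact hφmem γ hγ
  · intro δ hδ δ' hδ' hn
    rw [Finset.mem_insert, Finset.mem_image] at hδ hδ'
    rcases hδ with rfl | ⟨γ, hγ, rfl⟩ <;> rcases hδ' with rfl | ⟨γ', hγ', rfl⟩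
    · exact absurd rfl hn
    · exact hφs γ' hγ'
    · rw [bf_symm]; exact hφs γ hγ
    · exact hφcross γ hγ γ' hγ' (fun h => hn (by rw [h]))
  · rw [Finset.sum_insert hnot, Finset.sum_image hφinj]
    congr 1
    refine Finset.sum_congr rfl fun γ hγ => ?_
    by_cases h1 : Stay γ
    · rw [hφ1 γ h1]
    · rw [hφ2 γ h1]; exact hwt γ (hroot γ hγ)

end CoxBound
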