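import Pool.Agent.Lib.MP_0d46c2_al.Defs

set_option autoImplicit false
set_option linter.unusedSectionVars false

/-!
# Left and right folded paths commute
-/

namespace CoxBound

open CoxeterSystem

variable {B : Type*} [Fintype B] [DecidableEq B] {M : CoxeterMatrix B}
variable {W : Type*} [Group W] {cs : CoxeterSystem M W}

private theorem sw_exch {i j : B} {w : W} (h1 : cs.length w < cs.length (cs.simple i * w))
    (h2 : cs.length w < cs.length (w * cs.simple j))
    (h3 : cs.length (cs.simple i * w * cs.simple j) < cs.length (cs.simple i * w)) :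
    cs.simple i * w = w * cs.simple j := by
  have h4 := geo_sroot_nonneg' cs h2
  have h5 := geo_sroot_nonpos cs h3
  rw [geo_mul] at h5
  have hr : IsRoot cs (geo cs w (sroot j)) := ⟨w, j, rfl⟩
  have h6 : geo cs w (sroot j) = sroot i := by
    by_contra hne
    exact (hr.map (cs.simple i)).not_both (hr.simple_nonneg h4 hne) h5
  have h7 : w * cs.simple j * w⁻¹ = cs.simple i := by
    apply geo_injective (cs := cs)
    refine LinearMap.ext fun u => ?_
    rw [geo_refl, h6, geo_simple]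
  rw [← h7]; group

private theorem sw_weight {L : W → ℕ} (hL : IsWeight cs L) {i j : B} {v : W}
    (h : cs.simple j * v = v * cs.simple i) : L (cs.simple i) = L (cs.simple j) := by
  rcases cs.length_mul_simple v i with h4 | h4
  · have e1 := hL.add v (cs.simple i) (by rw [h4, cs.length_simple])
    have e2 := hL.add (cs.simple j) v (by rw [h, h4, cs.length_simple, add_comm])
    rw [h, e1] at e2
    omega
  · have e1 := hL.add (v * cs.simple i) (cs.simple i) (by
      rw [cs.simple_mul_simple_cancel_right, cs.length_simple]; omega)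
    have e2 := hL.add (cs.simple j) (cs.simple j * v) (by
      rw [cs.simple_mul_simple_cancel_left, cs.length_simple, h]; omega)
    rw [cs.simple_mul_simple_cancel_right] at e1
    rw [cs.simple_mul_simple_cancel_left, h] at e2
    omega

/-- the two mixed cases. -/
private theorem sw_up {i j : B} {x : W}
    (h : (cs.length x < cs.length (x * cs.simple j) ∧
        cs.length (cs.simple i * x * cs.simple j) < cs.length (cs.simple i * x)) ∨
      (cs.length x < cs.length (cs.simple i * x) ∧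
        cs.length (cs.simple i * x * cs.simple j) < cs.length (x * cs.simple j))) :
    cs.simple i * x = x * cs.simple j ∧ cs.length x < cs.length (x * cs.simple j) := by
  have a1 := cs.length_mul_simple x j
  have a2 := cs.length_simple_mul x i
  have a3 := cs.length_mul_simple (cs.simple i * x) j
  have a4 := cs.length_simple_mul (x * cs.simple j) i
  rw [← mul_assoc] at a4
  have k1 : cs.length x < cs.length (cs.simple i * x) := by omega
  have k2 : cs.length x < cs.length (x * cs.simple j) := by omega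
  have k3 : cs.length (cs.simple i * x * cs.simple j) < cs.length (cs.simple i * x) := by omega
  exact ⟨sw_exch k1 k2 k3, k2⟩

private theorem sw_down {i j : B} {x : W}
    (h : (cs.length (x * cs.simple j) < cs.length x ∧
        cs.length (cs.simple i * x) < cs.length (cs.simple i * x * cs.simple j)) ∨
      (cs.length (cs.simple i * x) < cs.length x ∧
        cs.length (x * cs.simple j) < cs.length (cs.simple i * x * cs.simple j))) :
    cs.simple i * x = x * cs.simple j ∧ cs.length (x * cs.simple j) < cs.length x := by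
  have a1 := cs.length_mul_simple x j
  have a2 := cs.length_simple_mul x i
  have a3 := cs.length_mul_simple (cs.simple i * x) j
  have a4 := cs.length_simple_mul (x * cs.simple j) i
  rw [← mul_assoc] at a4
  have k1 : cs.length (cs.simple i * x) < cs.length x := by omega
  have k2 : cs.length (cs.simple i * x) < cs.length (cs.simple i * x * cs.simple j) := by omega
  have k3 : cs.length (x * cs.simple j) < cs.length x := by omega
  have k4 := sw_exch (cs := cs) (i := i) (j := j) (w := cs.simple i * x)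
    (by rwa [cs.simple_mul_simple_cancel_left]) k2
    (by rwa [cs.simple_mul_simple_cancel_left])
  rw [cs.simple_mul_simple_cancel_left] at k4
  refine ⟨?_, k3⟩
  conv_rhs => rw [k4]
  rw [cs.simple_mul_simple_cancel_right]

variable (cs) in
/-- One left step. -/
private def LS (L : W → ℕ) (i : B) (x y : W) (n : ℕ) : Prop :=
  (y = cs.simple i * x ∧ n = 0) ∨
    (y = x ∧ n = L (cs.simple i) ∧ cs.length (cs.simple i * x) < cs.length x)

variable (cs) in
/-- One right step. -/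
private def RS (L : W → ℕ) (j : B) (x y : W) (n : ℕ) : Prop :=
  (y = x * cs.simple j ∧ n = 0) ∨
    (y = x ∧ n = L (cs.simple j) ∧ cs.length (x * cs.simple j) < cs.length x)

private theorem sw_one {L : W → ℕ} (hL : IsWeight cs L) {i j : B} {x y z : W} {m n : ℕ}
    (h : LS cs L i x y m) (h' : RS cs L j y z n) :
    ∃ (y' : W) (m' n' : ℕ), RS cs L j x y' n' ∧ LS cs L i y' z m' ∧ m + n = m' + n' := by
  rcases h with ⟨rfl, rfl⟩ | ⟨rfl, rfl, hx⟩
  · rcases h' with ⟨rfl, rfl⟩ | ⟨rfl, rfl, hy⟩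
    · exact ⟨x * cs.simple j, 0, 0, Or.inl ⟨rfl, rfl⟩, Or.inl ⟨mul_assoc _ _ _, rfl⟩, rfl⟩
    · rcases lt_or_gt_of_ne (cs.length_mul_simple_ne x j) with h1 | h1
      · exact ⟨x, 0, L (cs.simple j), Or.inr ⟨rfl, rfl, h1⟩, Or.inl ⟨rfl, rfl⟩, rfl⟩
      · obtain ⟨h2, h3⟩ := sw_up (Or.inl ⟨h1, hy⟩)
        refine ⟨x * cs.simple j, L (cs.simple i), 0, Or.inl ⟨rfl, rfl⟩,
          Or.inr ⟨h2, rfl, ?_⟩, ?_⟩
        · rw [← h2, cs.simple_mul_simple_cancel_left, h2]
          exact h3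
        · rw [sw_weight hL h2]; omega
  · rcases h' with ⟨rfl, rfl⟩ | ⟨rfl, rfl, hy⟩
    · have hne := cs.length_simple_mul_ne (y * cs.simple j) i
      rcases lt_or_gt_of_ne hne with h1 | h1
      · exact ⟨y * cs.simple j, L (cs.simple i), 0, Or.inl ⟨rfl, rfl⟩, Or.inr ⟨rfl, rfl, h1⟩, rfl⟩
      · rw [← mul_assoc] at h1
        obtain ⟨h2, h3⟩ := sw_down (Or.inr ⟨hx, h1⟩)
        refine ⟨y, 0, L (cs.simple j), Or.inr ⟨rfl, rfl, h3⟩, Or.inl ⟨h2.symm, rfl⟩, ?_⟩
        rw [sw_weight hL h2]; omega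
    · exact ⟨z, L (cs.simple i), L (cs.simple j), Or.inr ⟨rfl, rfl, hy⟩, Or.inr ⟨rfl, rfl, hx⟩,
        rfl⟩

private theorem sw_one' {L : W → ℕ} (hL : IsWeight cs L) {i j : B} {x y z : W} {m n : ℕ}
    (h : RS cs L j x y n) (h' : LS cs L i y z m) :
    ∃ (y' : W) (m' n' : ℕ), LS cs L i x y' m' ∧ RS cs L j y' z n' ∧ m + n = m' + n' := by
  rcases h with ⟨rfl, rfl⟩ | ⟨rfl, rfl, hx⟩
  · rcases h' with ⟨rfl, rfl⟩ | ⟨rfl, rfl, hy⟩
    · exact ⟨cs.simple i * x, 0, 0, Or.inl ⟨rfl, rfl⟩, Or.inl ⟨(mul_assoc _ _ _).symm, rfl⟩, rfl⟩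
    · rcases lt_or_gt_of_ne (cs.length_simple_mul_ne x i) with h1 | h1
      · exact ⟨x, L (cs.simple i), 0, Or.inr ⟨rfl, rfl, h1⟩, Or.inl ⟨rfl, rfl⟩, rfl⟩
      · rw [← mul_assoc] at hy
        obtain ⟨h2, h3⟩ := sw_up (Or.inr ⟨h1, hy⟩)
        refine ⟨cs.simple i * x, 0, L (cs.simple j), Or.inl ⟨rfl, rfl⟩,
          Or.inr ⟨h2.symm, rfl, ?_⟩, ?_⟩
        · rw [h2, cs.simple_mul_simple_cancel_right]
          exact h3
        · rw [sw_weight hL h2]; omega
  · rcases h' with ⟨rfl, rfl⟩ | ⟨rfl, rfl, hy⟩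
    · have hne := cs.length_mul_simple_ne (cs.simple i * y) j
      rcases lt_or_gt_of_ne hne with h1 | h1
      · exact ⟨cs.simple i * y, 0, L (cs.simple j), Or.inl ⟨rfl, rfl⟩, Or.inr ⟨rfl, rfl, h1⟩, rfl⟩
      · obtain ⟨h2, h3⟩ := sw_down (Or.inl ⟨hx, h1⟩)
        refine ⟨y, L (cs.simple i), 0, Or.inr ⟨rfl, rfl, by rw [h2]; exact h3⟩,
          Or.inl ⟨h2, rfl⟩, ?_⟩
        rw [sw_weight hL h2]; omega
    · exact ⟨z, L (cs.simple i), L (cs.simple j), Or.inr ⟨rfl, rfl, hy⟩, Or.inr ⟨rfl, rfl, hx⟩,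
        rfl⟩

private theorem lpath_cons {L : W → ℕ} {i : B} {ω : List B} {x z : W} {n : ℕ} :
    LPath cs L (i :: ω) x z n ↔
      ∃ (y : W) (n1 n2 : ℕ), LPath cs L ω x y n1 ∧ LS cs L i y z n2 ∧ n = n1 + n2 := by
  constructor
  · intro h
    cases h with
    | move h => exact ⟨_, _, 0, h, Or.inl ⟨rfl, rfl⟩, rfl⟩
    | fold h h' => exact ⟨_, _, _, h, Or.inr ⟨rfl, rfl, h'⟩, add_comm _ _⟩
  · rintro ⟨y, n1, n2, h1, h2, rfl⟩
    rcases h2 with ⟨rfl, rfl⟩ | ⟨rfl, rfl, h3⟩
    · exact LPath.move h1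
    · rw [add_comm]
      exact LPath.fold h1 h3

private theorem rpath_cons {L : W → ℕ} {i : B} {ω : List B} {x z : W} {n : ℕ} :
    RPath cs L (i :: ω) x z n ↔
      ∃ (y : W) (n1 n2 : ℕ), RS cs L i x y n1 ∧ RPath cs L ω y z n2 ∧ n = n1 + n2 := by
  constructor
  · intro h
    cases h with
    | move h => exact ⟨_, 0, _, Or.inl ⟨rfl, rfl⟩, h, (zero_add _).symm⟩
    | fold h h' => exact ⟨_, _, _, Or.inr ⟨rfl, rfl, h'⟩, h, rfl⟩
  · rintro ⟨y, n1, n2, h2, h1, rfl⟩
    rcases h2 with ⟨rfl, rfl⟩ | ⟨rfl, rfl, h3⟩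
    · rw [zero_add]
      exact RPath.move h1
    · exact RPath.fold h1 h3

private theorem lpath_nil {L : W → ℕ} {x z : W} {n : ℕ} :
    LPath cs L [] x z n ↔ z = x ∧ n = 0 := by
  constructor
  · intro h
    cases h
    exact ⟨rfl, rfl⟩
  · rintro ⟨rfl, rfl⟩
    exact LPath.nil _

private theorem rpath_nil {L : W → ℕ} {x z : W} {n : ℕ} :
    RPath cs L [] x z n ↔ z = x ∧ n = 0 := by
  constructor
  · intro h
    cases h
    exact ⟨rfl, rfl⟩
  · rintro ⟨rfl, rfl⟩
    exact RPath.nil _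

private theorem sw_left {L : W → ℕ} (hL : IsWeight cs L) {i : B} (ω' : List B) :
    ∀ {x y z : W} {m n : ℕ}, LS cs L i x y m → RPath cs L ω' y z n →
    ∃ (y' : W) (m' n' : ℕ), RPath cs L ω' x y' n' ∧ LS cs L i y' z m' ∧ m + n = m' + n' := by
  induction ω' with
  | nil =>
    intro x y z m n h h'
    obtain ⟨rfl, rfl⟩ := rpath_nil.1 h'
    exact ⟨x, m, 0, RPath.nil _, h, rfl⟩
  | cons j ω' ih =>
    intro x y z m n h h'
    obtain ⟨y1, n1, n2, h1, h2, rfl⟩ := rpath_cons.1 h'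
    obtain ⟨x1, m1, k1, h3, h4, e1⟩ := sw_one hL h h1
    obtain ⟨y', m', n', h5, h6, e2⟩ := ih h4 h2
    exact ⟨y', m', k1 + n', rpath_cons.2 ⟨x1, k1, n', h3, h5, rfl⟩, h6, by omega⟩

private theorem sw_right {L : W → ℕ} (hL : IsWeight cs L) {i : B} (ω' : List B) :
    ∀ {x y z : W} {m n : ℕ}, RPath cs L ω' x y n → LS cs L i y z m →
    ∃ (y' : W) (m' n' : ℕ), LS cs L i x y' m' ∧ RPath cs L ω' y' z n' ∧ m + n = m' + n' := by
  induction ω' with
  | nil =>
    intro x y z m n h' h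
    obtain ⟨rfl, rfl⟩ := rpath_nil.1 h'
    exact ⟨z, m, 0, h, RPath.nil _, rfl⟩
  | cons j ω' ih =>
    intro x y z m n h' h
    obtain ⟨x1, n1, n2, h1, h2, rfl⟩ := rpath_cons.1 h'
    obtain ⟨x1', m', n', h3, h4, e1⟩ := ih h2 h
    obtain ⟨x', m'', n'', h5, h6, e2⟩ := sw_one' hL h1 h3
    exact ⟨x', m'', n'' + n', h5, rpath_cons.2 ⟨x1', n'', n', h6, h4, rfl⟩, by omega⟩

theorem swap {L : W → ℕ} (hL : IsWeight cs L) {ω ω' : List B} {x y z : W} {m n : ℕ}
    (h : LPath cs L ω x y m) (h' : RPath cs L ω' y z n) :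
    ∃ (y' : W) (m' n' : ℕ), RPath cs L ω' x y' n' ∧ LPath cs L ω y' z m' ∧ m + n = m' + n' := by
  induction ω generalizing y z m n with
  | nil =>
    obtain ⟨rfl, rfl⟩ := lpath_nil.1 h
    exact ⟨z, 0, n, h', LPath.nil _, rfl⟩
  | cons i ω ih =>
    obtain ⟨y1, n1, n2, h1, h2, rfl⟩ := lpath_cons.1 h
    obtain ⟨y1', m', n', h3, h4, e1⟩ := sw_left hL ω' h2 h'
    obtain ⟨y', m'', n'', h5, h6, e2⟩ := ih h1 h3
    exact ⟨y', m'' + m', n'', h5, lpath_cons.2 ⟨y1', m'', m', h6, h4, rfl⟩, by omega⟩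

theorem swap' {L : W → ℕ} (hL : IsWeight cs L) {ω ω' : List B} {x y z : W} {m n : ℕ}
    (h : RPath cs L ω' x y n) (h' : LPath cs L ω y z m) :
    ∃ (y' : W) (m' n' : ℕ), LPath cs L ω x y' m' ∧ RPath cs L ω' y' z n' ∧ m + n = m' + n' := by
  induction ω generalizing z m with
  | nil =>
    obtain ⟨rfl, rfl⟩ := lpath_nil.1 h'
    exact ⟨x, 0, n, LPath.nil _, h, rfl⟩
  | cons i ω ih =>
    obtain ⟨z1, n1, n2, h1, h2, rfl⟩ := lpath_cons.1 h'
    obtain ⟨y', m', n', h3, h4, e1⟩ := ih h1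
    obtain ⟨y'', m'', n'', h5, h6, e2⟩ := sw_right hL ω' h4 h2
    exact ⟨y'', m' + m'', n'', lpath_cons.2 ⟨y', m', m'', h3, h5, rfl⟩, h6, by omega⟩

end CoxBound
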