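import Pool.Agent.Lib.MP_0d46c2_al.Paths
import Pool.Agent.Lib.MP_0d46c2_al.Swap

set_option autoImplicit false
set_option linter.unusedSectionVars false

/-!
# Paths of `T_x T_y`
-/

namespace CoxBound

open CoxeterSystem

variable {B : Type*} [Fintype B] [DecidableEq B] {M : CoxeterMatrix B}
variable {W : Type*} [Group W] {cs : CoxeterSystem M W}

private theorem gp_aux {L : W → ℕ} (hL : IsWeight cs L) {ω₁ ω : List B} (h1 : cs.IsReduced ω₁)
    (h : cs.IsReduced ω) {z : W} {n : ℕ} :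
    LPath cs L ω₁ (cs.wordProd ω) z n ↔ RPath cs L ω (cs.wordProd ω₁) z n := by
  have e1 : cs.length (cs.wordProd ω₁ * 1) = ω₁.length + cs.length 1 := by
    rw [mul_one, cs.length_one, add_zero]; exact h1
  have e2 : cs.length (1 * cs.wordProd ω) = cs.length 1 + ω.length := by
    rw [one_mul, cs.length_one, zero_add]; exact h
  constructor
  · intro hl
    have hu := RPath.up (cs := cs) L ω 1
    rw [one_mul] at hu
    obtain ⟨y', m', n', g1, g2, g3⟩ := swap' hL hu hl
    obtain ⟨k1, k2⟩ := g1.unique e1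
    rw [mul_one] at k1
    subst k1 k2
    have : n' = n := by omega
    subst this
    exact g2
  · intro hr
    have hu := LPath.up (cs := cs) L ω₁ 1
    rw [mul_one] at hu
    obtain ⟨y', m', n', g1, g2, g3⟩ := swap hL hu hr
    obtain ⟨k1, k2⟩ := g1.unique e2
    rw [one_mul] at k1
    subst k1 k2
    have : m' = n := by omega
    subst this
    exact g2

theorem G_iff_R {L : W → ℕ} (hL : IsWeight cs L) {ω : List B} (hω : cs.IsReduced ω) {x z : W}
    {n : ℕ} : G cs L x (cs.wordProd ω) z n ↔ RPath cs L ω x z n := by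
  constructor
  · rintro ⟨ω₁, h1, rfl, h⟩
    exact (gp_aux hL h1 hω).1 h
  · intro h
    obtain ⟨ω₁, h1, rfl⟩ := cs.exists_isReduced x
    exact ⟨ω₁, h1, rfl, (gp_aux hL h1 hω).2 h⟩

theorem G_iff_L {L : W → ℕ} (hL : IsWeight cs L) {ω : List B} (hω : cs.IsReduced ω) {y z : W}
    {n : ℕ} : G cs L (cs.wordProd ω) y z n ↔ LPath cs L ω y z n := by
  constructor
  · intro h
    obtain ⟨ω', h', rfl⟩ := cs.exists_isReduced y
    exact (gp_aux hL hω h').2 ((G_iff_R hL h').1 h)
  · intro h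
    exact ⟨ω, hω, rfl, h⟩

theorem G.inv_left {L : W → ℕ} (hL : IsWeight cs L) {x y z : W} {n : ℕ} (h : G cs L x y z n) :
    G cs L x⁻¹ z y n := by
  obtain ⟨ω, h1, rfl, h2⟩ := h
  exact ⟨ω.reverse, (cs.isReduced_reverse_iff _).2 h1, by rw [cs.wordProd_reverse], h2.reverse⟩

theorem G.inv_right {L : W → ℕ} (hL : IsWeight cs L) {x y z : W} {n : ℕ} (h : G cs L x y z n) :
    G cs L z y⁻¹ x n := by
  obtain ⟨ω, h1, rfl⟩ := cs.exists_isReduced y
  have h2 := ((G_iff_R hL h1).1 h).reverse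
  rw [← cs.wordProd_reverse]
  exact (G_iff_R hL ((cs.isReduced_reverse_iff _).2 h1)).2 h2

private theorem gp_red {ωa ωb : List B} (ha : cs.IsReduced ωa) (hb : cs.IsReduced ωb)
    (hab : cs.length (cs.wordProd ωa * cs.wordProd ωb) =
      cs.length (cs.wordProd ωa) + cs.length (cs.wordProd ωb)) : cs.IsReduced (ωa ++ ωb) := by
  have ha' : cs.length (cs.wordProd ωa) = ωa.length := ha
  have hb' : cs.length (cs.wordProd ωb) = ωb.length := hb
  show cs.length (cs.wordProd (ωa ++ ωb)) = (ωa ++ ωb).length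
  rw [cs.wordProd_append, List.length_append, hab, ha', hb']

/-- `T_x T_y` with `y = a b` reduced. -/
theorem G.split_right {L : W → ℕ} (hL : IsWeight cs L) {x a b z : W} {n : ℕ}
    (hab : cs.length (a * b) = cs.length a + cs.length b) (h : G cs L x (a * b) z n) :
    ∃ (v : W) (m m' : ℕ), G cs L x a v m ∧ G cs L v b z m' ∧ n = m + m' := by
  obtain ⟨ωa, ha, rfl⟩ := cs.exists_isReduced a
  obtain ⟨ωb, hb, rfl⟩ := cs.exists_isReduced b
  rw [← cs.wordProd_append] at h
  obtain ⟨y, m, m', h1, h2, h3⟩ := ((G_iff_R hL (gp_red ha hb hab)).1 h).split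
  exact ⟨y, m, m', (G_iff_R hL ha).2 h1, (G_iff_R hL hb).2 h2, h3⟩

theorem G.comp_right {L : W → ℕ} (hL : IsWeight cs L) {x a b z v : W} {m m' : ℕ}
    (hab : cs.length (a * b) = cs.length a + cs.length b)
    (h : G cs L x a v m) (h' : G cs L v b z m') : G cs L x (a * b) z (m + m') := by
  obtain ⟨ωa, ha, rfl⟩ := cs.exists_isReduced a
  obtain ⟨ωb, hb, rfl⟩ := cs.exists_isReduced b
  rw [← cs.wordProd_append]
  exact (G_iff_R hL (gp_red ha hb hab)).2
    (((G_iff_R hL ha).1 h).append ((G_iff_R hL hb).1 h'))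

theorem G.of_reduced {L : W → ℕ} {x y : W}
    (h : cs.length (x * y) = cs.length x + cs.length y) : G cs L x y (x * y) 0 := by
  obtain ⟨ω, h1, rfl⟩ := cs.exists_isReduced x
  exact ⟨ω, h1, rfl, LPath.up L ω y⟩

theorem G.unique {L : W → ℕ} {x y z : W} {n : ℕ} (hG : G cs L x y z n)
    (h : cs.length (x * y) = cs.length x + cs.length y) : z = x * y ∧ n = 0 := by
  obtain ⟨ω, h1, rfl, h2⟩ := hG
  have h1' : cs.length (cs.wordProd ω) = ω.length := h1
  exact h2.unique (by rw [h, h1'])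

end CoxBound
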