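import Mathlib

set_option autoImplicit false
set_option linter.unusedSimpArgs false
set_option linter.unusedSectionVars false

/-!
# The geometric representation of a Coxeter group

Form, reflections, representation, Tits positivity, roots and inversion sets.
-/

namespace CoxBound

open Real

variable {B : Type*} [Fintype B] [DecidableEq B] (M : CoxeterMatrix B)

/-- The matrix `- cos (π / m_{ij})` (with `π / 0 = 0` this gives `-1` for an infinite label). -/
noncomputable def cmat : Matrix B B ℝ := Matrix.of fun i j => -Real.cos (Real.pi / (M i j : ℝ))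

/-- The symmetric bilinear form of the geometric representation. -/
noncomputable def bf : LinearMap.BilinForm ℝ (B → ℝ) := Matrix.toBilin' (cmat M)

/-- Simple root. -/
abbrev sroot (i : B) : B → ℝ := Pi.single i (1 : ℝ)

lemma bf_sroot (i j : B) : bf M (sroot i) (sroot j) = -Real.cos (Real.pi / (M i j : ℝ)) := by
  simp [bf, cmat, Matrix.toBilin'_single]

lemma bf_sroot_self (i : B) : bf M (sroot i) (sroot i) = 1 := by
  rw [bf_sroot, M.diagonal i]; simp

lemma bf_symm (u v : B → ℝ) : bf M u v = bf M v u := by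
  have h : ∀ u v : B → ℝ, bf M u v = ∑ i, ∑ j, u i * cmat M i j * v j := by
    intro u v
    simp only [bf, Matrix.toBilin'_apply]
  rw [h, h, Finset.sum_comm]
  refine Finset.sum_congr rfl fun i _ => Finset.sum_congr rfl fun j _ => ?_
  have : cmat M i j = cmat M j i := by
    simp only [cmat, Matrix.of_apply]; rw [M.symmetric i j]
  rw [this]; ring

/-- Reflection in a vector (of norm one). -/
noncomputable def rf (a : B → ℝ) : Module.End ℝ (B → ℝ) :=
  LinearMap.id - ((2 : ℝ) • bf M a).smulRight a

lemma rf_apply (a v : B → ℝ) : rf M a v = v - (2 * bf M a v) • a := by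
  simp [rf]

lemma rf_self {a : B → ℝ} (ha : bf M a a = 1) : rf M a a = -a := by
  rw [rf_apply, ha]; module

lemma rf_neg (a v : B → ℝ) : rf M (-a) v = rf M a v := by
  rw [rf_apply, rf_apply]; simp

lemma rf_rf {a : B → ℝ} (ha : bf M a a = 1) (v : B → ℝ) : rf M a (rf M a v) = v := by
  rw [rf_apply, rf_apply]
  simp only [map_sub, map_smul, smul_eq_mul, ha]
  module

lemma rf_sq {a : B → ℝ} (ha : bf M a a = 1) : rf M a * rf M a = 1 := by
  refine LinearMap.ext fun v => ?_
  simp [rf_rf M ha]

lemma bf_rf {a : B → ℝ} (ha : bf M a a = 1) (u v : B → ℝ) :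
    bf M (rf M a u) (rf M a v) = bf M u v := by
  rw [rf_apply, rf_apply]
  simp only [map_sub, map_smul, smul_eq_mul, LinearMap.sub_apply, LinearMap.smul_apply, ha,
    bf_symm M u a]
  ring

/-- Decomposition with respect to a nondegenerate plane. -/
lemma exists_decomp {a b : B → ℝ} (ha : bf M a a = 1) (hb : bf M b b = 1)
    (hab : bf M a b ^ 2 ≠ 1) (v : B → ℝ) :
    ∃ (p q : ℝ) (v' : B → ℝ), v = p • a + q • b + v' ∧ bf M a v' = 0 ∧ bf M b v' = 0 := by
  set c := bf M a b with hc
  have hba : bf M b a = c := by rw [bf_symm]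
  have hd : 1 - c ^ 2 ≠ 0 := fun h => hab (by linarith)
  refine ⟨(bf M a v - c * bf M b v) / (1 - c ^ 2), (bf M b v - c * bf M a v) / (1 - c ^ 2),
    v - ((bf M a v - c * bf M b v) / (1 - c ^ 2)) • a
      - ((bf M b v - c * bf M a v) / (1 - c ^ 2)) • b, by module, ?_, ?_⟩
  · simp only [map_sub, map_smul, smul_eq_mul, ha, hb, hba, ← hc]
    field_simp; ring
  · simp only [map_sub, map_smul, smul_eq_mul, ha, hb, hba, ← hc]
    field_simp; ring

lemma rfrf_perp {a b v : B → ℝ} (h1 : bf M a v = 0) (h2 : bf M b v = 0) :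
    (rf M a * rf M b) v = v := by
  rw [Module.End.mul_apply, rf_apply, rf_apply]
  simp [h1, h2]

lemma rfrf_pow_perp {a b v : B → ℝ} (h1 : bf M a v = 0) (h2 : bf M b v = 0) (n : ℕ) :
    ((rf M a * rf M b) ^ n) v = v := by
  induction n with
  | zero => simp
  | succ n ih => rw [pow_succ, Module.End.mul_apply, rfrf_perp M h1 h2, ih]

lemma rfrf_trace {a b : B → ℝ} (ha : bf M a a = 1) (hb : bf M b b = 1) (p q : ℝ) :
    (rf M a * rf M b) ((rf M a * rf M b) (p • a + q • b)) =
      (4 * bf M a b ^ 2 - 2) • (rf M a * rf M b) (p • a + q • b) - (p • a + q • b) := by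
  simp only [Module.End.mul_apply, rf_apply, map_sub, map_add, map_smul, smul_eq_mul, ha, hb,
    bf_symm M b a]
  module

/-- Powers of an operator with a three term recurrence. -/
lemma pow_of_trace (u : Module.End ℝ (B → ℝ)) (z : B → ℝ) (φ : ℝ)
    (h : u (u z) = (2 * Real.cos φ) • u z - z) (n : ℕ) :
    Real.sin φ • (u ^ n) z = Real.sin (n * φ) • u z - Real.sin (n * φ - φ) • z := by
  induction n with
  | zero => simp
  | succ n ih =>
    have h2 : (u ^ (n + 1)) z = u ((u ^ n) z) := by rw [pow_succ', Module.End.mul_apply]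
    have h3 : Real.sin ((n + 1 : ℕ) * φ) = 2 * Real.sin (n * φ) * Real.cos φ
        - Real.sin (n * φ - φ) := by
      push_cast
      rw [add_mul, one_mul, Real.sin_add, Real.sin_sub]; ring
    have h4 : ((n + 1 : ℕ) : ℝ) * φ - φ = n * φ := by push_cast; ring
    rw [h2, ← map_smul, ih, map_sub, map_smul, map_smul, h, h3, h4]
    module

lemma rfrf_pow_eq_one {a b : B → ℝ} (ha : bf M a a = 1) (hb : bf M b b = 1) {m : ℕ}
    (hm : 2 ≤ m) (hab : bf M a b = -Real.cos (Real.pi / m)) :
    (rf M a * rf M b) ^ m = 1 := by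
  have hm0 : (0 : ℝ) < m := by positivity
  have hpi := Real.pi_pos
  set θ : ℝ := Real.pi / m with hθ
  have hθ0 : 0 < θ := by positivity
  have hθ1 : θ ≤ Real.pi / 2 := by
    rw [hθ]; apply div_le_div_of_nonneg_left hpi.le (by norm_num)
    exact_mod_cast hm
  have hsin : 0 < Real.sin θ := Real.sin_pos_of_pos_of_lt_pi hθ0 (by linarith)
  have hc : bf M a b ^ 2 ≠ 1 := by
    rw [hab]
    intro h
    have := Real.sin_sq_add_cos_sq θ
    nlinarith
  rcases hm.eq_or_lt with rfl | hm3
  · -- m = 2
    have hc0 : bf M a b = 0 := by rw [hab, hθ]; simp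
    have hc0' : bf M b a = 0 := by rw [bf_symm]; exact hc0
    refine LinearMap.ext fun v => ?_
    rw [pow_two]
    simp only [Module.End.mul_apply, rf_apply, map_sub, map_smul, smul_eq_mul, ha, hb, hc0, hc0',
      Module.End.one_apply]
    module
  · have hφ : Real.sin (2 * θ) ≠ 0 := by
      have hθ2 : θ < Real.pi / 2 := by
        rw [hθ]; apply div_lt_div_of_pos_left hpi (by norm_num)
        exact_mod_cast hm3
      exact (Real.sin_pos_of_pos_of_lt_pi (by linarith) (by linarith)).ne'
    refine LinearMap.ext fun v => ?_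
    obtain ⟨p, q, v', rfl, h1, h2⟩ := exists_decomp M ha hb hc v
    rw [map_add, rfrf_pow_perp M h1 h2, Module.End.one_apply]
    congr 1
    have htr := rfrf_trace M ha hb p q
    have hcos : 4 * bf M a b ^ 2 - 2 = 2 * Real.cos (2 * θ) := by
      rw [hab, Real.cos_two_mul]; ring
    rw [hcos] at htr
    have key := pow_of_trace (rf M a * rf M b) (p • a + q • b) (2 * θ) htr m
    have e1 : (m : ℝ) * (2 * θ) = 2 * Real.pi := by rw [hθ]; field_simp
    rw [e1, Real.sin_two_pi, zero_smul, zero_sub, Real.sin_sub, Real.sin_two_pi,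
      Real.cos_two_pi, zero_mul, zero_sub, one_mul, neg_smul, neg_neg] at key
    exact smul_right_injective _ hφ key

lemma sr_liftable : M.IsLiftable (fun i => rf M (sroot i)) := by
  intro i j
  by_cases hij : i = j
  · subst hij
    rw [M.diagonal i, pow_one]; exact rf_sq M (bf_sroot_self M i)
  · rcases Nat.eq_zero_or_pos (M i j) with h0 | hpos
    · rw [h0, pow_zero]
    · have h1 := M.off_diagonal i j hij
      exact rfrf_pow_eq_one M (bf_sroot_self M i) (bf_sroot_self M j) (by omega) (bf_sroot M i j)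

variable {M} {W : Type*} [Group W] (cs : CoxeterSystem M W)

/-- The geometric representation. -/
noncomputable def geo : W →* Module.End ℝ (B → ℝ) :=
  cs.lift ⟨fun i => rf M (sroot i), sr_liftable M⟩

lemma geo_simple (i : B) : geo cs (cs.simple i) = rf M (sroot i) :=
  cs.lift_apply_simple (sr_liftable M) i

lemma geo_simple_apply (i : B) (v : B → ℝ) :
    geo cs (cs.simple i) v = v - (2 * bf M (sroot i) v) • sroot i := by
  rw [geo_simple, rf_apply]

lemma geo_mul (w w' : W) (v : B → ℝ) : geo cs (w * w') v = geo cs w (geo cs w' v) := by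
  rw [map_mul, Module.End.mul_apply]

lemma geo_inv_apply (w : W) (v : B → ℝ) : geo cs w⁻¹ (geo cs w v) = v := by
  rw [← geo_mul, inv_mul_cancel, map_one, Module.End.one_apply]

lemma geo_apply_inv (w : W) (v : B → ℝ) : geo cs w (geo cs w⁻¹ v) = v := by
  rw [← geo_mul, mul_inv_cancel, map_one, Module.End.one_apply]

lemma geo_simple_simple (i : B) (v : B → ℝ) :
    geo cs (cs.simple i) (geo cs (cs.simple i) v) = v := by
  rw [← geo_mul, cs.simple_mul_simple_self, map_one, Module.End.one_apply]

lemma bf_geo (w : W) (u v : B → ℝ) : bf M (geo cs w u) (geo cs w v) = bf M u v := by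
  induction w using cs.simple_induction_left with
  | one => simp
  | mul_simple_left w i ih =>
    rw [geo_mul, geo_mul, geo_simple, bf_rf M (bf_sroot_self M i), ih]

end CoxBound
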