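import Pool.Agent.Lib.MP_0d46c2_al.Fold

set_option autoImplicit false
set_option linter.unusedSimpArgs false
set_option linter.unusedSectionVars false

/-!
# Structure constants of the Hecke algebra and crossing families
-/

namespace CoxBound

open Real CoxeterSystem

/-- All exponents of `p` are at most `N`. -/
def Bdd (p : LaurentPolynomial ℤ) (N : ℤ) : Prop := ∀ k : ℤ, N < k → p.coeff k = 0

lemma Bdd.mono {p : LaurentPolynomial ℤ} {N N' : ℤ} (h : Bdd p N) (hN : N ≤ N') : Bdd p N' :=
  fun k hk => h k (by omega)

lemma Bdd.add {p q : LaurentPolynomial ℤ} {N : ℤ} (h : Bdd p N) (h' : Bdd q N) :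
    Bdd (p + q) N := by
  intro k hk
  have : (p + q).coeff k = p.coeff k + q.coeff k := by simp
  rw [this, h k hk, h' k hk, add_zero]

lemma Bdd.zero (N : ℤ) : Bdd 0 N := fun k _ => by simp

lemma coeff_T_mul (n : ℤ) (p : LaurentPolynomial ℤ) (k : ℤ) :
    (LaurentPolynomial.T n * p).coeff k = p.coeff (k - n) := by
  induction p using LaurentPolynomial.induction_on' with
  | add p q hp hq =>
    have h : ∀ (a b : LaurentPolynomial ℤ) (j : ℤ), (a + b).coeff j = a.coeff j + b.coeff j :=
      fun a b j => by simp
    rw [mul_add, h, h, hp, hq]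
  | C_mul_T m a =>
    have : (LaurentPolynomial.T n : LaurentPolynomial ℤ) *
        (LaurentPolynomial.C a * LaurentPolynomial.T m) =
        LaurentPolynomial.C a * LaurentPolynomial.T (n + m) := by
      rw [LaurentPolynomial.T_add]; ring
    rw [this, ← LaurentPolynomial.single_eq_C_mul_T, ← LaurentPolynomial.single_eq_C_mul_T]
    simp only [AddMonoidAlgebra.coeff_single]
    rw [Finsupp.single_apply, Finsupp.single_apply]
    congr 1
    apply propext
    constructor <;> intro h <;> omega

lemma Bdd.xi_mul {p : LaurentPolynomial ℤ} {N : ℤ} (h : Bdd p N) (n : ℕ) :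
    Bdd ((LaurentPolynomial.T ((n : ℕ) : ℤ) - LaurentPolynomial.T (-((n : ℕ) : ℤ))) * p)
      ((n : ℤ) + N) := by
  intro k hk
  rw [sub_mul]
  have : (LaurentPolynomial.T ((n : ℕ) : ℤ) * p - LaurentPolynomial.T (-((n : ℕ) : ℤ)) * p).coeff k
      = (LaurentPolynomial.T ((n : ℕ) : ℤ) * p).coeff k
        - (LaurentPolynomial.T (-((n : ℕ) : ℤ)) * p).coeff k := by simp
  rw [this, coeff_T_mul, coeff_T_mul, h _ (by omega), h _ (by omega), sub_zero]

lemma Bdd.one : Bdd (1 : LaurentPolynomial ℤ) 0 := by
  intro k hk
  rw [← LaurentPolynomial.T_zero, LaurentPolynomial.T_apply, if_neg (by omega)]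

lemma Bdd.degree_le {p : LaurentPolynomial ℤ} {N : ℤ} (h : Bdd p N) :
    LaurentPolynomial.degree p ≤ (N : WithBot ℤ) := by
  unfold LaurentPolynomial.degree
  apply Finset.max_le
  intro k hk
  rw [Finsupp.mem_support_iff] at hk
  by_contra hcon
  push Not at hcon
  apply hk
  exact h k (by exact_mod_cast hcon)

variable {B : Type*} [Fintype B] [DecidableEq B] {M : CoxeterMatrix B}
variable {W : Type*} [Group W] (cs : CoxeterSystem M W)

/-- Left multiplication by `T_s` on coefficient functions. -/
noncomputable def lop (L : W → ℕ) (i : B) (g : W → LaurentPolynomial ℤ) :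
    W → LaurentPolynomial ℤ := fun w =>
  if cs.length w < cs.length (cs.simple i * w) then g (cs.simple i * w)
  else g (cs.simple i * w) + (LaurentPolynomial.T ((L (cs.simple i) : ℕ) : ℤ) -
    LaurentPolynomial.T (-((L (cs.simple i) : ℕ) : ℤ))) * g w

open Classical in
/-- Basis element. -/
noncomputable def dlt (y : W) : W → LaurentPolynomial ℤ := fun z => if z = y then 1 else 0

/-- The scalar `q^{L(s)} - q^{-L(s)}`. -/
noncomputable def xi (L : W → ℕ) (i : B) : LaurentPolynomial ℤ :=
  LaurentPolynomial.T ((L (cs.simple i) : ℕ) : ℤ) -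
    LaurentPolynomial.T (-((L (cs.simple i) : ℕ) : ℤ))

lemma lop_add (L : W → ℕ) (i : B) (g h : W → LaurentPolynomial ℤ) :
    lop cs L i (g + h) = lop cs L i g + lop cs L i h := by
  funext w
  simp only [lop, Pi.add_apply]
  split_ifs
  · rfl
  · ring

lemma lop_smul (L : W → ℕ) (i : B) (c : LaurentPolynomial ℤ) (g : W → LaurentPolynomial ℤ) :
    lop cs L i (fun w => c * g w) = fun w => c * lop cs L i g w := by
  funext w
  simp only [lop]
  split_ifs
  · rfl
  · ring

/-- Left multiplication by `T_ω`. -/
noncomputable def lops (L : W → ℕ) (ω : List B) (g : W → LaurentPolynomial ℤ) :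
    W → LaurentPolynomial ℤ := ω.foldr (fun i h => lop cs L i h) g

lemma lops_nil (L : W → ℕ) (g : W → LaurentPolynomial ℤ) : lops cs L [] g = g := rfl

lemma lops_cons (L : W → ℕ) (i : B) (ω : List B) (g : W → LaurentPolynomial ℤ) :
    lops cs L (i :: ω) g = lop cs L i (lops cs L ω g) := rfl

lemma lops_append (L : W → ℕ) (i : B) (ω : List B) (g : W → LaurentPolynomial ℤ) :
    lops cs L (ω ++ [i]) g = lops cs L ω (lop cs L i g) := by
  simp [lops]

lemma lops_add (L : W → ℕ) (ω : List B) (g h : W → LaurentPolynomial ℤ) :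
    lops cs L ω (g + h) = lops cs L ω g + lops cs L ω h := by
  induction ω with
  | nil => rfl
  | cons i ω ih => rw [lops_cons, ih, lop_add, lops_cons, lops_cons]

lemma lops_smul (L : W → ℕ) (ω : List B) (c : LaurentPolynomial ℤ)
    (g : W → LaurentPolynomial ℤ) :
    lops cs L ω (fun w => c * g w) = fun w => c * lops cs L ω g w := by
  induction ω with
  | nil => rfl
  | cons i ω ih => rw [lops_cons, ih, lop_smul, lops_cons]

lemma lop_dlt_of_lt (L : W → ℕ) (i : B) (y : W) (h : cs.length y < cs.length (cs.simple i * y)) :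
    lop cs L i (dlt y) = dlt (cs.simple i * y) := by
  classical
  funext w
  have e : (cs.simple i * w = y) = (w = cs.simple i * y) := by
    apply propext
    constructor
    · rintro rfl; rw [cs.simple_mul_simple_cancel_left]
    · rintro rfl; rw [cs.simple_mul_simple_cancel_left]
  simp only [lop, dlt, e]
  split_ifs with h1 h2 h3 h4 h5 <;> try simp
  · subst h4; omega
  · subst h5; omega

lemma lop_dlt_of_gt (L : W → ℕ) (i : B) (y : W) (h : cs.length (cs.simple i * y) < cs.length y) :
    lop cs L i (dlt y) = dlt (cs.simple i * y) + fun w => xi cs L i * dlt y w := by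
  classical
  funext w
  have e : (cs.simple i * w = y) = (w = cs.simple i * y) := by
    apply propext
    constructor
    · rintro rfl; rw [cs.simple_mul_simple_cancel_left]
    · rintro rfl; rw [cs.simple_mul_simple_cancel_left]
  simp only [lop, dlt, e, Pi.add_apply, xi]
  by_cases h1 : cs.length w < cs.length (cs.simple i * w)
  · rw [if_pos h1]
    have : w ≠ y := by rintro rfl; omega
    rw [if_neg this, mul_zero, add_zero]
  · rw [if_neg h1]

/-- The hypotheses on the structure constants. -/
structure IsStructConst (L : W → ℕ) (f : W → W → W → LaurentPolynomial ℤ) : Prop where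
  one_self : ∀ y : W, f 1 y y = 1
  one_ne : ∀ y z : W, y ≠ z → f 1 y z = 0
  step_lt : ∀ (i : B) (x y w : W), cs.length x < cs.length (cs.simple i * x) →
        cs.length w < cs.length (cs.simple i * w) →
        f (cs.simple i * x) y w = f x y (cs.simple i * w)
  step_gt : ∀ (i : B) (x y w : W), cs.length x < cs.length (cs.simple i * x) →
        cs.length (cs.simple i * w) < cs.length w →
        f (cs.simple i * x) y w = f x y (cs.simple i * w) +
          (LaurentPolynomial.T ((L (cs.simple i) : ℕ) : ℤ) -
            LaurentPolynomial.T (-((L (cs.simple i) : ℕ) : ℤ))) * f x y w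

variable {cs}

lemma IsStructConst.eq_lops {L : W → ℕ} {f : W → W → W → LaurentPolynomial ℤ}
    (hf : IsStructConst cs L f) (ω : List B) (hω : cs.IsReduced ω) (y : W) :
    f (cs.wordProd ω) y = lops cs L ω (dlt y) := by
  classical
  induction ω with
  | nil =>
    funext z
    rw [lops_nil, wordProd_nil]
    simp only [dlt]
    split_ifs with h
    · rw [h]; exact hf.one_self y
    · exact hf.one_ne y z (Ne.symm h)
  | cons i ω ih =>
    have hω' : cs.IsReduced ω := by simpa using hω.drop 1
    have ih' := ih hω'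
    rw [lops_cons, ← ih', wordProd_cons]
    have hlt : cs.length (cs.wordProd ω) < cs.length (cs.simple i * cs.wordProd ω) := by
      rw [← wordProd_cons, hω.eq, hω'.eq]; simp
    funext w
    simp only [lop]
    split_ifs with h
    · exact hf.step_lt i _ y w hlt h
    · have hne := cs.length_simple_mul_ne w i
      exact hf.step_gt i _ y w hlt (by omega)

/-- Main bound: degrees of structure constants are bounded by weights of crossing families. -/
theorem lops_bound (L : W → ℕ) (wt : (B → ℝ) → ℕ) (hw0 : ∀ i, wt (sroot i) = L (cs.simple i))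
    (hwt : ∀ (i : B) (γ : B → ℝ), IsRoot cs γ → wt (geo cs (cs.simple i) γ) = wt γ)
    (ω : List B) (hω : cs.IsReduced ω) (y z : W) :
    ∃ K : Finset (B → ℝ), ↑K ⊆ common cs (cs.wordProd ω) y⁻¹ ∧ Crossing M K ∧
      Bdd (lops cs L ω (dlt y) z) ((∑ γ ∈ K, wt γ : ℕ) : ℤ) := by
  classical
  induction ω using List.reverseRecOn generalizing y with
  | nil =>
    refine ⟨∅, by simp, by intro γ hγ; simp at hγ, ?_⟩
    rw [lops_nil]
    simp only [dlt, Finset.sum_empty, Nat.cast_zero]
    split_ifs
    · exact Bdd.one
    · exact Bdd.zero _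
  | append_singleton ω i ih =>
    have hω' : cs.IsReduced ω := by
      have := hω.take ω.length
      simpa using this
    set x := cs.wordProd (ω ++ [i]) with hx
    have hxi : x * cs.simple i = cs.wordProd ω := by
      rw [hx, wordProd_append, wordProd_singleton, cs.simple_mul_simple_cancel_right]
    have hlen : cs.length (x * cs.simple i) < cs.length x := by
      rw [hxi, hω'.eq, hx, hω.eq]; simp
    have hxneg := geo_sroot_nonpos cs hlen
    rw [lops_append]
    have hinv : (cs.simple i * y)⁻¹ = y⁻¹ * cs.simple i := by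
      rw [mul_inv_rev, cs.inv_simple]
    obtain ⟨K1', h1a, h1b, h1c⟩ := ih hω' (cs.simple i * y)
    rw [← hxi, hinv] at h1a
    obtain ⟨K1, k1a, k1b, k1c⟩ := step_move x y⁻¹ i hxneg wt (hwt i) K1' h1a h1b
    rcases cs.length_simple_mul y i with hl | hl
    · rw [lop_dlt_of_lt cs L i y (by omega)]
      exact ⟨K1, k1a, k1b, by rw [k1c]; exact h1c⟩
    · rw [lop_dlt_of_gt cs L i y (by omega), lops_add, lops_smul, Pi.add_apply]
      obtain ⟨K2', h2a, h2b, h2c⟩ := ih hω' y
      rw [← hxi] at h2a
      have hyneg : geo cs y⁻¹ (sroot i) ≤ 0 := by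
        apply geo_sroot_nonpos
        rw [← cs.length_inv (y⁻¹ * cs.simple i), ← cs.length_inv y⁻¹, mul_inv_rev, inv_inv,
          cs.inv_simple]
        omega
      obtain ⟨K2, k2a, k2b, k2c⟩ := step_fold x y⁻¹ i hxneg hyneg wt (hwt i) K2' h2a h2b
      have hb2 : Bdd (xi cs L i * lops cs L ω (dlt y) z) ((∑ γ ∈ K2, wt γ : ℕ) : ℤ) := by
        have := h2c.xi_mul (L (cs.simple i))
        rw [k2c, hw0]
        push_cast
        push_cast at this
        exact this
      have hb1 : Bdd (lops cs L ω (dlt (cs.simple i * y)) z) ((∑ γ ∈ K1, wt γ : ℕ) : ℤ) := by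
        rw [k1c]; exact h1c
      rcases le_total (∑ γ ∈ K1, wt γ) (∑ γ ∈ K2, wt γ) with hle | hle
      · exact ⟨K2, k2a, k2b, (hb1.mono (by exact_mod_cast hle)).add hb2⟩
      · exact ⟨K1, k1a, k1b, hb1.add (hb2.mono (by exact_mod_cast hle))⟩

/-- The geometric representation is faithful. -/
lemma geo_eq_one {w : W} (h : geo cs w = 1) : w = 1 := by
  by_contra hne
  obtain ⟨i, hi⟩ := cs.exists_rightDescent_of_ne_one hne
  have h1 := geo_sroot_nonpos cs hi
  rw [h, Module.End.one_apply] at h1
  exact (isRoot_sroot (cs := cs) i).not_both (sroot_nonneg i) h1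

lemma geo_injective : Function.Injective (geo cs) := by
  intro a b h
  have : geo cs (a * b⁻¹) = 1 := by
    rw [map_mul, h, ← map_mul, mul_inv_cancel, map_one]
  exact mul_inv_eq_one.1 (geo_eq_one this)

/-- Weight functions are constant on orbits of simple roots. -/
lemma weight_eq {L : W → ℕ}
    (hL : ∀ w w' : W, cs.length (w * w') = cs.length w + cs.length w' → L (w * w') = L w + L w')
    {w w' : W} {i j : B} (h : geo cs w (sroot i) = geo cs w' (sroot j)) :
    L (cs.simple i) = L (cs.simple j) := by
  have h1 : geo cs (w'⁻¹ * w) (sroot i) = sroot j := by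
    rw [geo_mul, h, geo_inv_apply]
  set v := w'⁻¹ * w
  have h2 : v * cs.simple i * v⁻¹ = cs.simple j := by
    apply geo_injective (cs := cs)
    refine LinearMap.ext fun u => ?_
    rw [geo_refl, h1, geo_simple]
  have h3 : v * cs.simple i = cs.simple j * v := by
    rw [← h2]; group
  rcases cs.length_mul_simple v i with h4 | h4
  · have e1 := hL v (cs.simple i) (by rw [h4, cs.length_simple])
    have e2 := hL (cs.simple j) v (by rw [← h3, h4, cs.length_simple, add_comm])
    rw [← h3, e1] at e2
    omega
  · have e1 := hL (v * cs.simple i) (cs.simple i) (by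
      rw [cs.simple_mul_simple_cancel_right, cs.length_simple]; omega)
    have e2 := hL (cs.simple j) (cs.simple j * v) (by
      rw [cs.simple_mul_simple_cancel_left, cs.length_simple, ← h3]; omega)
    rw [cs.simple_mul_simple_cancel_right] at e1
    rw [cs.simple_mul_simple_cancel_left, ← h3] at e2
    omega

end CoxBound
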