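import Pool.Agent.Lib.MP_0d46c2_al.CoxA

set_option autoImplicit false
set_option linter.unusedSectionVars false

/-!
# Optimal fold patterns
-/

namespace CoxBound

open CoxeterSystem

variable {B : Type*} [Fintype B] [DecidableEq B] {M : CoxeterMatrix B}
variable {W : Type*} [Group W] (cs : CoxeterSystem M W)

/-- `s` is a right descent of `x`. -/
def D (x : W) (s : B) : Prop := cs.length (x * cs.simple s) < cs.length x

open Classical in
/-- The longer one of `x` and `x s`. -/
noncomputable def upp (x : W) (s : B) : W := if D cs x s then x else x * cs.simple s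

variable {cs}

lemma not_D {x : W} {s : B} : ¬ D cs x s ↔ cs.length x < cs.length (x * cs.simple s) := by
  unfold D
  have := cs.length_mul_simple_ne x s
  constructor <;> intro h <;> omega

lemma upp_of_D {x : W} {s : B} (h : D cs x s) : upp cs x s = x := if_pos h
lemma upp_of_not_D {x : W} {s : B} (h : ¬ D cs x s) : upp cs x s = x * cs.simple s := if_neg h

/-- If the status of `s` changes between `v` and `t v` then `t v = v s`. -/
lemma cross {v : W} {t s : B} (h1 : ¬ D cs v s) (h2 : D cs (cs.simple t * v) s) :
    cs.simple t * v = v * cs.simple s := by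
  rw [not_D] at h1
  unfold D at h2
  rcases cs.length_simple_mul v t with h | h
  · exact exch (by omega) h1 h2
  · exfalso
    have h3 := cs.length_simple_mul (v * cs.simple s) t
    rw [← mul_assoc] at h3
    rcases h3 with h3 | h3 <;> rcases cs.length_mul_simple v s with h4 | h4 <;> omega

lemma cross' {v : W} {t s : B} (h1 : D cs v s) (h2 : ¬ D cs (cs.simple t * v) s) :
    cs.simple t * v = v * cs.simple s := by
  have h := cross (cs := cs) (v := cs.simple t * v) (t := t) h2
    (by rw [cs.simple_mul_simple_cancel_left]; exact h1)
  rw [cs.simple_mul_simple_cancel_left] at h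
  conv_rhs => rw [h]
  rw [cs.simple_mul_simple_cancel_right]

lemma pw_nil : pw cs [] = 1 := rfl
lemma pw_fold (i : B) (p : List (B × Bool)) : pw cs ((i, true) :: p) = pw cs p := rfl
lemma pw_move (i : B) (p : List (B × Bool)) :
    pw cs ((i, false) :: p) = cs.simple i * pw cs p := rfl
lemma pwt_fold (L : W → ℕ) (i : B) (p : List (B × Bool)) :
    pwt cs L ((i, true) :: p) = L (cs.simple i) + pwt cs L p := rfl
lemma pwt_move (L : W → ℕ) (i : B) (p : List (B × Bool)) :
    pwt cs L ((i, false) :: p) = pwt cs L p := by
  simp [pwt]
lemma valid_nil (x : W) : Valid cs [] x := trivial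
lemma valid_fold (i : B) (p : List (B × Bool)) (x : W) : Valid cs ((i, true) :: p) x ↔
    Valid cs p x ∧ cs.length (cs.simple i * (pw cs p * x)) < cs.length (pw cs p * x) := by
  simp [Valid]
lemma valid_move (i : B) (p : List (B × Bool)) (x : W) : Valid cs ((i, false) :: p) x ↔
    Valid cs p x := by
  simp [Valid]

lemma valid_iff {p : List (B × Bool)} {x : W} : Valid cs p x ↔
    ∀ (i : B) (q : List (B × Bool)), (i, true) :: q <:+ p →
      cs.length (cs.simple i * (pw cs q * x)) < cs.length (pw cs q * x) := by
  induction p with
  | nil =>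
    constructor
    · intro _ i q h; simp at h
    · intro _; trivial
  | cons a p ih =>
    obtain ⟨i, b⟩ := a
    cases b with
    | false =>
      rw [valid_move, ih]
      constructor
      · intro h j q hq
        rw [List.suffix_cons_iff] at hq
        rcases hq with hq | hq
        · simp at hq
        · exact h j q hq
      · intro h j q hq
        exact h j q (hq.trans (List.suffix_cons _ _))
    | true =>
      rw [valid_fold, ih]
      constructor
      · rintro ⟨h, h'⟩ j q hq
        rw [List.suffix_cons_iff] at hq
        rcases hq with hq | hq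
        · simp only [List.cons.injEq, Prod.mk.injEq, and_true] at hq
          obtain ⟨rfl, rfl⟩ := hq
          exact h'
        · exact h j q hq
      · intro h
        exact ⟨fun j q hq => h j q (hq.trans (List.suffix_cons _ _)), h i p List.suffix_rfl⟩

/-- Raising lemma. -/
theorem raise {L : W → ℕ} (hL : IsWeight cs L) (p : List (B × Bool)) (x : W) (s : B)
    (hv : Valid cs p x) :
    ∃ p' : List (B × Bool), p'.map Prod.fst = p.map Prod.fst ∧ Valid cs p' (upp cs x s) ∧
      pw cs p' * upp cs x s = upp cs (pw cs p * x) s ∧ pwt cs L p ≤ pwt cs L p' ∧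
      (pwt cs L p < pwt cs L p' ∨ ∀ q, q <:+ p → (D cs (pw cs q * x) s ↔ D cs x s)) := by
  induction p with
  | nil =>
    refine ⟨[], rfl, trivial, by simp [pw_nil], le_rfl, Or.inr ?_⟩
    intro q hq
    rw [List.suffix_nil] at hq
    subst hq
    simp [pw_nil]
  | cons a p ih =>
    obtain ⟨i, b⟩ := a
    cases b with
    | true =>
      rw [valid_fold] at hv
      obtain ⟨p', h1, h2, h3, h4, h5⟩ := ih hv.1
      refine ⟨(i, true) :: p', by simp [h1], ?_, ?_, ?_, ?_⟩
      · rw [valid_fold]
        refine ⟨h2, ?_⟩
        rw [h3]
        by_cases hd : D cs (pw cs p * x) s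
        · rw [upp_of_D hd]; exact hv.2
        · rw [upp_of_not_D hd]
          rw [not_D] at hd
          have h6 := cs.length_mul_simple (pw cs p * x) s
          have h7 := cs.length_mul_simple (cs.simple i * (pw cs p * x)) s
          have h8 := cs.length_simple_mul (pw cs p * x) i
          have h9 := cs.length_simple_mul_ne (pw cs p * x * cs.simple s) i
          have h10 := hv.2
          rw [← mul_assoc (cs.simple i)]
          rw [← mul_assoc (cs.simple i)] at h9
          omega
      · rw [pw_fold, pw_fold, h3]
      · rw [pwt_fold, pwt_fold]; omega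
      · rcases h5 with h5 | h5
        · left; rw [pwt_fold, pwt_fold]; omega
        · right
          intro q hq
          rw [List.suffix_cons_iff] at hq
          rcases hq with hq | hq
          · subst hq
            rw [pw_fold]
            exact h5 p List.suffix_rfl
          · exact h5 q hq
    | false =>
      rw [valid_move] at hv
      obtain ⟨p', h1, h2, h3, h4, h5⟩ := ih hv
      have hLi := hL.pos i
      by_cases hst : D cs (pw cs p * x) s ↔ D cs (cs.simple i * (pw cs p * x)) s
      · refine ⟨(i, false) :: p', by simp [h1], ?_, ?_, ?_, ?_⟩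
        · rw [valid_move]; exact h2
        · rw [pw_move, pw_move, mul_assoc, h3, mul_assoc]
          by_cases hd : D cs (pw cs p * x) s
          · rw [upp_of_D hd, upp_of_D (hst.1 hd)]
          · rw [upp_of_not_D hd, upp_of_not_D (fun h => hd (hst.2 h))]
            simp only [mul_assoc]
        · rw [pwt_move, pwt_move]; exact h4
        · rcases h5 with h5 | h5
          · left; rw [pwt_move, pwt_move]; exact h5
          · right
            intro q hq
            rw [List.suffix_cons_iff] at hq
            rcases hq with hq | hq
            · subst hq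
              rw [pw_move, mul_assoc, ← hst]
              exact h5 p List.suffix_rfl
            · exact h5 q hq
      · -- crossing
        have key : upp cs (cs.simple i * (pw cs p * x)) s = upp cs (pw cs p * x) s ∧
            cs.length (cs.simple i * upp cs (pw cs p * x) s) <
              cs.length (upp cs (pw cs p * x) s) := by
          by_cases hd : D cs (pw cs p * x) s
          · have hd' : ¬ D cs (cs.simple i * (pw cs p * x)) s := fun h => hst ⟨fun _ => h, fun _ => hd⟩
            have hc := cross' hd hd'
            rw [upp_of_D hd, upp_of_not_D hd']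
            refine ⟨?_, ?_⟩
            · rw [hc, cs.simple_mul_simple_cancel_right]
            · rw [hc]; exact hd
          · have hd' : D cs (cs.simple i * (pw cs p * x)) s := by
              by_contra h
              exact hst ⟨fun h' => absurd h' hd, fun h' => absurd h' h⟩
            have hc := cross hd hd'
            rw [upp_of_not_D hd, upp_of_D hd']
            refine ⟨hc, ?_⟩
            rw [← hc, cs.simple_mul_simple_cancel_left, hc]
            exact not_D.1 hd
        refine ⟨(i, true) :: p', by simp [h1], ?_, ?_, ?_, ?_⟩
        · rw [valid_fold]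
          refine ⟨h2, ?_⟩
          rw [h3]; exact key.2
        · rw [pw_fold, pw_move, h3, mul_assoc, key.1]
        · rw [pwt_fold, pwt_move]; omega
        · left; rw [pwt_fold, pwt_move]; omega

lemma Opt.status {L : W → ℕ} (hL : IsWeight cs L) {p : List (B × Bool)} {x : W}
    (h : Opt cs L p x) (s : B) {q : List (B × Bool)} (hq : q <:+ p) :
    D cs (pw cs q * x) s ↔ D cs x s := by
  obtain ⟨p', h1, h2, h3, h4, h5⟩ := raise hL p x s h.1
  have h6 := h.2 p' _ h1 h2
  rcases h5 with h5 | h5
  · omega
  · exact h5 q hq

lemma Opt.of_valid {L : W → ℕ} {p : List (B × Bool)} {x y : W} (h : Opt cs L p x)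
    (hy : Valid cs p y) : Opt cs L p y := ⟨hy, h.2⟩

lemma Opt.up {L : W → ℕ} (hL : IsWeight cs L) {p : List (B × Bool)} {x : W}
    (h : Opt cs L p x) {s : B} (hs : ¬ D cs x s) : Opt cs L p (x * cs.simple s) := by
  refine h.of_valid (valid_iff.2 fun i q hq => ?_)
  have h1 := (valid_iff.1 h.1) i q hq
  have h2 : ¬ D cs (pw cs q * x) s := by
    rw [h.status hL s ((List.suffix_cons _ _).trans hq)]
    exact hs
  rw [not_D] at h2
  have h6 := cs.length_mul_simple (pw cs q * x) s
  have h7 := cs.length_mul_simple (cs.simple i * (pw cs q * x)) s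
  have h8 := cs.length_simple_mul (pw cs q * x) i
  have h9 := cs.length_simple_mul_ne (pw cs q * x * cs.simple s) i
  rw [← mul_assoc (pw cs q), ← mul_assoc (cs.simple i)]
  rw [← mul_assoc (cs.simple i)] at h9
  omega

variable (cs) in
/-- Prefix order (right weak order). -/
def Pre (x y : W) : Prop := cs.length x + cs.length (x⁻¹ * y) = cs.length y

lemma Pre.refl (x : W) : Pre cs x x := by simp [Pre]

lemma Pre.trans {x y z : W} (h : Pre cs x y) (h' : Pre cs y z) : Pre cs x z := by
  unfold Pre at *
  have h1 := cs.length_mul_le (x⁻¹ * y) (y⁻¹ * z)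
  have h2 : x⁻¹ * y * (y⁻¹ * z) = x⁻¹ * z := by group
  have h3 := cs.length_mul_le x (x⁻¹ * z)
  have h4 : x * (x⁻¹ * z) = z := by group
  rw [h2] at h1
  rw [h4] at h3
  omega

lemma Pre.of_mul {x g : W} (h : cs.length (x * g) = cs.length x + cs.length g) :
    Pre cs x (x * g) := by
  unfold Pre
  rw [h, inv_mul_cancel_left]

/-- A proper prefix extends by a letter from below. -/
lemma Pre.exists_desc {x y : W} (h : Pre cs x y) (hne : x ≠ y) :
    ∃ s : B, D cs y s ∧ Pre cs x (y * cs.simple s) := by
  have h1 : x⁻¹ * y ≠ 1 := fun h1 => hne (inv_mul_eq_one.1 h1)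
  obtain ⟨s, hs⟩ := cs.exists_rightDescent_of_ne_one h1
  have hs' := cs.isRightDescent_iff.1 hs
  unfold Pre at h
  have h2 := cs.length_mul_le x (x⁻¹ * y * cs.simple s)
  have h3 : x * (x⁻¹ * y * cs.simple s) = y * cs.simple s := by group
  rw [h3] at h2
  have h4 := cs.length_mul_simple y s
  refine ⟨s, ?_, ?_⟩
  · unfold D; omega
  · unfold Pre
    rw [← mul_assoc]
    omega

lemma Opt.mul {L : W → ℕ} (hL : IsWeight cs L) {p : List (B × Bool)} {x : W}
    (h : Opt cs L p x) : ∀ (n : ℕ) (y : W), cs.length y = n → Pre cs x y → Opt cs L p y := by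
  intro n
  induction n using Nat.strong_induction_on with
  | _ n IH =>
  intro y hy hpre
  by_cases hne : x = y
  · rw [← hne]; exact h
  · obtain ⟨s, h1, h2⟩ := hpre.exists_desc hne
    have h3 : cs.length (y * cs.simple s) < n := by rw [← hy]; exact h1
    have h4 := IH _ h3 _ rfl h2
    have h5 : ¬ D cs (y * cs.simple s) s := by
      unfold D
      rw [cs.simple_mul_simple_cancel_right]
      omega
    have h6 := h4.up hL h5
    rwa [cs.simple_mul_simple_cancel_right] at h6

lemma Opt.pre {L : W → ℕ} (hL : IsWeight cs L) {p : List (B × Bool)} {x y : W}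
    (h : Opt cs L p x) (hpre : Pre cs x y) : Opt cs L p y := h.mul hL _ y rfl hpre

end CoxBound
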