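import Pool.Agent.Lib.MP_0d46c2_al.Defs

set_option autoImplicit false
set_option linter.unusedSectionVars false

/-!
# Elementary facts on folded paths
-/

namespace CoxBound

open CoxeterSystem

variable {B : Type*} [Fintype B] [DecidableEq B] {M : CoxeterMatrix B}
variable {W : Type*} [Group W] {cs : CoxeterSystem M W}

theorem lpath_iff {L : W → ℕ} {ω : List B} {x y : W} {n : ℕ} :
    LPath cs L ω x y n ↔ ∃ p : List (B × Bool), p.map Prod.fst = ω ∧ Valid cs p x ∧
      pw cs p * x = y ∧ pwt cs L p = n := by
  constructor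
  · intro h
    induction h with
    | nil x => exact ⟨[], rfl, trivial, by simp [pw], rfl⟩
    | @move i ω x y n _ ih =>
      obtain ⟨p, h1, h2, h3, h4⟩ := ih
      refine ⟨(i, false) :: p, by simp [h1], ⟨h2, by simp⟩, ?_, by simp [pwt, h4]⟩
      simp [pw, mul_assoc, h3]
    | @fold i ω x y n _ hl ih =>
      obtain ⟨p, h1, h2, h3, h4⟩ := ih
      refine ⟨(i, true) :: p, by simp [h1], ⟨h2, fun _ => ?_⟩, ?_, by simp [pwt, h4]⟩
      · rw [h3]; exact hl
      · simp [pw, h3]
  · rintro ⟨p, rfl, hv, rfl, rfl⟩
    induction p with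
    | nil => simpa [pw, pwt] using LPath.nil (cs := cs) (L := L) x
    | cons a p ih =>
      obtain ⟨i, b⟩ := a
      obtain ⟨hv1, hv2⟩ := hv
      cases b with
      | false => simpa [pw, pwt, mul_assoc] using LPath.move (i := i) (ih hv1)
      | true => simpa [pw, pwt, mul_assoc] using LPath.fold (ih hv1) (hv2 rfl)

theorem LPath.append {L : W → ℕ} {ω ω' : List B} {x y z : W} {m n : ℕ}
    (h : LPath cs L ω x y m) (h' : LPath cs L ω' y z n) : LPath cs L (ω' ++ ω) x z (m + n) := by
  induction h' with
  | nil x => exact h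
  | @move i ω' x' y' n' _ ih => exact LPath.move (ih h)
  | @fold i ω' x' y' n' _ hl ih =>
    have := LPath.fold (ih h) hl
    rw [show m + (L (cs.simple i) + n') = L (cs.simple i) + (m + n') by omega]
    exact this

theorem RPath.append {L : W → ℕ} {ω ω' : List B} {x y z : W} {m n : ℕ}
    (h : RPath cs L ω x y m) (h' : RPath cs L ω' y z n) : RPath cs L (ω ++ ω') x z (m + n) := by
  induction h with
  | nil x => simpa using h'
  | @move i ω x' y' n' _ ih => exact RPath.move (ih h')
  | @fold i ω x' y' n' _ hl ih =>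
    have := RPath.fold (ih h') hl
    rw [add_assoc]
    exact this

theorem LPath.split {L : W → ℕ} {ω ω' : List B} {x z : W} {k : ℕ}
    (h : LPath cs L (ω' ++ ω) x z k) :
    ∃ (y : W) (m n : ℕ), LPath cs L ω x y m ∧ LPath cs L ω' y z n ∧ k = m + n := by
  induction ω' generalizing z k with
  | nil => exact ⟨z, k, 0, h, LPath.nil z, rfl⟩
  | cons i ω' ih =>
    cases h with
    | move h =>
      obtain ⟨y, m, n, h1, h2, h3⟩ := ih h
      exact ⟨y, m, n, h1, h2.move, h3⟩
    | fold h hl =>
      obtain ⟨y, m, n, h1, h2, h3⟩ := ih h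
      exact ⟨y, m, _, h1, h2.fold hl, by omega⟩

theorem RPath.split {L : W → ℕ} {ω ω' : List B} {x z : W} {k : ℕ}
    (h : RPath cs L (ω ++ ω') x z k) :
    ∃ (y : W) (m n : ℕ), RPath cs L ω x y m ∧ RPath cs L ω' y z n ∧ k = m + n := by
  induction ω generalizing x k with
  | nil => exact ⟨x, 0, k, RPath.nil x, h, by omega⟩
  | cons i ω ih =>
    cases h with
    | move h =>
      obtain ⟨y, m, n, h1, h2, h3⟩ := ih h
      exact ⟨y, m, n, h1.move, h2, h3⟩
    | fold h hl =>
      obtain ⟨y, m, n, h1, h2, h3⟩ := ih h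
      exact ⟨y, _, n, h1.fold hl, h2, by omega⟩

theorem LPath.reverse {L : W → ℕ} {ω : List B} {x y : W} {n : ℕ} (h : LPath cs L ω x y n) :
    LPath cs L ω.reverse y x n := by
  induction h with
  | nil x => exact LPath.nil x
  | @move i ω x y n _ ih =>
    have h1 : LPath cs L [i] (cs.simple i * y) (cs.simple i * (cs.simple i * y)) 0 :=
      LPath.move (LPath.nil _)
    rw [cs.simple_mul_simple_cancel_left] at h1
    have h2 := h1.append ih
    rw [List.reverse_cons]
    simpa using h2
  | @fold i ω x y n _ hl ih =>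
    have h1 : LPath cs L [i] y y (L (cs.simple i) + 0) := LPath.fold (LPath.nil _) hl
    have h2 := h1.append ih
    rw [List.reverse_cons]
    simpa using h2

theorem RPath.reverse {L : W → ℕ} {ω : List B} {x y : W} {n : ℕ} (h : RPath cs L ω x y n) :
    RPath cs L ω.reverse y x n := by
  induction h with
  | nil x => exact RPath.nil x
  | @move i ω x y n _ ih =>
    have h1 : RPath cs L [i] (x * cs.simple i) (x * cs.simple i * cs.simple i) 0 :=
      RPath.move (RPath.nil _)
    rw [cs.simple_mul_simple_cancel_right] at h1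
    have h2 := ih.append h1
    rw [List.reverse_cons]
    simpa using h2
  | @fold i ω x y n _ hl ih =>
    have h1 : RPath cs L [i] x x (L (cs.simple i) + 0) := RPath.fold (RPath.nil _) hl
    have h2 := ih.append h1
    rw [List.reverse_cons, show L (cs.simple i) + n = n + (L (cs.simple i) + 0) by omega]
    exact h2

theorem LPath.up (L : W → ℕ) (ω : List B) (x : W) : LPath cs L ω x (cs.wordProd ω * x) 0 := by
  induction ω with
  | nil => simpa using LPath.nil (cs := cs) (L := L) x
  | cons i ω ih =>
    rw [cs.wordProd_cons, mul_assoc]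
    exact ih.move

theorem RPath.up (L : W → ℕ) (ω : List B) (x : W) : RPath cs L ω x (x * cs.wordProd ω) 0 := by
  induction ω generalizing x with
  | nil => simpa using RPath.nil (cs := cs) (L := L) x
  | cons i ω ih =>
    rw [cs.wordProd_cons, ← mul_assoc]
    exact (ih (x * cs.simple i)).move

theorem LPath.unique {L : W → ℕ} {ω : List B} {x y : W} {n : ℕ} (h : LPath cs L ω x y n)
    (hl : cs.length (cs.wordProd ω * x) = ω.length + cs.length x) :
    y = cs.wordProd ω * x ∧ n = 0 := by
  induction h with
  | nil x => simp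
  | @move i ω x y n _ ih =>
    have h1 : cs.length (cs.wordProd ω * x) = ω.length + cs.length x := by
      have a1 := cs.length_mul_le (cs.simple i) (cs.wordProd ω * x)
      have a2 := cs.length_mul_le (cs.wordProd ω) x
      have a3 := cs.length_wordProd_le ω
      rw [cs.wordProd_cons, mul_assoc, List.length_cons] at hl
      rw [cs.length_simple] at a1
      omega
    obtain ⟨h2, h3⟩ := ih h1
    rw [cs.wordProd_cons, mul_assoc, h2]
    exact ⟨rfl, h3⟩
  | @fold i ω x y n _ hf ih =>
    exfalso
    have a1 := cs.length_mul_le (cs.simple i) (cs.wordProd ω * x)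
    have a2 := cs.length_mul_le (cs.wordProd ω) x
    have a3 := cs.length_wordProd_le ω
    rw [cs.wordProd_cons, mul_assoc, List.length_cons] at hl
    rw [cs.length_simple] at a1
    have h1 : cs.length (cs.wordProd ω * x) = ω.length + cs.length x := by omega
    obtain ⟨h2, h3⟩ := ih h1
    rw [h2] at hf
    omega

theorem RPath.unique {L : W → ℕ} {ω : List B} {x y : W} {n : ℕ} (h : RPath cs L ω x y n)
    (hl : cs.length (x * cs.wordProd ω) = cs.length x + ω.length) :
    y = x * cs.wordProd ω ∧ n = 0 := by
  induction h with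
  | nil x => simp
  | @move i ω x y n _ ih =>
    have a1 := cs.length_mul_le x (cs.simple i)
    have a2 := cs.length_mul_le (x * cs.simple i) (cs.wordProd ω)
    have a3 := cs.length_wordProd_le ω
    rw [cs.wordProd_cons, ← mul_assoc, List.length_cons] at hl
    rw [cs.length_simple] at a1
    obtain ⟨h2, h3⟩ := ih (by omega)
    rw [cs.wordProd_cons, ← mul_assoc]
    exact ⟨h2, h3⟩
  | @fold i ω x y n _ hf ih =>
    exfalso
    have a2 := cs.length_mul_le (x * cs.simple i) (cs.wordProd ω)
    have a3 := cs.length_wordProd_le ω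
    rw [cs.wordProd_cons, ← mul_assoc, List.length_cons] at hl
    omega

end CoxBound
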