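import Pool.Agent.Lib.MP_0d46c2_al.Pat

set_option autoImplicit false
set_option linter.unusedSectionVars false

/-!
# Residues and valid patterns
-/

namespace CoxBound

open CoxeterSystem

variable {B : Type*} [Fintype B] [DecidableEq B] {M : CoxeterMatrix B}
variable {W : Type*} [Group W] {cs : CoxeterSystem M W}

/-! ### longest elements of residues -/

variable (cs) in
/-- `u` is the longest element of the parabolic subgroup `par K`. -/
def Longest (K : Set B) (u : W) : Prop :=
  u ∈ par cs K ∧ ∀ x ∈ par cs K, cs.length (u * x) + cs.length x = cs.length u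

lemma simple_mem {K : Set B} {r : B} (hr : r ∈ K) : cs.simple r ∈ par cs K :=
  Subgroup.subset_closure ⟨r, hr, rfl⟩

lemma Longest.inv_eq {K : Set B} {u : W} (h : Longest cs K u) : u⁻¹ = u := by
  have h1 := h.2 u h.1
  have h2 : cs.length (u * u) = 0 := by omega
  exact inv_eq_of_mul_eq_one_right (cs.length_eq_zero_iff.1 h2)

lemma Longest.left {K : Set B} {u x : W} (h : Longest cs K u) (hx : x ∈ par cs K) :
    cs.length (x * u) + cs.length x = cs.length u := by
  have h1 := h.2 x⁻¹ ((par cs K).inv_mem hx)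
  have h2 : x * u = (u * x⁻¹)⁻¹ := by rw [mul_inv_rev, inv_inv, h.inv_eq]
  rw [h2, cs.length_inv]
  rw [cs.length_inv] at h1
  exact h1

lemma Longest.eq {K : Set B} {u x : W} (h : Longest cs K u) (hx : x ∈ par cs K)
    (hl : cs.length u ≤ cs.length x) : x = u := by
  have h1 := h.2 (u⁻¹ * x) ((par cs K).mul_mem ((par cs K).inv_mem h.1) hx)
  rw [mul_inv_cancel_left] at h1
  have h2 : cs.length (u⁻¹ * x) = 0 := by omega
  exact (inv_mul_eq_one.1 (cs.length_eq_zero_iff.1 h2)).symm

lemma Longest.length_le {K : Set B} {u x : W} (h : Longest cs K u) (hx : x ∈ par cs K) :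
    cs.length x ≤ cs.length u := by
  have := h.2 x hx
  omega

/-- The `K`-part of an element all of whose descents contain `K` is longest. -/
lemma longest_of {K : Set B} {P v u : W} (hP : DescR cs K P) (hv : MinR cs K v)
    (hu : u ∈ par cs K) (he : P = v * u) : Longest cs K u := by
  refine ⟨hu, fun x hx => ?_⟩
  have h1 := hP.length_mul hx
  rw [he, mul_assoc, hv.length_mul ((par cs K).mul_mem hu hx), hv.length_mul hu] at h1
  omega

/-- Transfer of minimal representatives. -/
lemma minR_transfer {K : Set B} {P Q v u : W} (hP : DescR cs K P) (hQ : DescR cs K Q)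
    (hv : MinR cs K v) (hu : u ∈ par cs K) (he : P = v * u) : MinR cs K (Q * u⁻¹) := by
  have hL := longest_of hP hv hu he
  intro r hr
  have h1 := hQ.length_mul ((par cs K).inv_mem hu)
  have h2 := hQ.length_mul ((par cs K).mul_mem ((par cs K).inv_mem hu) (simple_mem hr))
  rw [← mul_assoc] at h2
  have h3 := hL.2 (cs.simple r) (simple_mem hr)
  rw [cs.length_simple] at h3
  rw [hL.inv_eq] at *
  omega

variable (cs) in
/-- Internal letters. -/
def Jint (p : List (B × Bool)) (v : W) (K : Set B) : Set B :=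
  {r | r ∈ K ∧ ∃ (i : B) (q : List (B × Bool)), (i, true) :: q <:+ p ∧
    cs.simple i * (pw cs q * v) = pw cs q * v * cs.simple r}

lemma Opt.descR {L : W → ℕ} (hL : IsWeight cs L) {p : List (B × Bool)} {P : W}
    (h : Opt cs L p P) {K : Set B} (hK : DescR cs K P) {q : List (B × Bool)} (hq : q <:+ p) :
    DescR cs K (pw cs q * P) := fun r hr => (h.status hL r hq).2 (hK r hr)

lemma Opt.minR {L : W → ℕ} (hL : IsWeight cs L) {p : List (B × Bool)} {P v u : W} {K : Set B}
    (h : Opt cs L p P) (hK : DescR cs K P) (hv : MinR cs K v) (hu : u ∈ par cs K)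
    (he : P = v * u) {q : List (B × Bool)} (hq : q <:+ p) : MinR cs K (pw cs q * v) := by
  have h1 := minR_transfer hK (h.descR hL hK hq) hv hu he
  rwa [he, mul_assoc, mul_assoc, mul_inv_cancel, mul_one] at h1

/-- Validity in a residue. -/
theorem residue {L : W → ℕ} (hL : IsWeight cs L) {p : List (B × Bool)} {P v u : W} {K : Set B}
    (h : Opt cs L p P) (hK : DescR cs K P) (hv : MinR cs K v) (hu : u ∈ par cs K)
    (he : P = v * u) {k : W} (hk : k ∈ par cs K) :
    Valid cs p (v * k) ↔ ∀ r ∈ Jint cs p v K, cs.length (cs.simple r * k) < cs.length k := by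
  constructor
  · rintro hval r ⟨hr, i, q, hq, hi⟩
    have hm := h.minR hL hK hv hu he ((List.suffix_cons _ _).trans hq)
    have h1 := (valid_iff.1 hval) i q hq
    rw [← mul_assoc (pw cs q), ← mul_assoc (cs.simple i), hi, mul_assoc (pw cs q * v),
      hm.length_mul hk, hm.length_mul ((par cs K).mul_mem (simple_mem hr) hk)] at h1
    omega
  · intro hJ
    rw [valid_iff]
    intro i q hq
    have hm := h.minR hL hK hv hu he ((List.suffix_cons _ _).trans hq)
    have h1 := (valid_iff.1 h.1) i q hq
    rw [he, ← mul_assoc (pw cs q), ← mul_assoc (cs.simple i), hm.length_mul hu] at h1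
    rw [← mul_assoc (pw cs q), ← mul_assoc (cs.simple i), hm.length_mul hk]
    rcases hm.simple_mul i with hm' | ⟨r, hr, hr'⟩
    · rw [hm'.length_mul hu] at h1
      rw [hm'.length_mul hk]
      omega
    · have h2 := hJ r ⟨hr, i, q, hq, hr'⟩
      rw [hr', mul_assoc, hm.length_mul ((par cs K).mul_mem (simple_mem hr) hk)]
      omega

lemma simple_inj (cs : CoxeterSystem M W) {i j : B} (h : cs.simple i = cs.simple j) : i = j := by
  have h0 : cs.simple j ∈ par cs ({j} : Set B) :=
    Subgroup.subset_closure ⟨j, Set.mem_singleton j, rfl⟩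
  rw [← h] at h0
  have h2 : i ∈ ({j} : Set B) := simple_mem_par h0
  exact h2

/-- Conjugation of a letter by the longest element. -/
lemma Longest.conj {K : Set B} {u : W} (h : Longest cs K u) {r : B} (hr : r ∈ K) :
    ∃ j ∈ K, cs.simple r * u = u * cs.simple j := by
  have hm : u⁻¹ * (cs.simple r * u) ∈ par cs K :=
    (par cs K).mul_mem ((par cs K).inv_mem h.1) ((par cs K).mul_mem (simple_mem hr) h.1)
  have h1 := h.2 _ hm
  rw [mul_inv_cancel_left] at h1
  have h2 := h.left (simple_mem hr)
  rw [cs.length_simple] at h2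
  have h3 : cs.length (u⁻¹ * (cs.simple r * u)) = 1 := by omega
  obtain ⟨j, hj⟩ := cs.length_eq_one_iff.1 h3
  refine ⟨j, simple_mem_par (cs := cs) (by rw [← hj]; exact hm), ?_⟩
  rw [← hj, mul_inv_cancel_left]

/-- Local confluence. -/
theorem confluence {L : W → ℕ} (hL : IsWeight cs L) {p : List (B × Bool)} {P v u : W} {a b : B}
    (h : Opt cs L p P) (hK : DescR cs {a, b} P) (hv : MinR cs {a, b} v)
    (hu : u ∈ par cs {a, b}) (he : P = v * u) (ha : Valid cs p (P * cs.simple a))
    (hb : Valid cs p (P * cs.simple b)) : Valid cs p v := by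
  have hu' := longest_of hK hv hu he
  have hJ : ∀ r ∈ Jint cs p v {a, b}, False := by
    intro r hr
    obtain ⟨j, hj, hrj⟩ := hu'.conj hr.1
    have key : ∀ c : B, c ∈ ({a, b} : Set B) → Valid cs p (P * cs.simple c) → j = c → False := by
      intro c hc hval hjc
      subst hjc
      rw [he, mul_assoc] at hval
      have h1 := (residue hL h hK hv hu he ((par cs _).mul_mem hu (simple_mem hj))).1 hval r hr
      rw [← mul_assoc, hrj, mul_assoc, cs.simple_mul_simple_self, mul_one] at h1
      have h2 := hu'.2 _ (simple_mem (cs := cs) hj)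
      omega
    rcases hj with hj | hj
    · exact key a (by simp) ha hj
    · exact key b (by simp) hb hj
  have h1 := (residue hL h hK hv hu he (one_mem (par cs _))).2 (fun r hr => (hJ r hr).elim)
  rwa [mul_one] at h1

/-- Uniqueness of irreducible elements below (Newman). -/
theorem newman {L : W → ℕ} (hL : IsWeight cs L) {p : List (B × Bool)} {A : W}
    (hA : Opt cs L p A) (hirr : ∀ s, D cs A s → ¬ Valid cs p (A * cs.simple s)) :
    ∀ (n : ℕ) (P : W), cs.length P = n → Pre cs A P → ∀ Q, Valid cs p Q → Pre cs Q P →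
      Pre cs A Q := by
  intro n
  induction n using Nat.strong_induction_on with
  | _ n IH =>
  intro P hP hAP Q hQ hQP
  have hOQ : Opt cs L p Q := hA.of_valid hQ
  by_cases h1 : Q = P
  · rw [h1]; exact hAP
  obtain ⟨b, hb1, hb2⟩ := hQP.exists_desc h1
  by_cases h2 : A = P
  · exact absurd (hOQ.pre hL hb2).1 (by rw [← h2]; exact hirr b (by rw [h2]; exact hb1))
  obtain ⟨a, ha1, ha2⟩ := hAP.exists_desc h2
  have hla : cs.length (P * cs.simple a) < n := by rw [← hP]; exact ha1
  have hlb : cs.length (P * cs.simple b) < n := by rw [← hP]; exact hb1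
  by_cases hab : a = b
  · subst hab
    exact IH _ hla _ rfl ha2 Q hQ hb2
  have hOP := hA.pre hL hAP
  have hK : DescR cs {a, b} P := by
    rintro r (hr | hr)
    · rw [hr]; exact ha1
    · rw [Set.mem_singleton_iff] at hr; rw [hr]; exact hb1
  obtain ⟨v, u, hv, hu, he⟩ := exists_minR (cs := cs) {a, b} P
  have hval := confluence hL hOP hK hv hu he (hA.pre hL ha2).1 (hOQ.pre hL hb2).1
  have hpre : ∀ c : B, c ∈ ({a, b} : Set B) → Pre cs v (P * cs.simple c) := by
    intro c hc
    rw [he, mul_assoc]
    exact Pre.of_mul (hv.length_mul ((par cs _).mul_mem hu (simple_mem hc)))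
  have h3 : Pre cs A v := IH _ hla _ rfl ha2 v hval (hpre a (by simp))
  exact IH _ hlb _ rfl (h3.trans (hpre b (by simp))) Q hQ hb2

end CoxBound
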