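import Pool.Agent.Lib.MP_0d46c2_al.Geom

set_option autoImplicit false
set_option linter.unusedSimpArgs false
set_option linter.unusedSectionVars false

/-!
# Positivity of roots, inversion sets, nested pairs
-/

namespace CoxBound

open Real CoxeterSystem

/-- `U_n` Chebyshev type sequence. -/
noncomputable def useq (c : ℝ) : ℕ → ℝ
  | 0 => 0
  | 1 => 1
  | (n + 2) => 2 * c * useq c (n + 1) - useq c n

lemma useq_zero (c : ℝ) : useq c 0 = 0 := rfl
lemma useq_one (c : ℝ) : useq c 1 = 1 := rfl
lemma useq_succ_succ (c : ℝ) (n : ℕ) : useq c (n + 2) = 2 * c * useq c (n + 1) - useq c n := rfl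

lemma sin_mul_useq (θ : ℝ) (n : ℕ) :
    Real.sin θ * useq (Real.cos θ) n = Real.sin (n * θ) ∧
    Real.sin θ * useq (Real.cos θ) (n + 1) = Real.sin ((n + 1 : ℕ) * θ) := by
  induction n with
  | zero => simp [useq_zero, useq_one]
  | succ n ih =>
    refine ⟨ih.2, ?_⟩
    rw [useq_succ_succ, mul_sub, ih.1]
    have h : Real.sin θ * (2 * Real.cos θ * useq (Real.cos θ) (n + 1)) =
        2 * Real.cos θ * (Real.sin θ * useq (Real.cos θ) (n + 1)) := by ring
    rw [h, ih.2]
    have e1 : ((n + 1 + 1 : ℕ) : ℝ) * θ = ((n + 1 : ℕ) : ℝ) * θ + θ := by push_cast; ring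
    have e2 : (n : ℝ) * θ = ((n + 1 : ℕ) : ℝ) * θ - θ := by push_cast; ring
    rw [e1, e2, Real.sin_add, Real.sin_sub]; ring

lemma useq_of_one_le {c : ℝ} (hc : 1 ≤ c) (n : ℕ) :
    0 ≤ useq c n ∧ useq c n + 1 ≤ useq c (n + 1) := by
  induction n with
  | zero => simp [useq_zero, useq_one]
  | succ n ih =>
    obtain ⟨h1, h2⟩ := ih
    refine ⟨by linarith, ?_⟩
    rw [useq_succ_succ]
    nlinarith

variable {B : Type*} [Fintype B] [DecidableEq B] {M : CoxeterMatrix B}
variable {W : Type*} [Group W] (cs : CoxeterSystem M W)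

lemma geo_alternatingWord {i j : B} {c : ℝ} (hc : bf M (sroot i) (sroot j) = -c) (k : ℕ) :
    geo cs (cs.wordProd (alternatingWord i j k)) (sroot i) =
      if Even k then useq c (k + 1) • sroot i + useq c k • sroot j
      else useq c k • sroot i + useq c (k + 1) • sroot j := by
  have hc' : bf M (sroot j) (sroot i) = -c := by rw [bf_symm]; exact hc
  have hi := bf_sroot_self M i
  have hj := bf_sroot_self M j
  induction k with
  | zero => simp [alternatingWord, useq_zero, useq_one]
  | succ k ih =>
    rw [alternatingWord_succ', wordProd_cons, geo_mul, ih]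
    by_cases hk : Even k
    · have hk' : ¬ Even (k + 1) := by simpa [Nat.even_add_one] using hk
      simp only [hk, hk', if_true, if_false]
      rw [geo_simple_apply]
      simp only [map_add, map_smul, smul_eq_mul, hc', hj, useq_succ_succ]
      module
    · have hk' : Even (k + 1) := by simpa [Nat.even_add_one] using hk
      simp only [hk, hk', if_true, if_false]
      rw [geo_simple_apply]
      simp only [map_add, map_smul, smul_eq_mul, hc, hi, useq_succ_succ]
      module

lemma sroot_nonneg (i : B) : (0 : B → ℝ) ≤ sroot i := by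
  intro j
  by_cases h : j = i
  · subst h; simp
  · simp [Pi.single_eq_of_ne h]

/-- Tits: a root `w α_i` with `ℓ(w s_i) > ℓ(w)` is nonnegative. -/
theorem geo_sroot_nonneg (n : ℕ) : ∀ (w : W), cs.length w = n → ∀ i : B,
    cs.length w < cs.length (w * cs.simple i) → 0 ≤ geo cs w (sroot i) := by
  classical
  induction n using Nat.strong_induction_on with
  | _ n IH =>
  intro w hw i hi
  by_cases hw1 : w = 1
  · subst hw1; rw [map_one]; exact sroot_nonneg i
  obtain ⟨j, hj⟩ := cs.exists_rightDescent_of_ne_one hw1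
  have hj' := cs.isRightDescent_iff.1 hj
  have hij : i ≠ j := by
    rintro rfl
    have := hj
    unfold CoxeterSystem.IsRightDescent at this
    omega
  -- the maximal alternating suffix
  let Q : ℕ → Prop := fun k => ∃ v : W, w = v * cs.wordProd (alternatingWord i j k) ∧
    cs.length w = cs.length v + k
  have hQ1 : Q 1 := by
    refine ⟨w * cs.simple j, ?_, ?_⟩
    · simp [alternatingWord]
    · omega
  have hQle : ∀ k, Q k → k ≤ cs.length w := by
    rintro k ⟨v, -, h⟩; omega
  set k := Nat.findGreatest Q (cs.length w) with hk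
  have hQk : Q k := Nat.findGreatest_spec (hQle 1 hQ1) hQ1
  have hk1 : 1 ≤ k := Nat.le_findGreatest (hQle 1 hQ1) hQ1
  have hQmax : ¬ Q (k + 1) := by
    intro h
    exact Nat.findGreatest_is_greatest (Nat.lt_succ_self k) (hQle _ h) h
  obtain ⟨v, hv1, hv2⟩ := hQk
  clear_value k
  clear hk
  -- no descent of v along the extending letter
  have hext : cs.length v < cs.length (v * cs.simple (if Even k then j else i)) := by
    by_contra hcon
    have hne := cs.length_mul_simple_ne v (if Even k then j else i)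
    rcases cs.length_mul_simple v (if Even k then j else i) with h | h
    · omega
    · apply hQmax
      refine ⟨v * cs.simple (if Even k then j else i), ?_, by omega⟩
      rw [alternatingWord_succ', wordProd_cons, ← mul_assoc, cs.simple_mul_simple_cancel_right]
      exact hv1
  have hfst : cs.length v < cs.length (v * cs.simple (if Even (k - 1) then j else i)) := by
    by_contra hcon
    have hne := cs.length_mul_simple_ne v (if Even (k - 1) then j else i)
    obtain ⟨k', rfl : k = k' + 1⟩ : ∃ k', k = k' + 1 := ⟨k - 1, by omega⟩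
    simp only [Nat.add_sub_cancel] at hcon hne
    have h1 : w = (v * cs.simple (if Even k' then j else i)) *
        cs.wordProd (alternatingWord i j k') := by
      rw [hv1, alternatingWord_succ', wordProd_cons, ← mul_assoc]
    have h2 : cs.length w ≤ cs.length (v * cs.simple (if Even k' then j else i)) + k' := by
      conv_lhs => rw [h1]
      refine (cs.length_mul_le _ _).trans ?_
      have := cs.length_wordProd_le (alternatingWord i j k')
      rw [length_alternatingWord] at this
      omega
    omega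
  have hvi : cs.length v < cs.length (v * cs.simple i) := by
    by_cases hke : Even k
    · have : ¬ Even (k - 1) := by
        intro h
        obtain ⟨k', hk'⟩ : ∃ k', k = k' + 1 := ⟨k - 1, by omega⟩
        rw [hk'] at hke h
        simp only [Nat.add_sub_cancel] at h
        exact (Nat.even_add_one.1 hke) h
      simpa [this] using hfst
    · simpa [hke] using hext
  have hvj : cs.length v < cs.length (v * cs.simple j) := by
    by_cases hke : Even k
    · simpa [hke] using hext
    · have : Even (k - 1) := by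
        obtain ⟨k', hk'⟩ : ∃ k', k = k' + 1 := ⟨k - 1, by omega⟩
        rw [hk'] at hke ⊢
        simp only [Nat.add_sub_cancel]
        by_contra h
        exact hke (Nat.even_add_one.2 h)
      simpa [this] using hfst
  have hlt : cs.length v < n := by omega
  have posi : 0 ≤ geo cs v (sroot i) := IH _ hlt v rfl i hvi
  have posj : 0 ≤ geo cs v (sroot j) := IH _ hlt v rfl j hvj
  -- coefficients
  have hkm : M i j ≠ 0 → k < M i j := by
    intro hm0
    by_contra hcon
    have hnr := cs.not_isReduced_alternatingWord j i (m := k + 1)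
      (by rw [M.symmetric]; exact hm0) (by rw [M.symmetric j i]; omega)
    have hle := cs.length_wordProd_le (alternatingWord j i (k + 1))
    rw [length_alternatingWord] at hle
    unfold CoxeterSystem.IsReduced at hnr
    rw [length_alternatingWord] at hnr
    have h3 : cs.length (cs.wordProd (alternatingWord j i (k + 1))) ≤ k := by omega
    rw [alternatingWord_succ, wordProd_concat] at h3
    have h4 : cs.length (w * cs.simple i) ≤ cs.length v + k := by
      conv_lhs => rw [hv1, mul_assoc]
      refine (cs.length_mul_le _ _).trans ?_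
      omega
    omega
  set c : ℝ := Real.cos (Real.pi / (M i j : ℝ)) with hc
  have hbf : bf M (sroot i) (sroot j) = -c := bf_sroot M i j
  have hu : 0 ≤ useq c k ∧ 0 ≤ useq c (k + 1) := by
    by_cases hm0 : M i j = 0
    · have : c = 1 := by rw [hc, hm0]; simp
      rw [this]
      exact ⟨(useq_of_one_le le_rfl k).1, (useq_of_one_le le_rfl (k + 1)).1⟩
    · have hkm' := hkm hm0
      have hmpos : (0 : ℝ) < (M i j : ℝ) := by exact_mod_cast Nat.pos_of_ne_zero hm0
      have hm2 : 2 ≤ M i j := by
        have := M.off_diagonal i j hij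
        omega
      set θ : ℝ := Real.pi / (M i j : ℝ) with hθ
      have hpi := Real.pi_pos
      have hθ0 : 0 < θ := by positivity
      have hθ1 : θ ≤ Real.pi / 2 := by
        rw [hθ]; apply div_le_div_of_nonneg_left hpi.le (by norm_num)
        exact_mod_cast hm2
      have hsin : 0 < Real.sin θ := Real.sin_pos_of_pos_of_lt_pi hθ0 (by linarith)
      have hmθ : (M i j : ℝ) * θ = Real.pi := by rw [hθ]; field_simp
      obtain ⟨h1, h2⟩ := sin_mul_useq θ k
      have hle1 : (k : ℝ) * θ ≤ Real.pi := by
        rw [← hmθ]; apply mul_le_mul_of_nonneg_right _ hθ0.le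
        exact_mod_cast hkm'.le
      have hle2 : ((k + 1 : ℕ) : ℝ) * θ ≤ Real.pi := by
        rw [← hmθ]; apply mul_le_mul_of_nonneg_right _ hθ0.le
        exact_mod_cast hkm'
      have s1 : 0 ≤ Real.sin ((k : ℝ) * θ) :=
        Real.sin_nonneg_of_nonneg_of_le_pi (by positivity) hle1
      have s2 : 0 ≤ Real.sin (((k + 1 : ℕ) : ℝ) * θ) :=
        Real.sin_nonneg_of_nonneg_of_le_pi (by positivity) hle2
      rw [← h1] at s1
      rw [← h2] at s2
      exact ⟨nonneg_of_mul_nonneg_right s1 hsin, nonneg_of_mul_nonneg_right s2 hsin⟩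
  rw [hv1, geo_mul, geo_alternatingWord cs hbf k]
  split_ifs
  · rw [map_add, map_smul, map_smul]
    exact add_nonneg (smul_nonneg hu.2 posi) (smul_nonneg hu.1 posj)
  · rw [map_add, map_smul, map_smul]
    exact add_nonneg (smul_nonneg hu.1 posi) (smul_nonneg hu.2 posj)

lemma geo_sroot_nonneg' {w : W} {i : B} (h : cs.length w < cs.length (w * cs.simple i)) :
    0 ≤ geo cs w (sroot i) := geo_sroot_nonneg cs _ w rfl i h

lemma geo_simple_sroot (i : B) : geo cs (cs.simple i) (sroot i) = -sroot i := by
  rw [geo_simple, rf_self M (bf_sroot_self M i)]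

lemma geo_sroot_nonpos {w : W} {i : B} (h : cs.length (w * cs.simple i) < cs.length w) :
    geo cs w (sroot i) ≤ 0 := by
  have h1 : 0 ≤ geo cs (w * cs.simple i) (sroot i) := by
    apply geo_sroot_nonneg'
    rwa [cs.simple_mul_simple_cancel_right]
  rw [geo_mul, geo_simple_sroot, map_neg] at h1
  exact neg_nonneg.1 h1

/-- Roots of the geometric representation. -/
def IsRoot (γ : B → ℝ) : Prop := ∃ (w : W) (i : B), γ = geo cs w (sroot i)

variable {cs}

lemma isRoot_sroot (i : B) : IsRoot cs (sroot i) := ⟨1, i, by simp⟩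

lemma IsRoot.norm {γ : B → ℝ} (h : IsRoot cs γ) : bf M γ γ = 1 := by
  obtain ⟨w, i, rfl⟩ := h
  rw [bf_geo, bf_sroot_self]

lemma IsRoot.map {γ : B → ℝ} (h : IsRoot cs γ) (w : W) : IsRoot cs (geo cs w γ) := by
  obtain ⟨w', i, rfl⟩ := h
  exact ⟨w * w', i, by rw [geo_mul]⟩

lemma IsRoot.neg {γ : B → ℝ} (h : IsRoot cs γ) : IsRoot cs (-γ) := by
  obtain ⟨w, i, rfl⟩ := h
  exact ⟨w * cs.simple i, i, by rw [geo_mul, geo_simple_sroot, map_neg]⟩

lemma geo_refl (w : W) (i : B) (v : B → ℝ) :
    geo cs (w * cs.simple i * w⁻¹) v = rf M (geo cs w (sroot i)) v := by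
  rw [geo_mul, geo_mul, geo_simple_apply, map_sub, map_smul, geo_apply_inv, rf_apply]
  congr 3
  rw [← bf_geo cs w, geo_apply_inv]

lemma IsRoot.exists_refl {γ : B → ℝ} (h : IsRoot cs γ) :
    ∃ t : W, cs.IsReflection t ∧ geo cs t = rf M γ := by
  obtain ⟨w, i, rfl⟩ := h
  refine ⟨w * cs.simple i * w⁻¹, ⟨w, i, rfl⟩, ?_⟩
  exact LinearMap.ext fun v => geo_refl w i v

lemma IsRoot.rf {β γ : B → ℝ} (hβ : IsRoot cs β) (hγ : IsRoot cs γ) : IsRoot cs (rf M β γ) := by
  obtain ⟨t, -, ht⟩ := hβ.exists_refl
  rw [← ht]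
  exact hγ.map t

lemma IsRoot.ne_zero {γ : B → ℝ} (h : IsRoot cs γ) : γ ≠ 0 := by
  rintro rfl
  have := h.norm
  simp at this

lemma IsRoot.nonneg_or_nonpos {γ : B → ℝ} (h : IsRoot cs γ) : 0 ≤ γ ∨ γ ≤ 0 := by
  obtain ⟨w, i, rfl⟩ := h
  rcases lt_or_gt_of_ne (cs.length_mul_simple_ne w i) with h1 | h1
  · exact Or.inr (geo_sroot_nonpos cs h1)
  · exact Or.inl (geo_sroot_nonneg' cs h1)

lemma IsRoot.not_both {γ : B → ℝ} (h : IsRoot cs γ) (h1 : 0 ≤ γ) (h2 : γ ≤ 0) : False :=
  h.ne_zero (le_antisymm h2 h1)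

lemma IsRoot.nonpos_of_not_nonneg {γ : B → ℝ} (h : IsRoot cs γ) (h1 : ¬ 0 ≤ γ) : γ ≤ 0 :=
  h.nonneg_or_nonpos.resolve_left h1

lemma IsRoot.nonneg_of_not_nonpos {γ : B → ℝ} (h : IsRoot cs γ) (h1 : ¬ γ ≤ 0) : 0 ≤ γ :=
  h.nonneg_or_nonpos.resolve_right h1

/-- Only the simple root `α_i` among the positive roots is made negative by `s_i`. -/
lemma IsRoot.simple_nonneg {γ : B → ℝ} (h : IsRoot cs γ) (h0 : 0 ≤ γ) {i : B}
    (hne : γ ≠ sroot i) : 0 ≤ geo cs (cs.simple i) γ := by
  apply (h.map (cs.simple i)).nonneg_of_not_nonpos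
  intro hneg
  -- all coordinates except i vanish
  have hz : ∀ j, j ≠ i → γ j = 0 := by
    intro j hj
    have h1 := hneg j
    rw [geo_simple_apply] at h1
    simp only [Pi.sub_apply, Pi.smul_apply, smul_eq_mul, Pi.single_eq_of_ne hj, mul_zero,
      sub_zero, Pi.zero_apply] at h1
    exact le_antisymm h1 (h0 j)
  have hg : γ = (γ i) • sroot i := by
    funext j
    by_cases hj : j = i
    · subst hj; simp
    · rw [hz j hj]; simp [Pi.single_eq_of_ne hj]
  have hn := h.norm
  rw [hg] at hn
  simp only [map_smul, LinearMap.smul_apply, smul_eq_mul, bf_sroot_self, mul_one] at hn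
  have h0i : 0 ≤ γ i := h0 i
  have : γ i = 1 := by nlinarith
  apply hne
  rw [hg, this, one_smul]

variable (cs)

/-- The (finite) set of positive roots made negative by `w`. -/
def invRoots (w : W) : Set (B → ℝ) := {γ | IsRoot cs γ ∧ 0 ≤ γ ∧ geo cs w γ ≤ 0}

lemma invRoots_finite (w : W) : (invRoots cs w).Finite := by
  induction w using cs.simple_induction_right with
  | one =>
    have : invRoots cs 1 = ∅ := by
      ext γ
      simp only [invRoots, Set.mem_ofPred_eq, map_one, Module.End.one_apply,
        Set.mem_empty_iff_false, iff_false]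
      rintro ⟨h, h0, h1⟩
      exact h.not_both h0 h1
    rw [this]; exact Set.finite_empty
  | mul_simple_right w i ih =>
    refine ((ih.image (geo cs (cs.simple i))).union (Set.finite_singleton (sroot i))).subset ?_
    rintro γ ⟨h, h0, h1⟩
    by_cases hne : γ = sroot i
    · right; exact hne
    · left
      refine ⟨geo cs (cs.simple i) γ, ⟨h.map _, h.simple_nonneg h0 hne, ?_⟩,
        geo_simple_simple cs i γ⟩
      rwa [geo_mul] at h1

variable {cs}

/-- Two positive roots with `B ≤ -1` are never both inverted. -/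
theorem nested {β β' : B → ℝ} (hβ : IsRoot cs β) (hβ' : IsRoot cs β') (h0 : 0 ≤ β)
    (h0' : 0 ≤ β') (hB : bf M β β' ≤ -1) (w : W) (hw : geo cs w β ≤ 0)
    (hw' : geo cs w β' ≤ 0) : False := by
  set c : ℝ := -bf M β β' with hc
  have hc1 : 1 ≤ c := by rw [hc]; linarith
  have hbb : bf M β β' = -c := by rw [hc]; ring
  have hbb' : bf M β' β = -c := by rw [bf_symm]; exact hbb
  have hU := useq_of_one_le hc1
  let g : ℕ → (B → ℝ) := fun n => useq c (2 * n + 1) • β + useq c (2 * n) • β'
  have hg : ∀ n, IsRoot cs (g n) := by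
    intro n
    induction n with
    | zero => simpa [g, useq_zero, useq_one] using hβ
    | succ n ih =>
      have h1 := hβ.rf (hβ'.rf ih)
      have h2 : rf M β (rf M β' (g n)) = g (n + 1) := by
        simp only [g, rf_apply]
        have e1 : 2 * (n + 1) + 1 = (2 * n + 1) + 2 := by ring
        have e2 : 2 * (n + 1) = 2 * n + 2 := by ring
        rw [e1, e2, useq_succ_succ c (2 * n + 1), useq_succ_succ c (2 * n)]
        simp only [map_add, map_sub, map_smul, smul_eq_mul, hβ.norm, hβ'.norm, hbb, hbb']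
        module
      rw [h2] at h1
      exact h1
  have hmem : ∀ n, g n ∈ invRoots cs w := by
    intro n
    refine ⟨hg n, ?_, ?_⟩
    · exact add_nonneg (smul_nonneg (hU _).1 h0) (smul_nonneg (hU _).1 h0')
    · simp only [g, map_add, map_smul]
      have a1 := smul_nonneg (hU (2 * n + 1)).1 (neg_nonneg.2 hw)
      have a2 := smul_nonneg (hU (2 * n)).1 (neg_nonneg.2 hw')
      have a3 := add_nonneg a1 a2
      rw [smul_neg, smul_neg, ← neg_add] at a3
      exact neg_nonneg.1 a3
  obtain ⟨i, hi⟩ : ∃ i, 0 < β i := by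
    by_contra hcon
    push Not at hcon
    exact hβ.not_both h0 hcon
  have hmono : StrictMono (fun n => g n i) := by
    apply strictMono_nat_of_lt_succ
    intro n
    simp only [g, Pi.add_apply, Pi.smul_apply, smul_eq_mul]
    have e1 : 2 * (n + 1) + 1 = (2 * n + 1) + 1 + 1 := by ring
    have e2 : 2 * (n + 1) = 2 * n + 1 + 1 := by ring
    rw [e1, e2]
    have u1 := (hU (2 * n + 1)).2
    have u2 := (hU (2 * n + 1 + 1)).2
    have u3 := (hU (2 * n)).2
    have hb := h0' i
    simp only [Pi.zero_apply] at hb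
    nlinarith
  have hinj : Function.Injective g := by
    intro a b hab
    exact hmono.injective (by simp [hab])
  exact Set.infinite_of_injective_forall_mem hinj hmem (invRoots_finite cs w)

/-- Two roots with `B ≥ 1`: they cannot be separated in both ways. -/
theorem crossed {δ γ : B → ℝ} (hδ : IsRoot cs δ) (hγ : IsRoot cs γ) (hB : 1 ≤ bf M δ γ)
    (w₁ w₂ : W) (h1 : geo cs w₁ δ ≤ 0) (h2 : 0 ≤ geo cs w₁ γ) (h3 : geo cs w₂ γ ≤ 0)
    (h4 : 0 ≤ geo cs w₂ δ) : False := by
  refine nested (hδ.map w₁).neg (hγ.map w₁) (neg_nonneg.2 h1) h2 ?_ (w₂ * w₁⁻¹) ?_ ?_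
  · rw [map_neg, LinearMap.neg_apply, bf_geo]; linarith
  · rw [map_neg, geo_mul, geo_inv_apply]; exact neg_nonpos.2 h4
  · rw [geo_mul, geo_inv_apply]; exact h3

end CoxBound
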