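import Pool.Agent.Lib.MP_0d46c2_al.Roots

set_option autoImplicit false
set_option linter.unusedSimpArgs false
set_option linter.unusedSectionVars false

/-!
# Crossing roots: rotations in a definite plane
-/

namespace CoxBound

open Real CoxeterSystem

/-- A power of a rotation with nonpositive trace. -/
lemma exists_pow_trace {V : Type*} [AddCommGroup V] [Module ℝ V] {τ : ℝ} (hτ : τ < 2) :
    ∃ (m : ℕ) (τ' : ℝ), τ' ≤ 0 ∧ ∀ a : ℕ → V, (∀ n, a (n + 2) = τ • a (n + 1) - a n) →
      ∀ n, a (n + 2 * m) = τ' • a (n + m) - a n := by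
  have key : ∀ j : ℕ, ∃ (m : ℕ) (τ' : ℝ), (τ' ≤ 0 ∨ 2 ^ j * (2 - τ) ≤ 2 - τ') ∧
      ∀ a : ℕ → V, (∀ n, a (n + 2) = τ • a (n + 1) - a n) →
      ∀ n, a (n + 2 * m) = τ' • a (n + m) - a n := by
    intro j
    induction j with
    | zero => exact ⟨1, τ, Or.inr (by simp), fun a ha n => ha n⟩
    | succ j ih =>
      obtain ⟨m, τ', h1, h2⟩ := ih
      rcases h1 with h1 | h1
      · exact ⟨m, τ', Or.inl h1, h2⟩
      · by_cases hp : τ' ≤ 0
        · exact ⟨m, τ', Or.inl hp, h2⟩
        · push Not at hp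
          refine ⟨2 * m, τ' ^ 2 - 2, Or.inr ?_, ?_⟩
          · have : 2 ^ (j + 1) * (2 - τ) = 2 * (2 ^ j * (2 - τ)) := by ring
            rw [this]
            have h3 : 0 < 2 ^ j * (2 - τ) := by
              apply mul_pos (by positivity); linarith
            nlinarith
          · intro a ha n
            have e1 := h2 a ha n
            have e2 := h2 a ha (n + m)
            have e3 := h2 a ha (n + 2 * m)
            have i1 : n + m + 2 * m = n + 2 * m + m := by ring
            have i2 : n + m + m = n + 2 * m := by ring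
            have i3 : n + 2 * m + 2 * m = n + 2 * (2 * m) := by ring
            rw [i1, i2] at e2
            rw [i3] at e3
            have e4 : τ' • a (n + m) = a (n + 2 * m) + a n := by rw [e1]; module
            rw [e3, e2, smul_sub, e4]
            module
  obtain ⟨j, hj⟩ := pow_unbounded_of_one_lt (2 / (2 - τ)) (one_lt_two : (1 : ℝ) < 2)
  obtain ⟨m, τ', h1, h2⟩ := key j
  refine ⟨m, τ', ?_, h2⟩
  rcases h1 with h1 | h1
  · exact h1
  · have hpos : 0 < 2 - τ := by linarith
    rw [div_lt_iff₀ hpos] at hj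
    linarith

variable {B : Type*} [Fintype B] [DecidableEq B] {M : CoxeterMatrix B}
variable {W : Type*} [Group W] {cs : CoxeterSystem M W}

lemma rfrf_seq {a b : B → ℝ} (ha : bf M a a = 1) (hb : bf M b b = 1) (p q : ℝ) (n : ℕ) :
    ((rf M a * rf M b) ^ (n + 2)) (p • a + q • b) =
      (4 * bf M a b ^ 2 - 2) • ((rf M a * rf M b) ^ (n + 1)) (p • a + q • b)
        - ((rf M a * rf M b) ^ n) (p • a + q • b) := by
  have h := rfrf_trace M ha hb p q
  set u := rf M a * rf M b
  have e1 : (u ^ (n + 2)) (p • a + q • b) = (u ^ n) (u (u (p • a + q • b))) := by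
    rw [pow_add]; simp [pow_two, Module.End.mul_apply]
  have e2 : (u ^ (n + 1)) (p • a + q • b) = (u ^ n) (u (p • a + q • b)) := by
    rw [pow_succ]; simp [Module.End.mul_apply]
  rw [e1, h, map_sub, map_smul, e2]

lemma trace_lt_two {b : ℝ} (h : |b| < 1) : 4 * b ^ 2 - 2 < 2 := by
  have : b ^ 2 < 1 := by
    rw [abs_lt] at h
    nlinarith
  linarith

/-- Crossing roots can be separated: some `w` inverts `γ` but not `δ`. -/
theorem exists_sep {δ γ : B → ℝ} (hδ : IsRoot cs δ) (hγ : IsRoot cs γ) (h0 : 0 ≤ δ)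
    (hB : |bf M δ γ| < 1) : ∃ w : W, geo cs w γ ≤ 0 ∧ 0 ≤ geo cs w δ := by
  by_contra hcon
  push Not at hcon
  obtain ⟨t, -, ht⟩ := hγ.exists_refl
  obtain ⟨r, -, hr⟩ := hδ.exists_refl
  have hstep : ∀ w : W, 0 ≤ geo cs w δ → 0 ≤ geo cs (w * (t * r)) δ := by
    intro w hw
    have h1 : 0 ≤ geo cs w γ := by
      apply (hγ.map w).nonneg_of_not_nonpos
      intro h; exact hcon w h hw
    have h2 : geo cs (w * t) γ ≤ 0 := by
      rw [geo_mul, ht, rf_self M hγ.norm, map_neg]; exact neg_nonpos.2 h1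
    have h3 : geo cs (w * t) δ ≤ 0 := (hδ.map _).nonpos_of_not_nonneg (hcon _ h2)
    rw [← mul_assoc, geo_mul, hr, rf_self M hδ.norm, map_neg]
    exact neg_nonneg.2 h3
  have hall : ∀ n : ℕ, 0 ≤ geo cs ((t * r) ^ n) δ := by
    intro n
    induction n with
    | zero => simpa using h0
    | succ n ih => rw [pow_succ]; exact hstep _ ih
  have hB' : |bf M γ δ| < 1 := by rw [bf_symm]; exact hB
  obtain ⟨m, τ', hτ', hm⟩ := exists_pow_trace (V := B → ℝ) (trace_lt_two hB')
  have hseq := hm (fun n => ((rf M γ * rf M δ) ^ n) ((0 : ℝ) • γ + (1 : ℝ) • δ))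
    (fun n => rfrf_seq hγ.norm hδ.norm 0 1 n) 0
  have hgeo : ∀ n, geo cs ((t * r) ^ n) δ = ((rf M γ * rf M δ) ^ n) δ := by
    intro n; rw [map_pow, map_mul, ht, hr]
  simp only [zero_smul, one_smul, zero_add, pow_zero, Module.End.one_apply] at hseq
  rw [← hgeo, ← hgeo] at hseq
  have h1 := hall (2 * m)
  have h2 := hall m
  rw [hseq] at h1
  have h3 : τ' • geo cs ((t * r) ^ m) δ ≤ 0 := by
    have := smul_nonneg (neg_nonneg.2 hτ') h2
    rw [neg_smul] at this
    exact neg_nonneg.1 this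
  have h4 : δ ≤ 0 := by
    have : δ ≤ τ' • geo cs ((t * r) ^ m) δ := by simpa using h1
    exact this.trans h3
  exact hδ.not_both h0 h4

/-- The product of two crossing reflections has finite order (on `V`). -/
theorem finite_order {β γ : B → ℝ} (hβ : IsRoot cs β) (hγ : IsRoot cs γ)
    (hB : |bf M β γ| < 1) : ∃ k : ℕ, 0 < k ∧ (rf M β * rf M γ) ^ k = 1 := by
  obtain ⟨t, -, ht⟩ := hβ.exists_refl
  obtain ⟨r, -, hr⟩ := hγ.exists_refl
  set u := rf M β * rf M γ with hu
  have hgeo : ∀ n, geo cs ((t * r) ^ n) = u ^ n := by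
    intro n; rw [map_pow, map_mul, ht, hr]
  obtain ⟨m, τ', hτ', hm⟩ := exists_pow_trace (V := B → ℝ) (trace_lt_two hB)
  -- roots in the plane
  let S : Set (B → ℝ) := {z | IsRoot cs z ∧ ∃ p q : ℝ, z = p • β + q • γ}
  have hSpos : {z | z ∈ S ∧ 0 ≤ z} ⊆ invRoots cs ((t * r) ^ m) ∪ invRoots cs ((t * r) ^ (2 * m)) := by
    rintro z ⟨⟨hz, p, q, hpq⟩, hz0⟩
    have hseq := hm (fun n => (u ^ n) (p • β + q • γ))
      (fun n => rfrf_seq hβ.norm hγ.norm p q n) 0
    simp only [zero_add, pow_zero, Module.End.one_apply, ← hpq] at hseq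
    by_cases h1 : geo cs ((t * r) ^ m) z ≤ 0
    · left; exact ⟨hz, hz0, h1⟩
    · right
      have h1' := (hz.map ((t * r) ^ m)).nonneg_of_not_nonpos h1
      refine ⟨hz, hz0, ?_⟩
      rw [hgeo, hseq]
      rw [hgeo] at h1'
      have h3 : τ' • (u ^ m) z ≤ 0 := by
        have := smul_nonneg (neg_nonneg.2 hτ') h1'
        rw [neg_smul] at this
        exact neg_nonneg.1 this
      have : τ' • (u ^ m) z - z ≤ 0 - 0 := sub_le_sub h3 hz0
      simpa using this
  have hSpf : {z | z ∈ S ∧ 0 ≤ z}.Finite :=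
    ((invRoots_finite cs _).union (invRoots_finite cs _)).subset hSpos
  have hSf : S.Finite := by
    refine (hSpf.union (hSpf.image (fun z => -z))).subset ?_
    rintro z ⟨hz, p, q, hpq⟩
    rcases hz.nonneg_or_nonpos with h | h
    · left; exact ⟨⟨hz, p, q, hpq⟩, h⟩
    · right
      refine ⟨-z, ⟨⟨hz.neg, -p, -q, by rw [hpq]; module⟩, neg_nonneg.2 h⟩, by simp⟩
  have hSu : ∀ z ∈ S, u z ∈ S := by
    rintro z ⟨hz, p, q, hpq⟩
    refine ⟨?_, ?_⟩
    · have := hz.map (t * r)
      have h2 := hgeo 1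
      rw [pow_one, pow_one] at h2
      rwa [h2] at this
    · refine ⟨p * (4 * bf M β γ ^ 2 - 1) + q * (2 * bf M β γ), -(2 * bf M β γ) * p - q, ?_⟩
      rw [hpq, hu]
      simp only [Module.End.mul_apply, rf_apply, map_sub, map_add, map_smul, smul_eq_mul,
        hβ.norm, hγ.norm, bf_symm M γ β]
      module
  have hinj : Function.Injective u := by
    intro a b hab
    have h2 := hgeo 1
    rw [pow_one, pow_one] at h2
    rw [← h2] at hab
    have := congrArg (geo cs (t * r)⁻¹) hab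
    rwa [geo_inv_apply, geo_inv_apply] at this
  have hpowinj : ∀ n : ℕ, Function.Injective (u ^ n) := by
    intro n
    rw [Module.End.coe_pow]
    exact hinj.iterate n
  have hper : ∀ z ∈ S, ∃ k : ℕ, 0 < k ∧ (u ^ k) z = z := by
    intro z hz
    have hmem : ∀ n : ℕ, (u ^ n) z ∈ S := by
      intro n
      induction n with
      | zero => simpa using hz
      | succ n ih => rw [pow_succ', Module.End.mul_apply]; exact hSu _ ih
    have hni : ¬ Function.Injective (fun n : ℕ => (u ^ n) z) := by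
      intro h
      exact Set.infinite_of_injective_forall_mem h hmem hSf
    unfold Function.Injective at hni
    push Not at hni
    obtain ⟨a, b, hab, hne⟩ := hni
    wlog hlt : a < b generalizing a b
    · exact this b a hab.symm hne.symm (lt_of_le_of_ne (not_lt.1 hlt) hne.symm)
    refine ⟨b - a, by omega, ?_⟩
    apply hpowinj a
    have : (u ^ b) z = (u ^ a) ((u ^ (b - a)) z) := by
      rw [← Module.End.mul_apply, ← pow_add]
      congr 2; omega
    rw [← this]; exact hab.symm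
  have hβS : β ∈ S := ⟨hβ, 1, 0, by module⟩
  have hγS : γ ∈ S := ⟨hγ, 0, 1, by module⟩
  obtain ⟨k1, hk1, e1⟩ := hper β hβS
  obtain ⟨k2, hk2, e2⟩ := hper γ hγS
  have fixmul : ∀ (k n : ℕ) (z : B → ℝ), (u ^ k) z = z → (u ^ (k * n)) z = z := by
    intro k n z h
    induction n with
    | zero => simp
    | succ n ih => rw [Nat.mul_succ, pow_add, Module.End.mul_apply, h, ih]
  have f1 : (u ^ (k1 * k2)) β = β := fixmul _ _ _ e1
  have f2 : (u ^ (k1 * k2)) γ = γ := by rw [mul_comm]; exact fixmul _ _ _ e2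
  refine ⟨k1 * k2, Nat.mul_pos hk1 hk2, ?_⟩
  have hne : bf M β γ ^ 2 ≠ 1 := by
    have := trace_lt_two hB
    intro h; rw [h] at this; linarith
  refine LinearMap.ext fun v => ?_
  obtain ⟨p, q, v', rfl, h1, h2⟩ := exists_decomp M hβ.norm hγ.norm hne v
  rw [map_add, map_add, map_smul, map_smul, f1, f2, rfrf_pow_perp M h1 h2, Module.End.one_apply]

end CoxBound
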