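import Pool.Agent.Lib.MP_0d46c2_al.Color

set_option autoImplicit false
set_option linter.unusedSimpArgs false
set_option linter.unusedSectionVars false

/-!
# Translation into reflections of the Coxeter group
-/

namespace CoxBound

open Real CoxeterSystem

variable {B : Type*} [Fintype B] [DecidableEq B] {M : CoxeterMatrix B}
variable {W : Type*} [Group W] {cs : CoxeterSystem M W}

lemma geo_conj_refl {t x : W} {γ : B → ℝ} (ht : geo cs t = rf M γ) :
    geo cs (x * t * x⁻¹) = rf M (geo cs x γ) := by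
  refine LinearMap.ext fun v => ?_
  rw [geo_mul, geo_mul, ht, rf_apply, rf_apply, map_sub, map_smul, geo_apply_inv]
  congr 3
  rw [← bf_geo cs x, geo_apply_inv]

/-- If `ℓ(x) < ℓ(x t_γ)` then `x γ ≥ 0`. -/
lemma nonneg_of_length_lt {t : W} {γ : B → ℝ} (hγ : IsRoot cs γ) (h0 : 0 ≤ γ)
    (ht : geo cs t = rf M γ) (n : ℕ) : ∀ x : W, cs.length x = n →
    cs.length x < cs.length (x * t) → 0 ≤ geo cs x γ := by
  induction n using Nat.strong_induction_on with
  | _ n IH =>
  intro x hx hlt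
  by_cases hx1 : x = 1
  · subst hx1; simpa using h0
  obtain ⟨i, hi⟩ := cs.exists_leftDescent_of_ne_one hx1
  have hi' := cs.isLeftDescent_iff.1 hi
  set x' := cs.simple i * x with hx'
  have hxx' : x = cs.simple i * x' := by rw [hx', cs.simple_mul_simple_cancel_left]
  have h1 : cs.length x' < cs.length (x' * t) := by
    have h2 : x' * t = cs.simple i * (x * t) := by rw [hx', mul_assoc]
    rw [h2]
    rcases cs.length_simple_mul (x * t) i with h3 | h3 <;> omega
  have h4 : 0 ≤ geo cs x' γ := IH _ (by omega) x' rfl h1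
  by_contra hneg
  have h5 : geo cs x' γ = sroot i := by
    by_contra hne
    apply hneg
    rw [hxx', geo_mul]
    exact (hγ.map x').simple_nonneg h4 hne
  have h6 : x' * t * x'⁻¹ = cs.simple i := by
    apply geo_injective (cs := cs)
    rw [geo_conj_refl ht, h5, geo_simple]
  have h7 : x' * t = x := by
    rw [hxx', ← h6]; group
  have h8 : x * t = x' := by
    have : x * t = cs.simple i * (x' * t) := by rw [hxx', mul_assoc]
    rw [this, h7]
  rw [h8] at hlt
  omega

lemma isRightInversion_of_nonpos {t : W} {γ : B → ℝ} (hγ : IsRoot cs γ) (h0 : 0 ≤ γ)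
    (htr : cs.IsReflection t) (ht : geo cs t = rf M γ) {x : W} (hx : geo cs x γ ≤ 0) :
    cs.IsRightInversion x t := by
  refine ⟨htr, ?_⟩
  rcases lt_trichotomy (cs.length (x * t)) (cs.length x) with h | h | h
  · exact h
  · exact absurd h (htr.length_mul_left_ne x)
  · exact ((hγ.map x).not_both (nonneg_of_length_lt hγ h0 ht _ x rfl h) hx).elim

/-- Crossing roots: the product of the two reflections has finite order in `W`. -/
lemma isOfFinOrder_of_crossing {γ γ' : B → ℝ} {t t' : W} (hγ : IsRoot cs γ)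
    (hγ' : IsRoot cs γ') (ht : geo cs t = rf M γ) (ht' : geo cs t' = rf M γ')
    (hB : |bf M γ γ'| < 1) : IsOfFinOrder (t * t') := by
  obtain ⟨k, hk, h⟩ := finite_order hγ hγ' hB
  rw [isOfFinOrder_iff_pow_eq_one]
  refine ⟨k, hk, ?_⟩
  apply geo_injective (cs := cs)
  rw [map_pow, map_mul, ht, ht', h, map_one]

lemma rf_ne_of_crossing {γ γ' : B → ℝ} (hγ : IsRoot cs γ)
    (hB : |bf M γ γ'| < 1) : rf M γ ≠ rf M γ' := by
  intro h
  have h5 : rf M γ' γ = -γ := by rw [← h, rf_self M hγ.norm]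
  have h6 := congrArg (bf M γ) h5
  rw [rf_apply] at h6
  simp only [map_sub, map_smul, map_neg, smul_eq_mul, hγ.norm, bf_symm M γ' γ] at h6
  rw [abs_lt] at hB
  nlinarith

/-- Every root has a reflection of the group attached, conjugate to a simple reflection. -/
lemma IsRoot.exists_refl_conj {γ : B → ℝ} (h : IsRoot cs γ) :
    ∃ (t : W), cs.IsReflection t ∧ geo cs t = CoxBound.rf M γ ∧
      ∃ (w : W) (i : B), γ = geo cs w (sroot i) ∧ IsConj (cs.simple i) t := by
  obtain ⟨w, i, rfl⟩ := h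
  refine ⟨w * cs.simple i * w⁻¹, ⟨w, i, rfl⟩, LinearMap.ext fun v => geo_refl w i v,
    w, i, rfl, ?_⟩
  rw [isConj_iff]
  exact ⟨w, rfl⟩

/-- The crossing family theorem. -/
theorem crossing_family (cs : CoxeterSystem M W) :
    ∃ C : ℕ, ∀ (L : W → ℕ) (f : W → W → W → LaurentPolynomial ℤ),
      (∀ w w' : W, cs.length (w * w') = cs.length w + cs.length w' →
        L (w * w') = L w + L w') → IsStructConst cs L f →
      ∀ x y z : W, ∃ (K : Finset W) (ω : W → ℕ),
        K.card ≤ C ∧
        (∀ t ∈ K, cs.IsRightInversion x t ∧ cs.IsLeftInversion y t ∧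
          ∃ i : B, IsConj (cs.simple i) t ∧ ω t = L (cs.simple i)) ∧
        (∀ t ∈ K, ∀ t' ∈ K, IsOfFinOrder (t * t')) ∧
        LaurentPolynomial.degree (f x y z) ≤ (((∑ t ∈ K, ω t : ℕ) : ℤ) : WithBot ℤ) := by
  classical
  obtain ⟨C, hC⟩ := crossing_card cs
  refine ⟨C, fun L f hL hf x y z => ?_⟩
  -- weights of roots
  let wt : (B → ℝ) → ℕ := fun γ =>
    if h : IsRoot cs γ then L (cs.simple h.choose_spec.choose) else 0
  have hwt : ∀ (w : W) (i : B), wt (geo cs w (sroot i)) = L (cs.simple i) := by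
    intro w i
    have h : IsRoot cs (geo cs w (sroot i)) := ⟨w, i, rfl⟩
    have e : wt (geo cs w (sroot i)) = L (cs.simple h.choose_spec.choose) := dif_pos h
    rw [e]
    exact (weight_eq hL h.choose_spec.choose_spec).symm
  have hwt0 : ∀ i, wt (sroot i) = L (cs.simple i) := by
    intro i
    have := hwt 1 i
    simpa using this
  have hwtS : ∀ (i : B) (γ : B → ℝ), IsRoot cs γ → wt (geo cs (cs.simple i) γ) = wt γ := by
    rintro i γ ⟨w, j, rfl⟩
    rw [← geo_mul, hwt, hwt]
  obtain ⟨ω, hω, rfl⟩ := cs.exists_isReduced x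
  obtain ⟨K, hK, hcr, hbd⟩ := lops_bound L wt hwt0 hwtS ω hω y z
  rw [← hf.eq_lops ω hω y] at hbd
  -- reflections
  let tt : (B → ℝ) → W := fun γ =>
    if h : IsRoot cs γ then h.exists_refl_conj.choose else 1
  have htt : ∀ γ, IsRoot cs γ → cs.IsReflection (tt γ) ∧ geo cs (tt γ) = rf M γ ∧
      ∃ (w : W) (i : B), γ = geo cs w (sroot i) ∧ IsConj (cs.simple i) (tt γ) := by
    intro γ h
    have e : tt γ = h.exists_refl_conj.choose := dif_pos h
    rw [e]
    exact h.exists_refl_conj.choose_spec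
  have hinj : Set.InjOn tt ↑K := by
    intro γ hγ γ' hγ' he
    by_contra hne
    have h1 := (htt γ (hK hγ).1).2.1
    have h2 := (htt γ' (hK hγ').1).2.1
    rw [he, h2] at h1
    exact rf_ne_of_crossing (cs := cs) (hK hγ).1 (hcr γ hγ γ' hγ' hne) h1.symm
  refine ⟨K.image tt, fun t => wt (Function.invFunOn tt ↑K t), ?_, ?_, ?_, ?_⟩
  · exact Finset.card_image_le.trans (hC K (fun γ hγ => (hK hγ).1) hcr)
  · intro t ht
    rw [Finset.mem_image] at ht
    obtain ⟨γ, hγ, rfl⟩ := ht
    obtain ⟨hr, h0, h1, h2⟩ := hK hγ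
    obtain ⟨a1, a2, w, i, a3, a4⟩ := htt γ hr
    refine ⟨isRightInversion_of_nonpos hr h0 a1 a2 h1, ?_, i, a4, ?_⟩
    · have h3 := isRightInversion_of_nonpos hr h0 a1 a2 h2
      rw [cs.isRightInversion_inv_iff] at h3
      exact h3
    · have h3 : Function.invFunOn tt ↑K (tt γ) = γ := hinj.leftInvOn_invFunOn hγ
      change wt (Function.invFunOn tt ↑K (tt γ)) = _
      rw [h3, a3, hwt]
  · intro t ht t' ht'
    rw [Finset.mem_image] at ht ht'
    obtain ⟨γ, hγ, rfl⟩ := ht
    obtain ⟨γ', hγ', rfl⟩ := ht'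
    by_cases hne : γ = γ'
    · subst hne
      rw [(htt γ (hK hγ).1).1.mul_self]
      exact IsOfFinOrder.one
    · exact isOfFinOrder_of_crossing (hK hγ).1 (hK hγ').1 (htt γ (hK hγ).1).2.1
        (htt γ' (hK hγ').1).2.1 (hcr γ hγ γ' hγ' hne)
  · refine hbd.degree_le.trans (le_of_eq ?_)
    congr 2
    rw [Finset.sum_image hinj]
    refine Finset.sum_congr rfl fun γ hγ => ?_
    have h3 : Function.invFunOn tt ↑K (tt γ) = γ := hinj.leftInvOn_invFunOn hγ
    change _ = wt (Function.invFunOn tt ↑K (tt γ))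
    rw [h3]

end CoxBound
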